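import Pool.Agent.N335.Hg.Phi

/-! Every point of a Jordan curve is a limit of points inside the curve. -/

set_option autoImplicit false
open Complex Set Topology Metric

namespace Pool.Agent.U347.BT

open Pool.Agent.H763R2 Pool.Agent.H763R2.An
open Pool.Agent.N335.Hg

variable {c : ℝ → ℂ}

theorem far_outside (L : Loop c) {R : ℝ} (hR : ∀ t, ‖c t‖ < R) {z : ℂ} (hz : R ≤ ‖z‖) :
    ¬ 0 < mgc c z := by
  intro h
  have R0 : 0 < R := lt_of_le_of_lt (norm_nonneg _) (hR 0)
  have z0 : z ≠ 0 := by
    rintro rfl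
    rw [norm_zero] at hz
    linarith
  obtain ⟨-, h0⟩ := L.half (z := z) (a := -z) (neg_ne_zero.2 z0) (fun t => by
    have e : (c t - z) / (-z) = 1 - c t / z := by field_simp; ring
    rw [e, sub_re, one_re]
    have h1 := re_le_norm (c t / z)
    have h2 : ‖c t / z‖ < 1 := by
      rw [norm_div, div_lt_one (norm_pos_iff.2 z0)]
      exact lt_of_lt_of_le (hR t) hz
    linarith)
  unfold mgc at h
  split_ifs at h with ho
  · obtain ⟨n, hn, ho⟩ := ho
    rw [hn.unique h0] at ho
    exact absurd ho (by decide)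
  · have := infDist_nonneg (x := z) (s := range c)
    linarith

/-- every point of the curve is a limit of points inside -/
theorem near_inside (L : Loop c) (J : Inj c) {z0 : ℂ} (hz0 : 0 < mgc c z0) (x : ℝ) {η : ℝ}
    (hη : 0 < η) : ∃ z, 0 < mgc c z ∧ ‖z - c x‖ < η := by
  classical
  by_contra hno
  push Not at hno
  have cc := L.cont
  have cF := (mgc_sg L).cont
  obtain ⟨W, hW⟩ : ∃ W : Set ℂ, W = {z | 0 < mgc c z} := ⟨_, rfl⟩
  obtain ⟨R, hR0, hR⟩ : ∃ R, ‖z0‖ < R ∧ ∀ t, ‖c t‖ < R := by
    obtain ⟨B, hB⟩ := L.compact.isBounded.exists_norm_le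
    refine ⟨max B ‖z0‖ + 1, by linarith [le_max_right B ‖z0‖], fun t => ?_⟩
    linarith [hB _ (mem_range_self t), le_max_left B ‖z0‖]
  obtain ⟨ε, hε, hε2, hεη⟩ : ∃ ε > 0, ε < 1 / 2 ∧ ∀ s, |s - x| < ε → ‖c s - c x‖ < η := by
    obtain ⟨ε, hε, h⟩ := Metric.continuous_iff.1 cc x η hη
    refine ⟨min ε (1 / 4), by positivity, lt_of_le_of_lt (min_le_right _ _) (by norm_num),
      fun s hs => ?_⟩
    have := h s (by rw [Real.dist_eq]; exact lt_of_lt_of_le hs (min_le_left _ _))
    rwa [dist_eq_norm] at this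
  obtain ⟨S, hS⟩ : ∃ S : Set ℝ, S = Icc (x + ε) (x + 1 - ε) := ⟨_, rfl⟩
  have hfr : ∀ z ∈ frontier W, ∃ s ∈ S, c s = z := by
    intro z hz
    have h1 : mgc c z = 0 := by
      rw [hW] at hz
      have := frontier_lt_subset_eq continuous_const cF hz
      exact this.symm
    have h2 : z ∈ range c := by
      rw [← (mgc_sg L).zero L]; exact h1
    have h3 : η ≤ ‖z - c x‖ := by
      have h4 : closure W ⊆ {z | η ≤ ‖z - c x‖} := by
        refine closure_minimal (fun z hz => hno z (by rw [hW] at hz; exact hz)) ?_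
        exact isClosed_le continuous_const (by fun_prop)
      exact h4 (frontier_subset_closure hz)
    obtain ⟨s, rfl⟩ := h2
    obtain ⟨s', hs'⟩ : ∃ s', s' = x + Int.fract (s - x) := ⟨_, rfl⟩
    have e : c s' = c s := by
      have := L.per_int s' ⌊s - x⌋
      rw [← this, hs', add_assoc, Int.fract_add_floor]
      congr 1; ring
    have f0 := Int.fract_nonneg (s - x)
    have f1 := Int.fract_lt_one (s - x)
    refine ⟨s', ?_, e⟩
    rw [hS]
    constructor
    · by_contra hc
      push Not at hc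
      have := hεη s' (by rw [abs_lt]; constructor <;> linarith)
      rw [e] at this
      linarith
    · by_contra hc
      push Not at hc
      have := hεη (s' - 1) (by rw [abs_lt]; constructor <;> linarith)
      rw [← L.per (s' - 1), sub_add_cancel, e] at this
      linarith
  have hzc : z0 ∉ range c := by
    intro h
    rw [← (mgc_sg L).zero L] at h
    linarith
  obtain ⟨k, hk, ek⟩ := exists_Lg L hzc
  -- extend the logarithm from the arc to the plane
  have hcS : CompactSpace S := by
    rw [hS]; infer_instance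
  have hemb : IsClosedEmbedding (fun τ : S => c τ) := by
    refine Continuous.isClosedEmbedding (by fun_prop) ?_
    rintro ⟨s, hs⟩ ⟨t, ht⟩ h
    simp only at h
    rw [hS] at hs ht
    rw [Subtype.mk.injEq]
    rcases lt_trichotomy s t with h1 | h1 | h1
    · exact absurd h (J s t h1 (by linarith [hs.1, ht.2]))
    · exact h1
    · exact absurd h.symm (J t s h1 (by linarith [ht.1, hs.2]))
  obtain ⟨g, hg⟩ := ContinuousMap.exists_extension hemb (⟨fun τ : S => k τ, by fun_prop⟩ : C(S, ℂ))
  have hg' : ∀ τ ∈ S, g (c τ) = k τ := fun τ hτ => by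
    have := DFunLike.congr_fun hg ⟨τ, hτ⟩
    exact this
  obtain ⟨G, hG⟩ : ∃ G : ℂ → ℂ, G = fun ζ => if ζ ∈ W then exp (g ζ) else ζ - z0 := ⟨_, rfl⟩
  have cG : Continuous G := by
    rw [hG]
    refine continuous_if (p := fun ζ => ζ ∈ W) (fun ζ hζ => ?_) ?_ ?_
    · obtain ⟨s, hs, rfl⟩ := hfr ζ hζ
      rw [hg' s hs, ek]
    · exact (continuous_exp.comp g.continuous).continuousOn
    · exact (continuous_id.sub continuous_const).continuousOn
  have z0W : z0 ∈ W := by rw [hW]; exact hz0
  obtain ⟨K, hK, eK⟩ := H777R2.exists_log (X := ℂ) cG (fun ζ => by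
    rw [hG]
    simp only
    split_ifs with h
    · exact exp_ne_zero _
    · intro h0
      rw [sub_eq_zero.1 h0] at h
      exact h z0W)
  refine H777R2.no_log_circle hR0 hK.continuousOn fun ζ hζ => ?_
  rw [eK, hG]
  simp only
  rw [if_neg]
  rw [hW]
  have : ‖ζ‖ = R := by simpa using hζ
  exact far_outside L hR this.ge

end Pool.Agent.U347.BT
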