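import Pool.Agent.U347.BT.Grand

/-! Sealed arcs: no isosceles right triangle with its vertices on the arc has a vertex at an end of
the arc. Connected families of triangles cannot leave a sealed arc. -/

set_option autoImplicit false
open Complex Set Topology Metric Filter
open scoped ComplexConjugate

namespace Pool.Agent.U347.BT

open Pool.Agent.H763R2 Pool.Agent.H763R2.An
open Pool.Agent.H763R2.Dm (NoSq)
open Pool.Agent.Y765.Sq (Ann exists_int exists_rep TriM tri_fam)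
open Pool.Agent.N335.Hg

variable {c : ℝ → ℂ} {θ : ℝ → ℝ → ℝ} {F : ℂ → ℝ}

/-- triangles `P`, `Q`, `V = P + i (Q - P)` with a positive value of `F` at the fourth vertex -/
def RF (F : ℂ → ℝ) (P Q V : ℂ) : Prop := V = P + I * (Q - P) ∧ 0 < F (Q + I * (Q - P))

/-- The arc over `[a, b]` is sealed: no triangle with its vertices on the arc has a vertex at an end
of the arc. -/
def Sealed (c : ℝ → ℂ) (F : ℂ → ℝ) (a b : ℝ) : Prop :=
  ∀ x ∈ Icc a b, ∀ y ∈ Icc a b, ∀ u ∈ Icc a b,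
    (x = a ∨ y = a ∨ u = a ∨ x = b ∨ y = b ∨ u = b) → ¬ RF F (c x) (c y) (c u)

/-- `t` is inside a sealed arc -/
def Seal (c : ℝ → ℂ) (F : ℂ → ℝ) (t : ℝ) : Prop :=
  ∃ a b, a < t ∧ t < b ∧ b < a + 1 ∧ Sealed c F a b

theorem closed_union {N : ℕ} {A : ℤ → Set (ℝ × ℝ × ℝ)} (h : ∀ k, IsClosed (A k)) :
    IsClosed {q | ∃ k : ℤ, -(N : ℤ) ≤ k ∧ k ≤ N ∧ q ∈ A k} := by
  have : {q | ∃ k : ℤ, -(N : ℤ) ≤ k ∧ k ≤ N ∧ q ∈ A k} = ⋃ k ∈ Finset.Icc (-(N : ℤ)) N, A k := by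
    ext q
    simp only [mem_ofPred_eq, mem_iUnion, Finset.mem_Icc, exists_prop]
    constructor
    · rintro ⟨k, h1, h2, h3⟩; exact ⟨k, ⟨h1, h2⟩, h3⟩
    · rintro ⟨k, ⟨h1, h2⟩, h3⟩; exact ⟨k, h1, h2, h3⟩
  rw [this]
  exact isClosed_biUnion_finset fun k _ => h k

/-- a family stays in a set of triangles that is open and closed among the triangles of its kind -/
theorem clopenF (L : Loop c) (J : Inj c) (nosq : NoSq (range c)) (hF : Continuous F)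
    (hF0 : ∀ z, z ∉ range c → F z ≠ 0) {δ : ℝ} (hδ : 0 < δ) {T : Set Ann}
    (hT : IsPreconnected T) (hTt : TyA c δ T) {O C : Set (ℝ × ℝ × ℝ)} (hO : IsOpen O)
    (hC : IsClosed C) (h1 : ∀ q ∈ Mm c δ 0, q ∈ O → q ∈ C)
    (h2 : ∀ q ∈ Mm c δ 0, 0 < F (E4 c q) → q ∈ C → q ∈ O)
    (hsh : ∀ x s u, ((x + 1, s, u + 1) ∈ O ↔ (x, s, u) ∈ O))
    {q₀ : ℝ × ℝ × ℝ} (hq₀ : q₀ ∈ Mm c δ 0) (hq₀O : q₀ ∈ O)
    (hq₀T : (((q₀.1 : AddCircle (1 : ℝ)), q₀.2.1) : Ann) ∈ T) :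
    ∀ q ∈ Mm c δ 0, 0 < F (E4 c q) → (((q.1 : AddCircle (1 : ℝ)), q.2.1) : Ann) ∈ T → q ∈ O := by
  have hM := Mm_closed L.cont δ 0
  have cE : Continuous fun q => F (E4 c q) := hF.comp (E4_cont L)
  have k1 : Mm c δ 0 ∩ {q | 0 < F (E4 c q) → q ∈ O} =
      (Mm c δ 0 ∩ {q | F (E4 c q) ≤ 0}) ∪ (Mm c δ 0 ∩ ({q | 0 ≤ F (E4 c q)} ∩ C)) := by
    ext q
    simp only [mem_inter_iff, mem_union, mem_ofPred_eq]
    constructor
    · rintro ⟨g1, g2⟩
      rcases le_or_gt (F (E4 c q)) 0 with g3 | g3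
      · exact Or.inl ⟨g1, g3⟩
      · exact Or.inr ⟨g1, g3.le, h1 q g1 (g2 g3)⟩
    · rintro (⟨g1, g2⟩ | ⟨g1, g2, g3⟩)
      · exact ⟨g1, fun h => absurd h (not_lt.2 g2)⟩
      · exact ⟨g1, fun h => h2 q g1 h g3⟩
  have k2 : Mm c δ 0 ∩ {q | 0 < F (E4 c q) → q ∈ O}ᶜ =
      Mm c δ 0 ∩ ({q | 0 ≤ F (E4 c q)} ∩ Oᶜ) := by
    ext q
    simp only [mem_inter_iff, mem_ofPred_eq, mem_compl_iff, Classical.not_imp]
    constructor
    · rintro ⟨g1, g2, g3⟩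
      exact ⟨g1, g2.le, g3⟩
    · rintro ⟨g1, g2, g3⟩
      exact ⟨g1, lt_of_le_of_ne g2 (hF0 _ (E4_notMem J nosq hδ g1)).symm, g3⟩
  have key := clopen2 L J hδ hT hTt (a := 0) (S := {q | 0 < F (E4 c q) → q ∈ O})
    (by
      rw [k1]
      exact (hM.inter (isClosed_le cE continuous_const)).union
        (hM.inter ((isClosed_le continuous_const cE).inter hC)))
    (by
      rw [k2]
      exact hM.inter ((isClosed_le continuous_const cE).inter hO.isClosed_compl))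
    (fun x s u g1 g2 g3 => by
      have f0 : E4 c (x + 1, s, u + 1) = E4 c (x, s, u) := by
        unfold E4
        simp only
        rw [show x + 1 + s = x + s + 1 by ring, L.per, L.per]
      simp only [mem_ofPred_eq]
      rw [f0, hsh x s u]) (q₀ := q₀) ⟨hq₀, fun _ => hq₀O⟩ hq₀T
  intro q hq hq' hqT
  have := key q hq hqT
  simp only [mem_ofPred_eq] at this
  exact this hq'

theorem int_bound {N : ℕ} {k : ℤ} (h1 : -((N : ℝ) + 1) < k) (h2 : (k : ℝ) < N + 1) :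
    -(N : ℤ) ≤ k ∧ k ≤ N := by
  have a1 : -((N : ℤ) + 1) < k := by exact_mod_cast h1
  have a2 : k < (N : ℤ) + 1 := by exact_mod_cast h2
  omega

/-- the members of a family near the short end stay on the sealed arc -/
theorem seal_short (L : Loop c) (J : Inj c) (nosq : NoSq (range c)) (hF : Continuous F)
    (hF0 : ∀ z, z ∉ range c → F z ≠ 0) {a b : ℝ} (hS : Sealed c F a b) {δ : ℝ} (hδ : 0 < δ)
    {T : Set Ann} (hT : IsPreconnected T) (hTt : TyP c (RF F) δ T) {q₀ : ℝ × ℝ × ℝ}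
    (hq₀ : q₀ ∈ Mm c δ 0) (h1 : a < q₀.1) (h2 : q₀.1 + q₀.2.1 < b)
    (hq₀T : (((q₀.1 : AddCircle (1 : ℝ)), q₀.2.1) : Ann) ∈ T) : ∀ p ∈ T, p.2 < b - a := by
  obtain ⟨N, hN⟩ := exists_nat_gt (|a| + |b| + 2)
  have ha := abs_le.1 (le_refl |a|)
  have hb := abs_le.1 (le_refl |b|)
  have a0 := abs_nonneg a
  have b0 := abs_nonneg b
  have tyA : TyA c δ T := fun p hp => by
    obtain ⟨d1, d2, hall⟩ := hTt p hp
    refine ⟨d1, d2, fun x hx => ?_⟩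
    obtain ⟨u, u1, u2, u3, -⟩ := hall x hx
    exact ⟨u, u1, u2, u3⟩
  have key := clopenF L J nosq hF hF0 hδ hT tyA
    (O := {q | ∃ k : ℤ, a < q.1 + k ∧ q.1 + q.2.1 + k < b})
    (C := {q | ∃ k : ℤ, -(N : ℤ) ≤ k ∧ k ≤ N ∧ q ∈ {q : ℝ × ℝ × ℝ | a ≤ q.1 + k ∧
      q.1 + q.2.1 + k ≤ b}})
    (by
      have : {q : ℝ × ℝ × ℝ | ∃ k : ℤ, a < q.1 + k ∧ q.1 + q.2.1 + k < b} =
          ⋃ k : ℤ, ({q : ℝ × ℝ × ℝ | a < q.1 + k} ∩ {q | q.1 + q.2.1 + k < b}) := by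
        ext q
        simp only [mem_ofPred_eq, mem_iUnion, mem_inter_iff]
      rw [this]
      exact isOpen_iUnion fun k => (isOpen_lt (by fun_prop) (by fun_prop)).inter
        (isOpen_lt (by fun_prop) (by fun_prop)))
    (closed_union fun k => by
      have : {q : ℝ × ℝ × ℝ | a ≤ q.1 + k ∧ q.1 + q.2.1 + k ≤ b} =
          {q : ℝ × ℝ × ℝ | a ≤ q.1 + k} ∩ {q | q.1 + q.2.1 + k ≤ b} := rfl
      rw [this]
      exact (isClosed_le (by fun_prop) (by fun_prop)).inter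
        (isClosed_le (by fun_prop) (by fun_prop)))
    (fun q hq hqO => by
      simp only [mem_ofPred_eq] at hqO ⊢
      obtain ⟨k, g1, g2⟩ := hqO
      have s := Mm_strict J hδ hq
      have i1 := hq.1
      obtain ⟨i2, i3⟩ := i1
      rw [zero_add] at i3
      have hk := int_bound (N := N) (k := k) (by linarith) (by linarith)
      exact ⟨k, hk.1, hk.2, g1.le, g2.le⟩)
    (fun q hq hFq hqC => by
      simp only [mem_ofPred_eq] at hqC ⊢
      obtain ⟨k, -, -, g1, g2⟩ := hqC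
      have s := Mm_strict J hδ hq
      have e := hq.2.2.2.2
      have hR : RF F (c (q.1 + k)) (c (q.1 + q.2.1 + k)) (c (q.2.2 + k)) := by
        rw [L.per_int, L.per_int, L.per_int]
        exact ⟨e, hFq⟩
      refine ⟨k, lt_of_le_of_ne g1 fun h => ?_, lt_of_le_of_ne g2 fun h => ?_⟩
      · exact hS _ ⟨g1, by linarith [s.1, s.2.1]⟩ _ ⟨by linarith [s.1, s.2.1], g2⟩ _
          ⟨by linarith [s.1], by linarith [s.2.1]⟩ (Or.inl h.symm) hR
      · exact hS _ ⟨g1, by linarith [s.1, s.2.1]⟩ _ ⟨by linarith [s.1, s.2.1], g2⟩ _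
          ⟨by linarith [s.1], by linarith [s.2.1]⟩
          (Or.inr (Or.inr (Or.inr (Or.inr (Or.inl h))))) hR)
    (fun x s u => by
      simp only [mem_ofPred_eq]
      constructor
      · rintro ⟨k, g1, g2⟩
        exact ⟨k + 1, by push_cast; linarith, by push_cast; linarith⟩
      · rintro ⟨k, g1, g2⟩
        exact ⟨k - 1, by push_cast; linarith, by push_cast; linarith⟩)
    hq₀ ⟨0, by push_cast; linarith, by push_cast; linarith⟩ hq₀T
  intro p hp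
  obtain ⟨x, hx, hxp⟩ := exists_rep p.1
  obtain ⟨d1, d2, hall⟩ := hTt p hp
  obtain ⟨u, u1, u2, u3, u4, u5⟩ := hall x hxp
  have hm : (x, p.2, u) ∈ Mm c δ 0 :=
    ⟨⟨hx.1, by rw [zero_add]; exact hx.2⟩, ⟨d1, d2⟩, u1.le, u2.le, u3⟩
  have := key (x, p.2, u) hm u5 (by
    have : (((x : AddCircle (1 : ℝ)), p.2) : Ann) = p := Prod.ext hxp rfl
    rw [this]; exact hp)
  simp only [mem_ofPred_eq] at this
  obtain ⟨k, g1, g2⟩ := this
  linarith

/-- the members of a family near the long end stay on the sealed arc -/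
theorem seal_long (L : Loop c) (J : Inj c) (nosq : NoSq (range c)) (hF : Continuous F)
    (hF0 : ∀ z, z ∉ range c → F z ≠ 0) {a b : ℝ} (hS : Sealed c F a b) {δ : ℝ} (hδ : 0 < δ)
    {T : Set Ann} (hT : IsPreconnected T) (hTt : TyP c (RF F) δ T) {q₀ : ℝ × ℝ × ℝ}
    (hq₀ : q₀ ∈ Mm c δ 0) (h1 : (a < q₀.1 + q₀.2.1 - 1 ∧ q₀.2.2 < b) ∨
      (a < q₀.2.2 - 1 ∧ q₀.1 < b))
    (hq₀T : (((q₀.1 : AddCircle (1 : ℝ)), q₀.2.1) : Ann) ∈ T) : ∀ p ∈ T, 1 - p.2 < b - a := by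
  obtain ⟨N, hN⟩ := exists_nat_gt (|a| + |b| + 3)
  have ha := abs_le.1 (le_refl |a|)
  have hb := abs_le.1 (le_refl |b|)
  have a0 := abs_nonneg a
  have b0 := abs_nonneg b
  have tyA : TyA c δ T := fun p hp => by
    obtain ⟨d1, d2, hall⟩ := hTt p hp
    refine ⟨d1, d2, fun x hx => ?_⟩
    obtain ⟨u, u1, u2, u3, -⟩ := hall x hx
    exact ⟨u, u1, u2, u3⟩
  have key := clopenF L J nosq hF hF0 hδ hT tyA
    (O := {q | ∃ k : ℤ, (a < q.1 + q.2.1 - 1 + k ∧ q.2.2 + k < b) ∨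
      (a < q.2.2 - 1 + k ∧ q.1 + k < b)})
    (C := {q | ∃ k : ℤ, -(N : ℤ) ≤ k ∧ k ≤ N ∧ q ∈ {q : ℝ × ℝ × ℝ |
      (a ≤ q.1 + q.2.1 - 1 + k ∧ q.2.2 + k ≤ b) ∨ (a ≤ q.2.2 - 1 + k ∧ q.1 + k ≤ b)}})
    (by
      have : {q : ℝ × ℝ × ℝ | ∃ k : ℤ, (a < q.1 + q.2.1 - 1 + k ∧ q.2.2 + k < b) ∨
          (a < q.2.2 - 1 + k ∧ q.1 + k < b)} =
          ⋃ k : ℤ, (({q : ℝ × ℝ × ℝ | a < q.1 + q.2.1 - 1 + k} ∩ {q | q.2.2 + k < b}) ∪
            ({q : ℝ × ℝ × ℝ | a < q.2.2 - 1 + k} ∩ {q | q.1 + k < b})) := by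
        ext q
        simp only [mem_ofPred_eq, mem_iUnion, mem_inter_iff, mem_union]
      rw [this]
      exact isOpen_iUnion fun k => ((isOpen_lt (by fun_prop) (by fun_prop)).inter
        (isOpen_lt (by fun_prop) (by fun_prop))).union
        ((isOpen_lt (by fun_prop) (by fun_prop)).inter (isOpen_lt (by fun_prop) (by fun_prop))))
    (closed_union fun k => by
      have : {q : ℝ × ℝ × ℝ | (a ≤ q.1 + q.2.1 - 1 + k ∧ q.2.2 + k ≤ b) ∨
          (a ≤ q.2.2 - 1 + k ∧ q.1 + k ≤ b)} =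
          ({q : ℝ × ℝ × ℝ | a ≤ q.1 + q.2.1 - 1 + k} ∩ {q | q.2.2 + k ≤ b}) ∪
            ({q : ℝ × ℝ × ℝ | a ≤ q.2.2 - 1 + k} ∩ {q | q.1 + k ≤ b}) := rfl
      rw [this]
      exact ((isClosed_le (by fun_prop) (by fun_prop)).inter
        (isClosed_le (by fun_prop) (by fun_prop))).union
        ((isClosed_le (by fun_prop) (by fun_prop)).inter
        (isClosed_le (by fun_prop) (by fun_prop))))
    (fun q hq hqO => by
      simp only [mem_ofPred_eq] at hqO ⊢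
      obtain ⟨k, hk0⟩ := hqO
      have s := Mm_strict J hδ hq
      have i1 := hq.1
      obtain ⟨i2, i3⟩ := i1
      rw [zero_add] at i3
      have hk := int_bound (N := N) (k := k)
        (by rcases hk0 with ⟨g1, g2⟩ | ⟨g1, g2⟩ <;> linarith [s.1, s.2.1, s.2.2])
        (by rcases hk0 with ⟨g1, g2⟩ | ⟨g1, g2⟩ <;> linarith [s.1, s.2.1, s.2.2])
      exact ⟨k, hk.1, hk.2, hk0.imp (fun h => ⟨h.1.le, h.2.le⟩) fun h => ⟨h.1.le, h.2.le⟩⟩)
    (fun q hq hFq hqC => by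
      simp only [mem_ofPred_eq] at hqC ⊢
      obtain ⟨k, -, -, hk0⟩ := hqC
      have s := Mm_strict J hδ hq
      have e := hq.2.2.2.2
      have hd := hq.2.1
      have eQ : c (q.1 + q.2.1 - 1 + k) = c (q.1 + q.2.1) := by
        rw [show q.1 + q.2.1 - 1 + k = q.1 + q.2.1 + ((k - 1 : ℤ) : ℝ) by push_cast; ring,
          L.per_int]
      have eV : c (q.2.2 - 1 + k) = c q.2.2 := by
        rw [show q.2.2 - 1 + k = q.2.2 + ((k - 1 : ℤ) : ℝ) by push_cast; ring, L.per_int]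
      refine ⟨k, ?_⟩
      rcases hk0 with ⟨g1, g2⟩ | ⟨g1, g2⟩
      · have hR : RF F (c (q.1 + k)) (c (q.1 + q.2.1 - 1 + k)) (c (q.2.2 + k)) := by
          rw [L.per_int, eQ, L.per_int]
          exact ⟨e, hFq⟩
        have m1 : q.1 + k ∈ Icc a b := ⟨by linarith [s.2.2], by linarith [s.1]⟩
        have m2 : q.1 + q.2.1 - 1 + k ∈ Icc a b := ⟨g1, by linarith [s.2.2, s.1]⟩
        have m3 : q.2.2 + k ∈ Icc a b := ⟨by linarith [s.2.2, s.1], g2⟩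
        left
        refine ⟨lt_of_le_of_ne g1 fun h => ?_, lt_of_le_of_ne g2 fun h => ?_⟩
        · exact hS _ m1 _ m2 _ m3 (Or.inr (Or.inl h.symm)) hR
        · exact hS _ m1 _ m2 _ m3 (Or.inr (Or.inr (Or.inr (Or.inr (Or.inr h))))) hR
      · have hR : RF F (c (q.1 + k)) (c (q.1 + q.2.1 - 1 + k)) (c (q.2.2 - 1 + k)) := by
          rw [L.per_int, eQ, eV]
          exact ⟨e, hFq⟩
        have m1 : q.1 + k ∈ Icc a b := ⟨by linarith [s.2.2, s.2.1], g2⟩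
        have m2 : q.1 + q.2.1 - 1 + k ∈ Icc a b := ⟨by linarith [s.2.1], by linarith [s.2.2, s.1]⟩
        have m3 : q.2.2 - 1 + k ∈ Icc a b := ⟨g1, by linarith [s.2.2, s.2.1]⟩
        right
        refine ⟨lt_of_le_of_ne g1 fun h => ?_, lt_of_le_of_ne g2 fun h => ?_⟩
        · exact hS _ m1 _ m2 _ m3 (Or.inr (Or.inr (Or.inl h.symm))) hR
        · exact hS _ m1 _ m2 _ m3 (Or.inr (Or.inr (Or.inr (Or.inl h)))) hR)
    (fun x s u => by
      simp only [mem_ofPred_eq]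
      constructor
      · rintro ⟨k, ⟨g1, g2⟩ | ⟨g1, g2⟩⟩
        · exact ⟨k + 1, Or.inl ⟨by push_cast; linarith, by push_cast; linarith⟩⟩
        · exact ⟨k + 1, Or.inr ⟨by push_cast; linarith, by push_cast; linarith⟩⟩
      · rintro ⟨k, ⟨g1, g2⟩ | ⟨g1, g2⟩⟩
        · exact ⟨k - 1, Or.inl ⟨by push_cast; linarith, by push_cast; linarith⟩⟩
        · exact ⟨k - 1, Or.inr ⟨by push_cast; linarith, by push_cast; linarith⟩⟩)
    hq₀ ⟨0, by
      rw [Int.cast_zero, add_zero, add_zero, add_zero, add_zero]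
      exact h1⟩ hq₀T
  intro p hp
  obtain ⟨x, hx, hxp⟩ := exists_rep p.1
  obtain ⟨d1, d2, hall⟩ := hTt p hp
  obtain ⟨u, u1, u2, u3, u4, u5⟩ := hall x hxp
  have hm : (x, p.2, u) ∈ Mm c δ 0 :=
    ⟨⟨hx.1, by rw [zero_add]; exact hx.2⟩, ⟨d1, d2⟩, u1.le, u2.le, u3⟩
  have := key (x, p.2, u) hm u5 (by
    have : (((x : AddCircle (1 : ℝ)), p.2) : Ann) = p := Prod.ext hxp rfl
    rw [this]; exact hp)
  simp only [mem_ofPred_eq] at this
  obtain ⟨k, ⟨g1, g2⟩ | ⟨g1, g2⟩⟩ := this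
  · linarith
  · linarith

end Pool.Agent.U347.BT
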