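import Pool.Agent.U347.BT.Un
import Pool.Agent.U347.BT.Bd
import Pool.Agent.U347.BT.Seal

/-! Points near which the inside of the curve is a John domain with a constant greater than
`1 / √5`: the winding of the arcs between the vertices of a small triangle around the fourth
vertex of the square. -/

set_option autoImplicit false
open Complex Set Topology Metric Filter
open scoped ComplexConjugate

namespace Pool.Agent.U347.BT

open Pool.Agent.H763R2 Pool.Agent.H763R2.An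
open Pool.Agent.H763R2.Dm (NoSq)
open Pool.Agent.Y765.Sq (Ann exists_int exists_rep TriM tri_fam)
open Pool.Agent.N335.Hg

variable {c : ℝ → ℂ} {θ : ℝ → ℝ → ℝ} {F : ℂ → ℝ}

/-- John condition at the point `p` of the set `C` with the constant `lam`: every point `z` near `p`
at which `F` is positive is the start of a path to a point at distance at least `r` from `p`, all of
whose points `ζ` are at distance at least `lam |ζ - z|` from `C`. -/
def Carr (C : Set ℂ) (F : ℂ → ℝ) (lam : ℝ) (p : ℂ) : Prop :=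
  ∃ r > 0, ∀ z, 0 < F z → ‖z - p‖ < r → ∃ γ : ℝ → ℂ, Continuous γ ∧ γ 0 = z ∧ r ≤ ‖γ 1 - p‖ ∧
    ∀ s ∈ Icc (0:ℝ) 1, lam * ‖γ s - z‖ ≤ infDist (γ s) C

theorem lam_pos {lam : ℝ} (h : 1 / √5 < lam) : 0 < lam ∧ 1 < 5 * lam ^ 2 := by
  have h5 : 0 < √(5:ℝ) := by positivity
  have hl : 0 < lam := lt_trans (by positivity) h
  refine ⟨hl, ?_⟩
  rw [div_lt_iff₀ h5] at h
  have h1 : (1:ℝ) ^ 2 < (lam * √5) ^ 2 := by
    exact pow_lt_pow_left₀ h (by norm_num) (by norm_num)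
  rw [mul_pow, Real.sq_sqrt (by norm_num)] at h1
  linarith

/-- the estimate for the sides through the vertex opposite to the fourth vertex -/
theorem side_avoid {lam σ W d N : ℝ} (hl0 : 0 < lam) (hl : 1 < 5 * lam ^ 2) (hW : 0 < W)
    (h0 : 0 ≤ σ) (h1 : σ ≤ 1) (hd0 : 0 ≤ d) (hd1 : d ≤ σ * W) (hd2 : d ≤ (1 - σ) * W)
    (hN0 : 0 ≤ N) (hN : N ^ 2 = (1 + (1 - σ) ^ 2) * W ^ 2) (h : lam * N ≤ d) : False := by
  have e1 : (lam * N) ^ 2 ≤ d ^ 2 := pow_le_pow_left₀ (by positivity) h 2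
  rw [mul_pow, hN] at e1
  have hW2 : 0 < W ^ 2 := by positivity
  have e2 : d ^ 2 ≤ (σ * W) ^ 2 := pow_le_pow_left₀ hd0 hd1 2
  have e3 : d ^ 2 ≤ ((1 - σ) * W) ^ 2 := pow_le_pow_left₀ hd0 hd2 2
  have e4 : (1 + (1 - σ) ^ 2) * W ^ 2 < 5 * d ^ 2 := by
    have : 0 < (1 + (1 - σ) ^ 2) * W ^ 2 := by positivity
    nlinarith
  rcases le_total σ (1 / 2) with g | g
  · have g1 : 5 / 4 ≤ 1 + (1 - σ) ^ 2 := by nlinarith
    have g2 : σ ^ 2 ≤ 1 / 4 := by nlinarith
    have g3 : (5 / 4) * W ^ 2 ≤ (1 + (1 - σ) ^ 2) * W ^ 2 :=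
      mul_le_mul_of_nonneg_right g1 hW2.le
    have g4 : σ ^ 2 * W ^ 2 ≤ (1 / 4) * W ^ 2 := mul_le_mul_of_nonneg_right g2 hW2.le
    nlinarith
  · have g2 : (1 - σ) ^ 2 ≤ 1 / 4 := by nlinarith
    have g4 : 4 * ((1 - σ) ^ 2 * W ^ 2) ≤ W ^ 2 := by
      have := mul_le_mul_of_nonneg_right g2 hW2.le
      linarith
    nlinarith

theorem norm_sq_lin (a b : ℝ) (w : ℂ) : ‖((a : ℂ) + b * I) * w‖ ^ 2 = (a ^ 2 + b ^ 2) * ‖w‖ ^ 2 := by
  rw [norm_mul, mul_pow]
  congr 1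
  rw [← Complex.normSq_eq_norm_sq, Complex.normSq_add_mul_I]

/-- the path avoids the curve -/
theorem carr_curve {C : Set ℂ} {lam : ℝ} (hl0 : 0 < lam) {z : ℂ} (hz : z ∉ C) {ζ : ℂ}
    (h : lam * ‖ζ - z‖ ≤ infDist ζ C) : ζ ∉ C := by
  intro hζ
  rw [infDist_zero_of_mem hζ] at h
  have h1 : ‖ζ - z‖ = 0 := by
    have := norm_nonneg (ζ - z)
    nlinarith
  rw [norm_eq_zero, sub_eq_zero] at h1
  rw [h1] at hζ
  exact hz hζ

/-- the path avoids the two sides through the vertex opposite to the fourth vertex -/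
theorem carr_sides {C : Set ℂ} {lam : ℝ} (hl : 1 / √5 < lam) {P Q V : ℂ} (hP : P ∈ C) (hQ : Q ∈ C)
    (hV : V ∈ C) (hPQ : Q ≠ P) (hVe : V = P + I * (Q - P)) {ζ : ℂ}
    (h : lam * ‖ζ - (Q + I * (Q - P))‖ ≤ infDist ζ C) :
    ζ ∉ segment ℝ P Q ∧ ζ ∉ segment ℝ P V := by
  obtain ⟨hl0, hl1⟩ := lam_pos hl
  have hW : 0 < ‖Q - P‖ := norm_pos_iff.2 (sub_ne_zero.2 hPQ)
  constructor
  · rw [segment_eq_image']
    rintro ⟨σ, ⟨h0, h1⟩, rfl⟩
    simp only [real_smul] at h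
    refine side_avoid hl0 hl1 hW h0 h1 infDist_nonneg ?_ ?_ (norm_nonneg _) ?_ h
    · refine (infDist_le_dist_of_mem hP).trans ?_
      rw [dist_eq_norm, show P + (σ : ℂ) * (Q - P) - P = σ * (Q - P) by ring, norm_mul, norm_real,
        Real.norm_of_nonneg h0]
    · refine (infDist_le_dist_of_mem hQ).trans ?_
      rw [dist_eq_norm, show P + (σ : ℂ) * (Q - P) - Q = -(((1 - σ : ℝ) : ℂ) * (Q - P)) by
        push_cast; ring, norm_neg, norm_mul, norm_real, Real.norm_of_nonneg (by linarith)]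
    · rw [show P + (σ : ℂ) * (Q - P) - (Q + I * (Q - P)) =
        ((-(1 - σ) : ℝ) + ((-1 : ℝ) : ℂ) * I) * (Q - P) by push_cast; ring, norm_sq_lin]
      ring
  · rw [segment_eq_image']
    rintro ⟨σ, ⟨h0, h1⟩, rfl⟩
    simp only [real_smul] at h
    refine side_avoid hl0 hl1 hW h0 h1 infDist_nonneg ?_ ?_ (norm_nonneg _) ?_ h
    · refine (infDist_le_dist_of_mem hP).trans ?_
      rw [dist_eq_norm, show P + (σ : ℂ) * (V - P) - P = σ * (I * (Q - P)) by rw [hVe]; ring,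
        norm_mul, norm_mul, norm_I, one_mul, norm_real, Real.norm_of_nonneg h0]
    · refine (infDist_le_dist_of_mem hV).trans ?_
      rw [dist_eq_norm, show P + (σ : ℂ) * (V - P) - V = -(((1 - σ : ℝ) : ℂ) * (I * (Q - P))) by
        rw [hVe]; push_cast; ring, norm_neg, norm_mul, norm_mul, norm_I, one_mul, norm_real,
        Real.norm_of_nonneg (by linarith)]
    · rw [show P + (σ : ℂ) * (V - P) - (Q + I * (Q - P)) =
        ((-1 : ℝ) + ((-(1 - σ) : ℝ) : ℂ) * I) * (Q - P) by rw [hVe]; push_cast; ring, norm_sq_lin]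
      ring

theorem log_im_mem (w : ℂ) : -Real.pi < (log w).im ∧ (log w).im ≤ Real.pi := by
  rw [log_im]; exact ⟨neg_pi_lt_arg w, arg_le_pi w⟩

/-- The three arcs: the set-up. `γ` is a path from the fourth vertex. -/
theorem carr_phi (L : Loop c) {p : ℂ} {r : ℝ} {P D : ℂ} (hD : D ∉ range c) {γ : ℝ → ℂ}
    (hγ : Continuous γ) (g0 : γ 0 = D) (g1 : r ≤ ‖γ 1 - p‖)
    (gC : ∀ s ∈ Icc (0:ℝ) 1, γ s ∉ range c) (hP : P ∈ range c) {a b : ℝ} (hab : a ≤ b)
    (hball : ∀ τ ∈ Icc a b, c τ ∈ ball p r)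
    (h : c a = P ∧ (∀ s ∈ Icc (0:ℝ) 1, γ s ∉ segment ℝ P (c b)) ∨
      c b = P ∧ (∀ s ∈ Icc (0:ℝ) 1, γ s ∉ segment ℝ P (c a))) :
    -Real.pi < Phi c D a b ∧ Phi c D a b ≤ Real.pi := by
  obtain ⟨k, hk⟩ := exists_Lg L hD
  rw [Phi_eq hk]
  obtain ⟨hk, ek⟩ := hk
  have hPD : P - D ≠ 0 := by
    intro h0
    rw [sub_eq_zero.1 h0] at hP
    exact hD hP
  have h6 : γ 1 ∉ ball p r := by
    rw [mem_ball, dist_eq_norm, not_lt]; exact g1
  rcases h with ⟨e, h⟩ | ⟨e, h⟩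
  · have := unwind L.cont hab hγ (m := P) (p := p) (r := r)
      (fun s hs τ _ h0 => gC s hs (h0 ▸ mem_range_self τ))
      (fun s hs => by
        rw [e, segment_same, mem_singleton_iff]
        intro h0
        exact gC s hs (h0 ▸ hP))
      h hball (by rw [← e]; exact hball a ⟨le_rfl, hab⟩) h6 (k := k) hk.continuousOn
      (fun τ _ => by rw [ek, g0])
    rw [this, g0, e, div_self hPD, log_one, zero_add]
    exact log_im_mem _
  · have := unwind L.cont hab hγ (m := P) (p := p) (r := r)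
      (fun s hs τ _ h0 => gC s hs (h0 ▸ mem_range_self τ))
      (fun s hs => by rw [segment_symm]; exact h s hs)
      (fun s hs => by
        rw [e, segment_same, mem_singleton_iff]
        intro h0
        exact gC s hs (h0 ▸ hP)) hball (by rw [← e]; exact hball b ⟨hab, le_rfl⟩) h6 (k := k)
      hk.continuousOn (fun τ _ => by rw [ek, g0])
    rw [this, g0, e, div_self hPD, log_one, add_zero]
    exact log_im_mem _

/-- small triangles are in the ball -/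
theorem carr_size {p P Q : ℂ} {r : ℝ} (hP : ‖P - p‖ < r / 4) (hQ : ‖Q - p‖ < r / 4) :
    ‖Q + I * (Q - P) - p‖ < r := by
  have h1 : ‖Q - P‖ < r / 2 := by
    have := norm_sub_le (Q - p) (P - p)
    rw [sub_sub_sub_cancel_right] at this
    linarith
  have h2 : ‖Q + I * (Q - P) - p‖ ≤ ‖Q - p‖ + ‖Q - P‖ := by
    rw [show Q + I * (Q - P) - p = (Q - p) + I * (Q - P) by ring]
    refine (norm_add_le _ _).trans ?_
    rw [norm_mul, norm_I, one_mul]
  have h3 := norm_nonneg (Q - P)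
  linarith

end Pool.Agent.U347.BT
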