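import Pool.Agent.U347.BT.Carr

/-! Points near which the inside of the curve is a John domain with a constant greater than
`1 / √2`: the arc from `V` to `Q` does not wind around `P`. -/

set_option autoImplicit false
open Complex Set Topology Metric Filter
open scoped ComplexConjugate

namespace Pool.Agent.U347.BT

open Pool.Agent.H763R2 Pool.Agent.H763R2.An
open Pool.Agent.H763R2.Dm (NoSq)
open Pool.Agent.Y765.Sq (Ann exists_int exists_rep TriM tri_fam)
open Pool.Agent.N335.Hg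

variable {c : ℝ → ℂ} {θ : ℝ → ℝ → ℝ} {F : ℂ → ℝ}

theorem re_add_im_le (z : ℂ) : z.re + z.im ≤ √2 * ‖z‖ := by
  have h : (z.re + z.im) ^ 2 ≤ (√2 * ‖z‖) ^ 2 := by
    rw [mul_pow, Real.sq_sqrt (by norm_num), ← Complex.normSq_eq_norm_sq, Complex.normSq_apply]
    nlinarith [sq_nonneg (z.re - z.im)]
  exact (le_abs_self _).trans (abs_le_of_sq_le_sq h (by positivity))

/-- the estimate for the sides through the fourth vertex -/
theorem side_avoid2 {lam σ W d η N M : ℝ} (hl0 : 0 < lam) (hl : 1 < √2 * lam) (hW : 0 < W)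
    (h0 : 0 ≤ σ) (h1 : σ ≤ 1) (hd : d ≤ σ * W) (hη : √2 * η < W)
    (hη2 : lam * η < (√2 * lam - 1) * W) (hM : (1 + σ) * W ≤ √2 * M) (hMN : M ≤ N + η)
    (h : lam * N ≤ d) : False := by
  have s2 : √2 * √2 = 2 := Real.mul_self_sqrt (by norm_num)
  have s0 : 0 < √2 := by positivity
  -- `M ≥ (1 + σ) W / √2`
  have hM' : √2 * ((1 + σ) * W) ≤ 2 * M := by
    have g1 := mul_le_mul_of_nonneg_left hM s0.le
    have g2 : √2 * (√2 * M) = 2 * M := by rw [← mul_assoc, s2]
    linarith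
  have e1 : lam * M ≤ σ * W + lam * η := by
    have := mul_le_mul_of_nonneg_left hMN hl0.le
    linarith
  have e2 : lam * (√2 * ((1 + σ) * W)) ≤ 2 * (σ * W + lam * η) := by
    have := mul_le_mul_of_nonneg_left hM' hl0.le
    linarith
  -- at `σ = 0` and at `σ = 1`
  have f0 : lam * η * 2 < lam * √2 * W := by
    have : √2 * (√2 * η) < √2 * W := mul_lt_mul_of_pos_left hη s0
    have h3 : 2 * η < √2 * W := by nlinarith
    have := mul_lt_mul_of_pos_left h3 hl0
    linarith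
  have f1 : 0 < lam * √2 * W - W - lam * η := by linarith
  have f2 : 0 ≤ (1 - σ) * (lam * √2 * W - lam * η * 2) :=
    mul_nonneg (by linarith) (by linarith)
  have f3 : 0 ≤ σ * (2 * (lam * √2 * W - W - lam * η)) := mul_nonneg h0 (by linarith)
  have key : (1 - σ) * (lam * √2 * W - lam * η * 2) + σ * (2 * (lam * √2 * W - W - lam * η)) ≤ 0 := by
    nlinarith
  rcases eq_or_lt_of_le h0 with h5 | h5
  · rw [← h5] at key; nlinarith
  · have : 0 < σ * (2 * (lam * √2 * W - W - lam * η)) := mul_pos h5 (by linarith)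
    linarith

/-- a path from near `P` avoids the sides through the fourth vertex -/
theorem carr_sides2 {C : Set ℂ} {lam η : ℝ} (hl0 : 0 < lam) (hl : 1 < √2 * lam) {P Q V z : ℂ}
    (hQ : Q ∈ C) (hV : V ∈ C) (hPQ : Q ≠ P) (hVe : V = P + I * (Q - P))
    (hη : √2 * η < ‖Q - P‖) (hη2 : lam * η < (√2 * lam - 1) * ‖Q - P‖) (hz : ‖z - P‖ ≤ η) {ζ : ℂ}
    (h : lam * ‖ζ - z‖ ≤ infDist ζ C) :
    ζ ∉ segment ℝ V (Q + I * (Q - P)) ∧ ζ ∉ segment ℝ (Q + I * (Q - P)) Q := by
  have hW : 0 < ‖Q - P‖ := norm_pos_iff.2 (sub_ne_zero.2 hPQ)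
  have tri : ‖ζ - P‖ ≤ ‖ζ - z‖ + η := by
    have := norm_add_le (ζ - z) (z - P)
    rw [sub_add_sub_cancel] at this
    linarith
  have low : ∀ (a b : ℝ) (u : ℂ), ‖u‖ = 1 → (a + b) * ‖Q - P‖ ≤
      √2 * ‖((a : ℂ) + b * I) * (u * (Q - P))‖ := by
    intro a b u hu
    rw [norm_mul, norm_mul, hu, one_mul]
    have := re_add_im_le ((a : ℂ) + b * I)
    simp only [add_re, ofReal_re, mul_re, I_re, mul_zero, ofReal_im, I_im, mul_one, sub_self,
      add_zero, add_im, mul_im, zero_add] at this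
    have h2 := mul_le_mul_of_nonneg_right this hW.le
    linarith
  constructor
  · rw [segment_eq_image']
    rintro ⟨σ, ⟨h0, h1⟩, rfl⟩
    simp only [real_smul] at h tri
    have hVP : V - P = I * (Q - P) := by rw [hVe]; ring
    refine side_avoid2 hl0 hl hW h0 h1 ?_ hη hη2 ?_ tri h
    · refine (infDist_le_dist_of_mem hV).trans ?_
      rw [dist_eq_norm, show V + (σ : ℂ) * (Q + I * (Q - P) - V) - V = σ * (Q - P) by
        rw [hVe]; ring, norm_mul, norm_real, Real.norm_of_nonneg h0]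
    · have := low 1 σ (-I * I) (by simp)
      have h3 := low σ 1 1 (by simp)
      refine le_of_eq_of_le (by ring) (h3.trans (le_of_eq ?_))
      congr 2
      rw [hVe]; push_cast; ring
  · rw [segment_symm, segment_eq_image']
    rintro ⟨σ, ⟨h0, h1⟩, rfl⟩
    simp only [real_smul] at h tri
    refine side_avoid2 hl0 hl hW h0 h1 ?_ hη hη2 ?_ tri h
    · refine (infDist_le_dist_of_mem hQ).trans ?_
      rw [dist_eq_norm, show Q + (σ : ℂ) * (Q + I * (Q - P) - Q) - Q = σ * (I * (Q - P)) by ring,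
        norm_mul, norm_mul, norm_I, one_mul, norm_real, Real.norm_of_nonneg h0]
    · have h3 := low 1 σ 1 (by simp)
      refine h3.trans (le_of_eq ?_)
      congr 2
      push_cast; ring

/-- points of the segment from `P` to `z` are not on the sides through the fourth vertex -/
theorem near_sides {η : ℝ} {P Q V : ℂ} (hPQ : Q ≠ P) (hVe : V = P + I * (Q - P))
    (hη : √2 * η < ‖Q - P‖) {ζ : ℂ} (h : ‖ζ - P‖ ≤ η) :
    ζ ∉ segment ℝ V (Q + I * (Q - P)) ∧ ζ ∉ segment ℝ (Q + I * (Q - P)) Q := by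
  have hW : 0 < ‖Q - P‖ := norm_pos_iff.2 (sub_ne_zero.2 hPQ)
  have s1 : 1 < √2 := by
    rw [Real.lt_sqrt (by norm_num)]; norm_num
  have hη' : η < ‖Q - P‖ := by
    rcases le_or_gt η 0 with g | g
    · linarith
    · nlinarith
  have low : ∀ (a b : ℝ), 1 ≤ a ^ 2 + b ^ 2 → ‖Q - P‖ ≤ ‖((a : ℂ) + b * I) * (Q - P)‖ := by
    intro a b hab
    refine (le_abs_self _).trans (abs_le_of_sq_le_sq ?_ (norm_nonneg _))
    rw [norm_sq_lin]
    have := mul_le_mul_of_nonneg_right hab (sq_nonneg ‖Q - P‖)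
    linarith
  constructor
  · rw [segment_eq_image']
    rintro ⟨σ, ⟨h0, h1⟩, rfl⟩
    simp only [real_smul] at h
    have := low σ 1 (by nlinarith)
    rw [show V + (σ : ℂ) * (Q + I * (Q - P) - V) - P = ((σ : ℂ) + (1 : ℝ) * I) * (Q - P) by
      rw [hVe]; push_cast; ring] at h
    linarith
  · rw [segment_symm, segment_eq_image']
    rintro ⟨σ, ⟨h0, h1⟩, rfl⟩
    simp only [real_smul] at h
    have := low 1 σ (by nlinarith)
    rw [show Q + (σ : ℂ) * (Q + I * (Q - P) - Q) - P = (((1 : ℝ) : ℂ) + σ * I) * (Q - P) by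
      push_cast; ring] at h
    linarith

/-- the first label at the short end -/
theorem carr_l1 (L : Loop c) (J : Inj c) (D : Dirn c θ)
    (hB : ∀ x, ∀ η > 0, ∀ z0, 0 < F z0 → ∃ z, 0 < F z ∧ ‖z - c x‖ < η)
    (hF0 : ∀ z ∈ range c, ¬ 0 < F z) {lam t : ℝ}
    (hl : 1 / √2 < lam) (h : Carr (range c) F lam (c t)) :
    ∃ ε > 0, ∀ δ > 0, ∀ a, ∀ q ∈ Mm c δ a, |q.1 - t| < ε → |q.1 + q.2.1 - t| < ε →
      0 < F (E4 c q) → l1 θ q = Real.pi / 2 := by
  obtain ⟨r, hr, h⟩ := h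
  obtain ⟨ε, hε, hc⟩ := Metric.continuous_iff.1 L.cont t (r / 4) (by positivity)
  refine ⟨ε, hε, fun δ hδ a q hq g1 g2 g3 => ?_⟩
  have hπ := Real.pi_pos
  have cc := L.cont
  have st := Mm_strict J hδ hq
  have hc' : ∀ τ, |τ - t| < ε → ‖c τ - c t‖ < r / 4 := fun τ hτ => by
    rw [← dist_eq_norm]; exact hc τ (by rw [Real.dist_eq]; exact hτ)
  obtain ⟨x, s, u⟩ := q
  simp only at st g1 g2
  obtain ⟨y, hy⟩ : ∃ y, y = x + s := ⟨_, rfl⟩
  have hV : c u = c x + I * (c y - c x) := by rw [hy]; exact hq.2.2.2.2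
  have hEe : E4 c (x, s, u) = c y + I * (c y - c x) := by rw [hy]; rfl
  rw [hEe] at g3
  rw [← hy] at st g2
  have hP := hc' _ g1
  have hQ := hc' _ g2
  have s2 : √2 * √2 = 2 := Real.mul_self_sqrt (by norm_num)
  have s0 : 0 < √2 := by positivity
  have hl0 : 0 < lam := lt_trans (by positivity) hl
  have hl1 : 1 < √2 * lam := by
    rw [div_lt_iff₀ s0] at hl; linarith
  have hne : c y ≠ c x := (J _ _ (by linarith) st.2.2).symm
  obtain ⟨W, hW⟩ : ∃ W, W = ‖c y - c x‖ := ⟨_, rfl⟩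
  have W0 : 0 < W := by rw [hW]; exact norm_pos_iff.2 (sub_ne_zero.2 hne)
  -- the distance from `P` to the arc from `V` to `Q`
  obtain ⟨d1, hd1, hd1'⟩ : ∃ d1 > 0, ∀ τ ∈ Icc u y, d1 ≤ ‖c τ - c x‖ := by
    obtain ⟨τ0, hτ0, hmin⟩ := isCompact_Icc.exists_isMinOn (s := Icc u y) ⟨u, le_rfl, st.2.1.le⟩
      (f := fun τ => ‖c τ - c x‖) (by fun_prop)
    refine ⟨‖c τ0 - c x‖, norm_pos_iff.2 (sub_ne_zero.2 ?_), fun τ hτ => hmin hτ⟩
    exact (J x τ0 (by linarith [hτ0.1]) (by linarith [hτ0.2])).symm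
  obtain ⟨η, hη0, e1, e2, e3, e4⟩ : ∃ η > 0, η < d1 ∧ √2 * η < W ∧ lam * η < (√2 * lam - 1) * W ∧
      η < r / 2 := by
    have k1 : 0 < (√2 * lam - 1) * W := mul_pos (by linarith) W0
    obtain ⟨η, hη⟩ : ∃ η, η = min (min (d1 / 2) (W / (2 * √2)))
        (min ((√2 * lam - 1) * W / (2 * lam)) (r / 4)) := ⟨_, rfl⟩
    have j1 : η ≤ d1 / 2 := by rw [hη]; exact (min_le_left _ _).trans (min_le_left _ _)
    have j2 : η ≤ W / (2 * √2) := by rw [hη]; exact (min_le_left _ _).trans (min_le_right _ _)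
    have j3 : η ≤ (√2 * lam - 1) * W / (2 * lam) := by
      rw [hη]; exact (min_le_right _ _).trans (min_le_left _ _)
    have j4 : η ≤ r / 4 := by rw [hη]; exact (min_le_right _ _).trans (min_le_right _ _)
    refine ⟨η, by rw [hη]; positivity, by linarith, ?_, ?_, by linarith⟩
    · rw [le_div_iff₀ (by positivity)] at j2; nlinarith
    · rw [le_div_iff₀ (by positivity)] at j3; nlinarith
  obtain ⟨z, hz, hzη⟩ := hB x η hη0 _ g3
  have hzr : ‖z - c t‖ < r := by
    have := norm_add_le (z - c x) (c x - c t)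
    rw [sub_add_sub_cancel] at this
    linarith
  have hzC : z ∉ range c := fun h0 => hF0 z h0 hz
  obtain ⟨γ, hγ, γ0, γ1, γd⟩ := h z hz hzr
  obtain ⟨g, hg⟩ : ∃ g : ℝ → ℂ, g = fun σ => c x + ((max 0 (min (2 * σ) 1) : ℝ) : ℂ) * (z - c x) +
    (γ (max 0 (2 * σ - 1)) - z) := ⟨_, rfl⟩
  have cg : Continuous g := by rw [hg]; fun_prop
  have gL : ∀ σ ∈ Icc (0:ℝ) (1 / 2), ‖g σ - c x‖ ≤ ‖z - c x‖ := by
    intro σ hσ
    rw [hg]
    simp only
    rw [max_eq_left (show 2 * σ - 1 ≤ 0 by linarith [hσ.2]), γ0, sub_self, add_zero,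
      add_sub_cancel_left, norm_mul, norm_real, Real.norm_of_nonneg (le_max_left _ _)]
    exact mul_le_of_le_one_left (norm_nonneg _) (max_le zero_le_one (min_le_right _ _))
  have gR : ∀ σ ∈ Icc (1 / 2 : ℝ) 1, g σ = γ (2 * σ - 1) := by
    intro σ hσ
    rw [hg]
    simp only
    rw [min_eq_right (show (1:ℝ) ≤ 2 * σ by linarith [hσ.1]), max_eq_right zero_le_one,
      max_eq_right (show 0 ≤ 2 * σ - 1 by linarith [hσ.1])]
    push_cast; ring
  have g0 : g 0 = c x := by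
    rw [hg]
    simp only
    rw [mul_zero, min_eq_left zero_le_one, max_eq_left le_rfl, max_eq_left (by norm_num), γ0]
    push_cast; ring
  have g1' : g 1 = γ 1 := by rw [gR 1 ⟨by norm_num, le_rfl⟩]; norm_num
  have hmem : ∀ σ ∈ Icc (1 / 2 : ℝ) 1, 2 * σ - 1 ∈ Icc (0:ℝ) 1 := fun σ hσ =>
    ⟨by linarith [hσ.1], by linarith [hσ.2]⟩
  rw [hW] at e2 e3
  have hb : ∀ τ ∈ Icc u y, c τ ∈ ball (c t) r := fun τ hτ => by
    rw [mem_ball, dist_eq_norm]
    have := hc' τ (by
      rw [abs_lt] at g1 g2 ⊢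
      exact ⟨by linarith [hτ.1], by linarith [hτ.2]⟩)
    linarith
  have key := unwind cc (a := u) (b := y) st.2.1.le cg (m := c y + I * (c y - c x)) (p := c t)
    (r := r) (fun σ hσ τ hτ h0 => by
      rcases le_total σ (1 / 2) with i | i
      · have i1 := gL σ ⟨hσ.1, i⟩
        have i2 := hd1' τ hτ
        rw [h0] at i2
        linarith
      · have i1 := carr_curve hl0 hzC (γd _ (hmem σ ⟨i, hσ.2⟩))
        rw [← gR σ ⟨i, hσ.2⟩, ← h0] at i1
        exact i1 (mem_range_self τ))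
    (fun σ hσ => by
      rcases le_total σ (1 / 2) with i | i
      · exact (near_sides hne hV e2 ((gL σ ⟨hσ.1, i⟩).trans hzη.le)).1
      · rw [gR σ ⟨i, hσ.2⟩]
        exact (carr_sides2 hl0 hl1 (mem_range_self y) (mem_range_self u) hne hV e2 e3 hzη.le
          (γd _ (hmem σ ⟨i, hσ.2⟩))).1)
    (fun σ hσ => by
      rcases le_total σ (1 / 2) with i | i
      · exact (near_sides hne hV e2 ((gL σ ⟨hσ.1, i⟩).trans hzη.le)).2
      · rw [gR σ ⟨i, hσ.2⟩]
        exact (carr_sides2 hl0 hl1 (mem_range_self y) (mem_range_self u) hne hV e2 e3 hzη.le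
          (γd _ (hmem σ ⟨i, hσ.2⟩))).2) hb
    (by rw [mem_ball, dist_eq_norm]; exact carr_size hP hQ)
    (by rw [mem_ball, dist_eq_norm, g1', not_lt]; exact γ1)
    (k := fun τ => (Real.log ‖c τ - c x‖ : ℂ) + θ x τ * I) (by
      have hpos : ∀ τ ∈ Icc u y, ‖c τ - c x‖ ≠ 0 := fun τ hτ => by linarith [hd1' τ hτ]
      have hθ : ContinuousOn (fun τ => θ x τ) (Icc u y) :=
        D.contR fun τ hτ => ⟨by linarith [hτ.1], by linarith [hτ.2]⟩
      refine ContinuousOn.add ?_ ?_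
      · refine continuous_ofReal.comp_continuousOn ?_
        exact ContinuousOn.log (by fun_prop) hpos
      · exact (continuous_ofReal.comp_continuousOn hθ).mul continuousOn_const)
    (fun τ hτ => by
      obtain ⟨ρ, hρ, e⟩ := D.ex x τ (by linarith [hτ.1]) (by linarith [hτ.2])
      rw [g0, exp_add, ← ofReal_exp, Real.exp_log (by linarith [hd1' τ hτ])]
      have : ‖c τ - c x‖ = ρ := by
        rw [e, norm_mul, norm_exp_ofReal_mul_I, mul_one, norm_real, Real.norm_of_nonneg hρ.le]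
      rw [this, e])
  have hw0 : c y - c x ≠ 0 := sub_ne_zero.2 hne
  have q1 : (c y + I * (c y - c x) - g 0) / (c u - g 0) = 1 - I := by
    have hI := I_ne_zero
    rw [g0, hV, show c x + I * (c y - c x) - c x = I * (c y - c x) by ring,
      show c y + I * (c y - c x) - c x = (1 + I) * (c y - c x) by ring, mul_div_mul_right _ _ hw0,
      div_eq_iff hI]
    linear_combination I_sq
  have q2 : (c y - g 0) / (c y + I * (c y - c x) - g 0) = (1 - I) / 2 := by
    have h1I : (1 : ℂ) + I ≠ 0 := by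
      intro h0
      have := congrArg Complex.re h0
      simp at this
    rw [g0, show c y + I * (c y - c x) - c x = (1 + I) * (c y - c x) by ring,
      show c y - c x = 1 * (c y - c x) by ring, ← mul_assoc, mul_one, mul_div_mul_right _ _ hw0,
      div_eq_div_iff h1I (by norm_num)]
    linear_combination I_sq
  rw [q1, q2] at key
  have key' := congrArg Complex.im key
  simp only [sub_im, add_im, ofReal_im, zero_add, mul_im, ofReal_re, I_im, mul_one, I_re, mul_zero,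
    add_zero] at key'
  have a1 := abs_lt.1 (abs_arg_lt_pi_div_two_iff.2 (Or.inl (show 0 < (1 - I).re by simp)))
  have a2 := abs_lt.1 (abs_arg_lt_pi_div_two_iff.2 (Or.inl (show 0 < ((1 - I) / 2).re by
    rw [show ((1 : ℂ) - I) / 2 = ((1 / 2 : ℝ) : ℂ) * (1 - I) by push_cast; ring, re_ofReal_mul]
    simp)))
  rw [log_im, log_im] at key'
  obtain ⟨j, hj⟩ := l1_val D J hδ hq
  have f1 : l1 θ (x, s, u) = θ x u - θ x y := by rw [hy]; rfl
  have z1 : j = 0 := by
    refine int_zero_of (x := l1 θ (x, s, u) - Real.pi / 2) (by linarith) ?_ ?_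
    · rw [f1]; linarith [a1.1, a1.2, a2.1, a2.2]
    · rw [f1]; linarith [a1.1, a1.2, a2.1, a2.2]
  rw [z1] at hj
  push_cast at hj
  linarith

end Pool.Agent.U347.BT
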