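import Pool.Agent.N335.Hg.Mirr

/-! Jordan curves without tiny inscribed isosceles right triangles whose marked acute vertex is
between the two other vertices, at the points without hourglass.

The short end of the connected families of triangles of `Pool.Agent.Y765.Sq.tri_fam` is enough. -/

set_option autoImplicit false
open Complex Set Topology Metric Filter
open scoped ComplexConjugate

namespace Pool.Agent.U347.BT

open Pool.Agent.H763R2 Pool.Agent.H763R2.An
open Pool.Agent.H763R2.Dm (NoSq)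
open Pool.Agent.Y765.Sq (Ann exists_int exists_rep TriM tri_fam)
open Pool.Agent.N335.Hg (TyA Hourglass hour_thm rev_hour conj_hour mgc_conj)

variable {c : ℝ → ℂ}

/-- families of triangles `P`, `Q`, `V` with `V` between `P` and `Q` and with the property `Rp` -/
def TyS (c : ℝ → ℂ) (Rp : ℂ → ℂ → ℂ → Prop) (δ : ℝ) (T : Set Ann) : Prop :=
  ∀ p ∈ T, δ ≤ p.2 ∧ p.2 ≤ 1 - δ ∧ ∀ x : ℝ, (x : AddCircle (1 : ℝ)) = p.1 →
    ∃ u, x < u ∧ u < x + p.2 ∧ c u = c x + I * (c (x + p.2) - c x) ∧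
      Rp (c x) (c (x + p.2)) (c u)

theorem TyS.tyA {Rp : ℂ → ℂ → ℂ → Prop} {δ : ℝ} {T : Set Ann} (h : TyS c Rp δ T) :
    TyA c δ T := by
  intro p hp
  obtain ⟨d1, d2, hall⟩ := h p hp
  refine ⟨d1, d2, fun x hx => ?_⟩
  obtain ⟨u, u1, u2, u3, -⟩ := hall x hx
  exact ⟨u, u1, u2, u3⟩

/-- the argument at the short end -/
theorem coreS (L : Loop c) (J : Inj c) {Rp : ℂ → ℂ → ℂ → Prop}
    (H : ∀ t, Hourglass c t ∨ ∃ ε > 0, ∀ x u y : ℝ, x < u → u < y → |x - t| < ε →
      |u - t| < ε → |y - t| < ε → c u = c x + I * (c y - c x) → ¬ Rp (c x) (c y) (c u))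
    (hT : ∀ ε > 0, ∃ δ, 0 < δ ∧ δ < ε ∧ ∃ T : Set Ann, IsPreconnected T ∧ TyS c Rp δ T ∧
      (∃ p ∈ T, p.2 = δ) ∧ ∃ p ∈ T, p.2 = 1 - δ) : False := by
  have hT' : ∀ n : ℕ, ∃ δ, 0 < δ ∧ δ < 1 / ((n : ℝ) + 1) ∧ ∃ T : Set Ann, IsPreconnected T ∧
      TyS c Rp δ T ∧ (∃ p ∈ T, p.2 = δ) ∧ ∃ p ∈ T, p.2 = 1 - δ :=
    fun n => hT _ Nat.one_div_pos_of_nat
  choose δ δ0 δ1 T hTc hTA hTp hTq using hT'
  choose p hp hp' using hTp
  choose q hq hq' using hTq
  have hx : ∀ n, ∃ x ∈ Icc (0:ℝ) 1, (x : AddCircle (1 : ℝ)) = (p n).1 := fun n =>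
    exists_rep (p n).1
  choose x hx hxp using hx
  have hu : ∀ n, ∃ u, x n < u ∧ u < x n + δ n ∧
      c u = c (x n) + I * (c (x n + δ n) - c (x n)) ∧ Rp (c (x n)) (c (x n + δ n)) (c u) := by
    intro n
    obtain ⟨-, -, hall⟩ := hTA n (p n) (hp n)
    have := hall (x n) (hxp n)
    rwa [hp'] at this
  choose u u1 u2 u3 u4 using hu
  obtain ⟨z, hz, φ, hφ, lx⟩ := (isCompact_Icc (a := (0:ℝ)) (b := 1)).tendsto_subseq hx
  have lx : Tendsto (fun n => x (φ n)) atTop (𝓝 z) := lx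
  have lδ : Tendsto (fun n => δ (φ n)) atTop (𝓝 0) := by
    have h0 : Tendsto (fun n : ℕ => 1 / ((n : ℝ) + 1)) atTop (𝓝 0) :=
      tendsto_one_div_add_atTop_nhds_zero_nat
    have h1 : Tendsto δ atTop (𝓝 0) :=
      squeeze_zero (fun n => (δ0 n).le) (fun n => (δ1 n).le) h0
    exact h1.comp hφ.tendsto_atTop
  have lx2 : Tendsto (fun n => x (φ n) + δ (φ n)) atTop (𝓝 z) := by
    have := lx.add lδ
    rwa [add_zero] at this
  rcases H z with hz1 | ⟨ε, hε, hz1⟩
  · obtain ⟨zL, zR, d, z1, z2, hd, hloc⟩ := hour_thm L J hz1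
    have e1 : ∀ᶠ n in atTop, zL < x (φ n) := lx.eventually (lt_mem_nhds z1)
    have e2 : ∀ᶠ n in atTop, x (φ n) + δ (φ n) < zR := lx2.eventually (gt_mem_nhds z2)
    have e3 : ∀ᶠ n in atTop, δ (φ n) < 1 - d := lδ.eventually (gt_mem_nhds (by linarith))
    obtain ⟨n, a1, a2, a3⟩ := (e1.and (e2.and e3)).exists
    have := hloc (δ (φ n)) (T (φ n)) (δ0 _) (hTc _) (hTA _).tyA
      ⟨p (φ n), hp _, x (φ n), hxp _, a1, by rw [hp']; exact a2⟩ (q (φ n)) (hq _)
    rw [hq'] at this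
    linarith
  · have lu : Tendsto (fun n => u (φ n)) atTop (𝓝 z) :=
      tendsto_of_tendsto_of_tendsto_of_le_of_le lx lx2 (fun n => (u1 (φ n)).le)
        (fun n => (u2 (φ n)).le)
    have nb : ∀ {f : ℕ → ℝ}, Tendsto f atTop (𝓝 z) → ∀ᶠ n in atTop, |f n - z| < ε := by
      intro f hf
      have h1 := (hf.sub_const z).abs
      rw [sub_self, abs_zero] at h1
      exact h1.eventually (gt_mem_nhds hε)
    obtain ⟨n, g1, g2, g3⟩ := ((nb lx).and ((nb lx2).and (nb lu))).exists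
    exact hz1 _ _ _ (u1 _) (u2 _) g1 g3 g2 (u3 _) (u4 _)

/-- Near the parameter `t` no isosceles right triangle `P = c x`, `Q = c y`, `V = c u`,
`V = P + κ (Q - P)`, with `V` between `P` and `Q` is completed to a square by a point inside. -/
def NoB (c : ℝ → ℂ) (κ : ℂ) (t : ℝ) : Prop :=
  ∃ ε > 0, ∀ x y u : ℝ, |x - t| < ε → |y - t| < ε → |u - t| < ε →
    (x < u ∧ u < y ∨ y < u ∧ u < x) →
    ¬ (c u = c x + κ * (c y - c x) ∧ 0 < mgc c (c y + κ * (c y - c x)))

theorem square_I (L : Loop c) (J : Inj c) (H : ∀ t, Hourglass c t ∨ NoB c I t) :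
    ∃ z w : ℂ, w ≠ 0 ∧ z ∈ range c ∧ z + w ∈ range c ∧ z + w + I * w ∈ range c ∧
      z + I * w ∈ range c := by
  by_contra nosq
  obtain ⟨Rp, hRp⟩ : ∃ Rp : ℂ → ℂ → ℂ → Prop,
    Rp = fun P Q _ => 0 < mgc c (Q + I * (Q - P)) := ⟨_, rfl⟩
  by_cases hA : ∀ ε > 0, ∃ δ, 0 < δ ∧ δ < ε ∧ ∃ T : Set Ann, IsPreconnected T ∧
      TyS c Rp δ T ∧ (∃ p ∈ T, p.2 = δ) ∧ ∃ p ∈ T, p.2 = 1 - δ
  · refine coreS L J (fun t => (H t).imp id ?_) hA
    rintro ⟨ε, hε, h⟩
    refine ⟨ε, hε, fun x u y h1 h2 h3 h4 h5 h6 h7 => ?_⟩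
    rw [hRp] at h7
    exact h x y u h3 h5 h4 (Or.inl ⟨h1, h2⟩) ⟨h6, h7⟩
  · push Not at hA
    obtain ⟨ε, hε, hA⟩ := hA
    obtain ⟨g, hg⟩ : ∃ g : ℝ → ℂ, g = fun s => c (-s) := ⟨_, rfl⟩
    have Lg' : Loop g := by
      have := L.cont
      refine ⟨by rw [hg]; fun_prop, fun s => ?_⟩
      rw [hg]
      simp only
      rw [← L.per (-(s + 1))]
      congr 1; ring
    have Jg : Inj g := by
      intro x y h1 h2
      rw [hg]
      exact (J (-y) (-x) (by linarith) (by linarith)).symm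
    refine coreS Lg' Jg (Rp := Rp) (fun t => ?_) fun ε' hε' => ?_
    · rcases H (-t) with h | ⟨ε, hε, h⟩
      · have := rev_hour h
        rw [neg_neg] at this
        rw [hg]; exact Or.inl this
      · refine Or.inr ⟨ε, hε, fun x u y h1 h2 h3 h4 h5 h6 h7 => ?_⟩
        rw [hRp, hg] at h7
        rw [hg] at h6
        exact h (-x) (-y) (-u) (by rw [← abs_neg]; convert h3 using 2; ring)
          (by rw [← abs_neg]; convert h5 using 2; ring)
          (by rw [← abs_neg]; convert h4 using 2; ring) (Or.inr ⟨by linarith, by linarith⟩)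
          ⟨h6, h7⟩
    obtain ⟨δ, hδ⟩ : ∃ δ, δ = min (min (ε / 2) (ε' / 2)) (1 / 4) := ⟨_, rfl⟩
    have δ0 : 0 < δ := by rw [hδ]; positivity
    have δ1 : δ < ε := by
      have : δ ≤ ε / 2 := by rw [hδ]; exact (min_le_left _ _).trans (min_le_left _ _)
      linarith
    have δ2 : δ < ε' := by
      have : δ ≤ ε' / 2 := by rw [hδ]; exact (min_le_left _ _).trans (min_le_right _ _)
      linarith
    have δ3 : δ < 1 / 2 := by
      have : δ ≤ 1 / 4 := by rw [hδ]; exact min_le_right _ _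
      linarith
    obtain ⟨T, hT, ⟨p1, hp1, e1⟩, ⟨p2, hp2, e2⟩, hb, hab⟩ :=
      tri_fam L J nosq (κ := I) (Or.inl rfl) (σ := 1) (Or.inl rfl) δ0 δ3
    rcases hab with hab | hab
    · exfalso
      exact hA δ δ0 δ1 T hT.isPreconnected (fun p hp => ⟨(hb p hp).1, (hb p hp).2, fun x hx => by
        obtain ⟨u, a1, a2, a3, a4⟩ := hab p hp x hx
        refine ⟨u, a1, a2, a3, ?_⟩
        rw [hRp]
        rwa [one_mul] at a4⟩) ⟨p1, hp1, e1⟩ p2 hp2 e2
    · have ch : Continuous fun p : Ann => ((-p.1, 1 - p.2) : Ann) :=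
        continuous_fst.neg.prodMk (continuous_const.sub continuous_snd)
      refine ⟨δ, δ0, δ2, (fun p : Ann => ((-p.1, 1 - p.2) : Ann)) '' T,
        (hT.image _ ch.continuousOn).isPreconnected, ?_, ⟨_, ⟨p2, hp2, rfl⟩, ?_⟩,
        ⟨_, ⟨p1, hp1, rfl⟩, ?_⟩⟩
      · rintro _ ⟨p, hp, rfl⟩
        refine ⟨by show δ ≤ 1 - p.2; linarith [(hb p hp).2],
          by show 1 - p.2 ≤ 1 - δ; linarith [(hb p hp).1], fun x hx => ?_⟩
        have hx' : ((-x : ℝ) : AddCircle (1 : ℝ)) = p.1 := by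
          rw [AddCircle.coe_neg, hx]
          show - -p.1 = p.1
          rw [neg_neg]
        obtain ⟨u, a1, a2, a3, a4⟩ := hab p hp (-x) hx'
        rw [one_mul] at a4
        have g1 : c (-(1 - u)) = c u := by
          rw [← L.per (-(1 - u))]; congr 1; ring
        have g3 : c (-(x + (1 - p.2))) = c (-x + p.2) := by
          rw [← L.per (-(x + (1 - p.2)))]; congr 1; ring
        refine ⟨1 - u, by linarith, by show 1 - u < x + (1 - p.2); linarith, ?_, ?_⟩
        · rw [hg]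
          show c (-(1 - u)) = c (-x) + I * (c (-(x + (1 - p.2))) - c (-x))
          rw [g1, g3]
          exact a3
        · rw [hg, hRp]
          show 0 < mgc c (c (-(x + (1 - p.2))) + I * (c (-(x + (1 - p.2))) - c (-x)))
          rw [g3]
          exact a4
      · show 1 - p2.2 = δ
        rw [e2]; ring
      · show 1 - p1.2 = 1 - δ
        rw [e1]

/-- **The local theorem**, both orientations. -/
theorem square_loc (L : Loop c) (J : Inj c) {κ : ℂ} (hκ : κ = I ∨ κ = -I)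
    (H : ∀ t, Hourglass c t ∨ NoB c κ t) :
    ∃ z w : ℂ, w ≠ 0 ∧ z ∈ range c ∧ z + w ∈ range c ∧ z + w + I * w ∈ range c ∧
      z + I * w ∈ range c := by
  rcases hκ with rfl | rfl
  · exact square_I L J H
  obtain ⟨g, hg⟩ : ∃ g : ℝ → ℂ, g = fun s => conj (c (-s)) := ⟨_, rfl⟩
  have Lg : Loop g := by
    have := L.cont
    refine ⟨by rw [hg]; exact continuous_conj.comp (this.comp continuous_neg), fun s => ?_⟩
    rw [hg]
    simp only
    rw [← L.per (-(s + 1))]
    congr 2; ring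
  have Jg : Inj g := by
    intro x y h1 h2 h
    rw [hg] at h
    have h' := (starRingEnd ℂ).injective h
    exact (J (-y) (-x) (by linarith) (by linarith)).symm h'
  have hmem : ∀ z, z ∈ range g → conj z ∈ range c := by
    rintro _ ⟨s, rfl⟩
    rw [hg]
    exact ⟨-s, by simp⟩
  have key : ∀ t, Hourglass g t ∨ NoB g I t := by
    intro t
    rcases H (-t) with h | ⟨ε, hε, h⟩
    · have := conj_hour h
      rw [neg_neg] at this
      rw [hg]
      exact Or.inl this
    · refine Or.inr ⟨ε, hε, fun x y u h1 h2 h3 h4 hR => ?_⟩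
      refine h (-x) (-y) (-u) (by rw [← abs_neg]; convert h1 using 2; ring)
          (by rw [← abs_neg]; convert h2 using 2; ring)
          (by rw [← abs_neg]; convert h3 using 2; ring)
          (h4.symm.imp (fun h => ⟨by linarith [h.1, h.2], by linarith [h.1, h.2]⟩)
            fun h => ⟨by linarith [h.1, h.2], by linarith [h.1, h.2]⟩) ?_
      obtain ⟨e1, e2⟩ := hR
      rw [hg] at e1 e2
      simp only at e1 e2
      constructor
      · have := congrArg conj e1
        simp only [map_add, map_mul, map_sub, conj_conj, conj_I] at this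
        exact this
      · rw [mgc_conj L] at e2
        simp only [map_add, map_mul, map_sub, conj_conj, conj_I] at e2
        exact e2
  obtain ⟨z, w, hw, m1, m2, m3, m4⟩ := square_I Lg Jg key
  refine ⟨conj (z + I * w), conj w, by rw [ne_eq, map_eq_zero]; exact hw, hmem _ m4, ?_, ?_, ?_⟩
  · have := hmem _ m3
    convert this using 1
    simp only [map_add, map_mul, conj_I]
    ring
  · have := hmem _ m2
    convert this using 1
    simp only [map_add, map_mul, conj_I]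
    ring
  · have := hmem _ m1
    convert this using 1
    simp only [map_add, map_mul, conj_I]
    ring

end Pool.Agent.U347.BT
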