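import Mathlib

/-! Isosceles right triangles with vertices near the two sides of an angle of more than 45
degrees. -/

set_option autoImplicit false
open Complex
open scoped ComplexConjugate

namespace Pool.Agent.U347.BT

theorem norm_kap {κ : ℂ} (hκ : κ = I ∨ κ = -I) : ‖κ‖ = 1 := by
  rcases hκ with rfl | rfl <;> simp

theorem kap_sq {κ : ℂ} (hκ : κ = I ∨ κ = -I) : κ * κ = -1 := by
  rcases hκ with rfl | rfl <;> simp

theorem norm_kap_sub {κ : ℂ} (hκ : κ = I ∨ κ = -I) : ‖κ - 1‖ = √2 := by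
  have h : ‖κ - 1‖ ^ 2 = 2 := by
    rw [← Complex.normSq_eq_norm_sq, Complex.normSq_apply]
    rcases hκ with rfl | rfl <;> simp <;> norm_num
  rw [← h, Real.sqrt_sq (norm_nonneg _)]

theorem norm_add_kap {κ : ℂ} (hκ : κ = I ∨ κ = -I) (x y : ℝ) :
    ‖(x : ℂ) + κ * y‖ ^ 2 = x ^ 2 + y ^ 2 := by
  rw [← Complex.normSq_eq_norm_sq, Complex.normSq_apply]
  rcases hκ with rfl | rfl <;> simp <;> ring

theorem re_add_kap {κ : ℂ} (hκ : κ = I ∨ κ = -I) (x y : ℝ) :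
    ((x : ℂ) + κ * y).re = x := by
  rcases hκ with rfl | rfl <;> simp

theorem s2a : (1.414 : ℝ) < √2 := by
  rw [show (1.414 : ℝ) = √(1.414 ^ 2) by rw [Real.sqrt_sq (by norm_num)]]
  exact Real.sqrt_lt_sqrt (by norm_num) (by norm_num)

theorem s2b : √2 < (1.415 : ℝ) := by
  rw [show (1.415 : ℝ) = √(1.415 ^ 2) by rw [Real.sqrt_sq (by norm_num)]]
  exact Real.sqrt_lt_sqrt (by norm_num) (by norm_num)

theorem le_of_sq_two {x y : ℝ} (hy : 0 ≤ y) (h : x ^ 2 ≤ 2 * y ^ 2) : x ≤ √2 * y := by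
  have h2 : (√2 * y) ^ 2 = 2 * y ^ 2 := by rw [mul_pow, Real.sq_sqrt (by norm_num)]
  exact le_of_sq_le_sq (by rw [h2]; exact h) (by positivity)
where
  le_of_sq_le_sq {x y : ℝ} (h : x ^ 2 ≤ y ^ 2) (hy : 0 ≤ y) : x ≤ y := by
    by_contra hc
    push Not at hc
    nlinarith

/-- `V` on the side of `P` -/
theorem corner_i {a b p q v κ : ℂ} {η : ℝ} (ha : ‖a‖ = 1) (hb : ‖b‖ = 1)
    (hκ : κ = I ∨ κ = -I) (hη0 : 0 ≤ η) (hη : η ≤ 1 / 40)
    (hp : ‖p - ‖p‖ * a‖ ≤ η * ‖p‖) (hq : ‖q - ‖q‖ * b‖ ≤ η * ‖q‖)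
    (hv : ‖v - ‖v‖ * a‖ ≤ η * ‖v‖) (hvp : ‖v‖ ≤ 2 * ‖p‖) (hp0 : p ≠ 0)
    (h : v - p = κ * (q - p)) : √2 / 2 - 20 * η ≤ (a * conj b).re := by
  obtain ⟨m, hm⟩ : ∃ m, m = ‖p‖ := ⟨_, rfl⟩
  obtain ⟨d, hd⟩ : ∃ d, d = ‖q‖ := ⟨_, rfl⟩
  obtain ⟨r, hr⟩ : ∃ r, r = ‖v‖ := ⟨_, rfl⟩
  have m0 : 0 < m := by rw [hm]; exact norm_pos_iff.2 hp0
  have d0 : 0 ≤ d := by rw [hd]; exact norm_nonneg _
  have r0 : 0 ≤ r := by rw [hr]; exact norm_nonneg _
  rw [← hm] at hp hvp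
  rw [← hd] at hq
  rw [← hr] at hv hvp
  have kn := norm_kap hκ
  have kk := kap_sq hκ
  obtain ⟨w, hw⟩ : ∃ w, w = a * conj b := ⟨_, rfl⟩
  have hw1 : ‖w‖ = 1 := by rw [hw, norm_mul, ha, Complex.norm_conj, hb, one_mul]
  have hbb : b * conj b = 1 := by
    rw [Complex.mul_conj, Complex.normSq_eq_norm_sq, hb]; norm_num
  obtain ⟨Z, hZ⟩ : ∃ Z : ℂ, Z = (m : ℂ) + κ * ((m - r : ℝ) : ℂ) := ⟨_, rfl⟩
  obtain ⟨e1, he1⟩ : ∃ e : ℂ, e = v - r * a := ⟨_, rfl⟩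
  obtain ⟨e2, he2⟩ : ∃ e : ℂ, e = p - m * a := ⟨_, rfl⟩
  obtain ⟨e3, he3⟩ : ∃ e : ℂ, e = q - d * b := ⟨_, rfl⟩
  rw [← he1] at hv
  rw [← he2] at hp
  rw [← he3] at hq
  obtain ⟨E, hE⟩ : ∃ E : ℂ, E = (e2 - κ * (e1 - e2) - e3) * conj b := ⟨_, rfl⟩
  have key : (d : ℂ) = Z * w + E := by
    have h1 : (d : ℂ) * b = Z * a + (e2 - κ * (e1 - e2) - e3) := by
      have hqq : q - p = -κ * (v - p) := by
        rw [h]; linear_combination (q - p) * kk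
      have h2 : (d : ℂ) * b = q - e3 := by rw [he3]; ring
      rw [h2, hZ, he1, he2]
      push_cast
      linear_combination hqq
    calc (d : ℂ) = (d : ℂ) * b * conj b := by rw [mul_assoc, hbb, mul_one]
      _ = _ := by rw [h1, hE, hw]; ring
  have hEn : ‖E‖ ≤ η * (4 * m + d) := by
    rw [hE, norm_mul, Complex.norm_conj, hb, mul_one]
    calc ‖e2 - κ * (e1 - e2) - e3‖ ≤ ‖e2‖ + (‖e1‖ + ‖e2‖) + ‖e3‖ := by
          refine (norm_sub_le _ _).trans (add_le_add ((norm_sub_le _ _).trans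
            (add_le_add le_rfl ?_)) le_rfl)
          rw [norm_mul, kn, one_mul]
          exact norm_sub_le _ _
      _ ≤ η * (4 * m + d) := by nlinarith
  have hZ2 : ‖Z‖ ^ 2 = m ^ 2 + (m - r) ^ 2 := by rw [hZ]; exact norm_add_kap hκ _ _
  have hZre : Z.re = m := by rw [hZ]; exact re_add_kap hκ _ _
  obtain ⟨z, hz⟩ : ∃ z, z = ‖Z‖ := ⟨_, rfl⟩
  obtain ⟨e, he⟩ : ∃ e, e = ‖E‖ := ⟨_, rfl⟩
  rw [← hz] at hZ2
  rw [← he] at hEn
  have z0 : 0 ≤ z := by rw [hz]; exact norm_nonneg _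
  have e0 : 0 ≤ e := by rw [he]; exact norm_nonneg _
  have z1 : m ≤ z := by
    by_contra hc
    push Not at hc
    nlinarith [sq_nonneg (m - r)]
  have z2 : z ≤ √2 * m := by
    refine le_of_sq_two m0.le ?_
    rw [hZ2]
    nlinarith
  have sa := s2a
  have sb := s2b
  have z3 : z ≤ 1.5 * m := z2.trans (by nlinarith)
  have hd1 : d ≤ z + e := by
    have : ‖(d : ℂ)‖ ≤ ‖Z * w‖ + ‖E‖ := by rw [key]; exact norm_add_le _ _
    rw [norm_mul, hw1, mul_one, ← hz, ← he, Complex.norm_real, Real.norm_of_nonneg d0] at this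
    exact this
  have hd2 : z - e ≤ d := by
    have h1 : Z * w = (d : ℂ) - E := by rw [key]; ring
    have : ‖Z * w‖ ≤ ‖(d : ℂ)‖ + ‖E‖ := by rw [h1]; exact norm_sub_le _ _
    rw [norm_mul, hw1, mul_one, ← hz, ← he, Complex.norm_real, Real.norm_of_nonneg d0] at this
    linarith
  have he6 : e ≤ 6 * η * m := by nlinarith
  have hre : d * m - z * e ≤ z ^ 2 * w.re := by
    have h1 : conj Z * (d : ℂ) = ((z ^ 2 : ℝ) : ℂ) * w + conj Z * E := by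
      rw [key, mul_add, ← mul_assoc, mul_comm (conj Z) Z, Complex.mul_conj,
        Complex.normSq_eq_norm_sq, ← hz]
    have h2 := congrArg Complex.re h1
    rw [add_re, re_ofReal_mul, mul_comm (conj Z) (d : ℂ), re_ofReal_mul, conj_re, hZre] at h2
    have h3 : |(conj Z * E).re| ≤ z * e := by
      refine (Complex.abs_re_le_norm _).trans ?_
      rw [norm_mul, Complex.norm_conj, ← hz, ← he]
    have h4 := (abs_le.1 h3).2
    linarith
  rw [← hw]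
  have zpos : 0 < z := lt_of_lt_of_le m0 z1
  have hfin : z ^ 2 * (√2 / 2 - 20 * η) ≤ z ^ 2 * w.re := by
    refine le_trans ?_ hre
    have h1 : z ^ 2 * √2 / 2 ≤ z * m := by
      have : √2 * z ≤ 2 * m := by
        have h5 : √2 * (√2 * m) = 2 * m := by
          rw [← mul_assoc, Real.mul_self_sqrt (by norm_num)]
        nlinarith
      nlinarith
    have h2 : (z - e) * m ≤ d * m := mul_le_mul_of_nonneg_right hd2 m0.le
    have h3 : e * m ≤ 6 * η * z ^ 2 := by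
      have : e * m ≤ 6 * η * m * m := mul_le_mul_of_nonneg_right he6 m0.le
      have h4 : m * m ≤ z ^ 2 := by nlinarith
      have h5 : 6 * η * (m * m) ≤ 6 * η * z ^ 2 := mul_le_mul_of_nonneg_left h4 (by positivity)
      linarith
    have h4 : z * e ≤ 6 * η * z ^ 2 := by
      have h6 : z * e ≤ z * (6 * η * m) := mul_le_mul_of_nonneg_left he6 z0
      have h7 : m * z ≤ z ^ 2 := by nlinarith
      have h5 : 6 * η * (m * z) ≤ 6 * η * z ^ 2 := mul_le_mul_of_nonneg_left h7 (by positivity)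
      linarith
    have h8 : 0 ≤ η * z ^ 2 := by positivity
    linarith
  exact le_of_mul_le_mul_left hfin (by positivity)

/-- `V` on the side of `Q` -/
theorem corner_ii {a b p q v κ : ℂ} {η : ℝ} (ha : ‖a‖ = 1) (hb : ‖b‖ = 1)
    (hκ : κ = I ∨ κ = -I) (hη0 : 0 ≤ η) (hη : η ≤ 1 / 40)
    (hp : ‖p - ‖p‖ * a‖ ≤ η * ‖p‖) (hq : ‖q - ‖q‖ * b‖ ≤ η * ‖q‖)
    (hv : ‖v - ‖v‖ * b‖ ≤ η * ‖v‖) (hp0 : p ≠ 0)
    (h : v - p = κ * (q - p)) : √2 / 2 - 20 * η ≤ (a * conj b).re := by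
  obtain ⟨m, hm⟩ : ∃ m, m = ‖p‖ := ⟨_, rfl⟩
  obtain ⟨d, hd⟩ : ∃ d, d = ‖q‖ := ⟨_, rfl⟩
  obtain ⟨r, hr⟩ : ∃ r, r = ‖v‖ := ⟨_, rfl⟩
  have m0 : 0 < m := by rw [hm]; exact norm_pos_iff.2 hp0
  have d0 : 0 ≤ d := by rw [hd]; exact norm_nonneg _
  have r0 : 0 ≤ r := by rw [hr]; exact norm_nonneg _
  rw [← hm] at hp
  rw [← hd] at hq
  rw [← hr] at hv
  have kn := norm_kap hκ
  have kk := kap_sq hκ
  obtain ⟨w, hw⟩ : ∃ w, w = a * conj b := ⟨_, rfl⟩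
  have hw1 : ‖w‖ = 1 := by rw [hw, norm_mul, ha, Complex.norm_conj, hb, one_mul]
  have hbb : b * conj b = 1 := by
    rw [Complex.mul_conj, Complex.normSq_eq_norm_sq, hb]; norm_num
  obtain ⟨e1, he1⟩ : ∃ e : ℂ, e = v - r * b := ⟨_, rfl⟩
  obtain ⟨e2, he2⟩ : ∃ e : ℂ, e = p - m * a := ⟨_, rfl⟩
  obtain ⟨e3, he3⟩ : ∃ e : ℂ, e = q - d * b := ⟨_, rfl⟩
  rw [← he1] at hv
  rw [← he2] at hp
  rw [← he3] at hq
  obtain ⟨E, hE⟩ : ∃ E : ℂ, E = (e2 - κ * e2 - e1 + κ * e3) * conj b * ((1 + κ) / 2) := ⟨_, rfl⟩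
  obtain ⟨Z, hZ⟩ : ∃ Z : ℂ, Z = (((r + d) / 2 : ℝ) : ℂ) + κ * (((r - d) / 2 : ℝ) : ℂ) := ⟨_, rfl⟩
  have key : (m : ℂ) * w = Z - E := by
    have h1 : ((r : ℂ) - κ * d) * b = (1 - κ) * m * a + (e2 - κ * e2 - e1 + κ * e3) := by
      rw [he1, he2, he3]
      linear_combination h
    have h2 : ((r : ℂ) - κ * d) * b * conj b * ((1 + κ) / 2) = Z := by
      rw [mul_assoc _ b (conj b), hbb, mul_one, hZ]
      push_cast
      linear_combination (-(d : ℂ) / 2) * kk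
    rw [← h2, h1, hE, hw]
    linear_combination ((m : ℂ) * a * conj b / 2) * kk
  have hk2 : ‖(1 + κ) / 2‖ ≤ 1 := by
    rw [norm_div, show ‖(2 : ℂ)‖ = 2 by simp]
    have : ‖1 + κ‖ ≤ 1 + 1 := (norm_add_le _ _).trans (by rw [kn, norm_one])
    linarith
  obtain ⟨e, he⟩ : ∃ e, e = ‖E‖ := ⟨_, rfl⟩
  have hEn : e ≤ η * (2 * m + (r + d)) := by
    rw [he, hE, norm_mul, norm_mul, Complex.norm_conj, hb, mul_one]
    have h1 : ‖e2 - κ * e2 - e1 + κ * e3‖ ≤ ‖e2‖ + ‖e2‖ + ‖e1‖ + ‖e3‖ := by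
      refine (norm_add_le _ _).trans (add_le_add ((norm_sub_le _ _).trans
        (add_le_add ((norm_sub_le _ _).trans (add_le_add le_rfl ?_)) le_rfl)) ?_)
      · rw [norm_mul, kn, one_mul]
      · rw [norm_mul, kn, one_mul]
    have h2 : ‖e2 - κ * e2 - e1 + κ * e3‖ * ‖(1 + κ) / 2‖ ≤ ‖e2 - κ * e2 - e1 + κ * e3‖ :=
      mul_le_of_le_one_right (norm_nonneg _) hk2
    nlinarith
  have e0 : 0 ≤ e := by rw [he]; exact norm_nonneg _
  obtain ⟨S, hS⟩ : ∃ S, S = r + d := ⟨_, rfl⟩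
  rw [← hS] at hEn
  have S0 : 0 ≤ S := by rw [hS]; linarith
  have hZ2 : ‖Z‖ ^ 2 = ((r + d) / 2) ^ 2 + ((r - d) / 2) ^ 2 := by
    rw [hZ]; exact norm_add_kap hκ _ _
  have hZre : Z.re = S / 2 := by rw [hZ, hS]; exact re_add_kap hκ _ _
  have hZn : ‖Z‖ ≤ √2 * (S / 2) := by
    refine le_of_sq_two (by linarith) ?_
    rw [hZ2, hS]
    nlinarith [mul_nonneg r0 d0]
  have sa := s2a
  have sb := s2b
  have hm1 : m ≤ √2 * (S / 2) + e := by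
    have h1 : ‖(m : ℂ) * w‖ ≤ ‖Z‖ + ‖E‖ := by rw [key]; exact norm_sub_le _ _
    rw [norm_mul, hw1, mul_one, Complex.norm_real, Real.norm_of_nonneg m0.le, ← he] at h1
    linarith
  have hmS : m ≤ S := by nlinarith
  have Spos : 0 < S := lt_of_lt_of_le m0 hmS
  have he3' : e ≤ 3 * η * S := by nlinarith
  have hre : S / 2 - e ≤ m * w.re := by
    have h2 := congrArg Complex.re key
    rw [re_ofReal_mul, sub_re, hZre] at h2
    have h3 := (abs_le.1 (Complex.abs_re_le_norm E)).2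
    rw [← he] at h3
    linarith
  rw [← hw]
  have hq2 : 0 ≤ √2 / 2 - 20 * η := by linarith
  have hss : √2 * √2 = 2 := Real.mul_self_sqrt (by norm_num)
  have hfin : m * (√2 / 2 - 20 * η) ≤ m * w.re := by
    refine le_trans ?_ hre
    have h1 : m * (√2 / 2 - 20 * η) ≤ (√2 * (S / 2) + 3 * η * S) * (√2 / 2 - 20 * η) :=
      mul_le_mul_of_nonneg_right (hm1.trans (by linarith)) hq2
    refine h1.trans ?_
    have h2 : (√2 * (S / 2) + 3 * η * S) * (√2 / 2 - 20 * η) =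
        S / 4 * (√2 * √2) - S * η * (10 * √2 - 3 / 2 * √2) - 60 * (η ^ 2 * S) := by ring
    rw [h2, hss]
    have h3 : 0 ≤ η ^ 2 * S := by positivity
    have h4 : 0 ≤ S * η := by positivity
    nlinarith
  exact le_of_mul_le_mul_left hfin m0

end Pool.Agent.U347.BT
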