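import Pool.Agent.U347.BT.Carr2

/-! Points near which the fourth vertex of the square, if it is inside, can be joined inside the
curve with a distant point by a path that does not meet the two sides of the square which it does
not belong to: the labels of small triangles. -/

set_option autoImplicit false
open Complex Set Topology Metric Filter
open scoped ComplexConjugate

namespace Pool.Agent.U347.BT

open Pool.Agent.H763R2 Pool.Agent.H763R2.An
open Pool.Agent.H763R2.Dm (NoSq)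
open Pool.Agent.Y765.Sq (Ann exists_int exists_rep TriM tri_fam)
open Pool.Agent.N335.Hg

variable {c : ℝ → ℂ} {θ : ℝ → ℝ → ℝ} {F : ℂ → ℝ}

/-- Exit condition at the point `p` of the set `C`: for `P, Q, V = P + κ (Q - P)` in `C` near `p`
such that `F` is positive at the fourth vertex of the square there is a path from the fourth vertex
to a point at distance at least `r` from `p` which does not meet `C` and the sides `PQ`, `PV`. -/
def Exit (C : Set ℂ) (F : ℂ → ℝ) (κ p : ℂ) : Prop :=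
  ∃ r > 0, ∃ ρ > 0, ∀ P ∈ C, ∀ Q ∈ C, P ≠ Q → ‖P - p‖ < ρ → ‖Q - p‖ < ρ →
    P + κ * (Q - P) ∈ C → 0 < F (Q + κ * (Q - P)) →
    ∃ γ : ℝ → ℂ, Continuous γ ∧ γ 0 = Q + κ * (Q - P) ∧ r ≤ ‖γ 1 - p‖ ∧
      ∀ s ∈ Icc (0:ℝ) 1, γ s ∉ C ∧ γ s ∉ segment ℝ P Q ∧ γ s ∉ segment ℝ P (P + κ * (Q - P))

theorem exit_of_carr {C : Set ℂ} (hF0 : ∀ z ∈ C, ¬ 0 < F z) {lam : ℝ} {p : ℂ}
    (hl : 1 / √5 < lam) (h : Carr C F lam p) : Exit C F I p := by
  obtain ⟨r, hr, h⟩ := h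
  refine ⟨r, hr, r / 4, by positivity, fun P hP Q hQ hPQ g1 g2 hV hD => ?_⟩
  obtain ⟨γ, hγ, γ0, γ1, γd⟩ := h _ hD (carr_size g1 g2)
  refine ⟨γ, hγ, γ0, γ1, fun s hs => ⟨?_, ?_⟩⟩
  · exact carr_curve (lam_pos hl).1 (fun h0 => hF0 _ h0 hD) (γd s hs)
  · exact carr_sides hl hP hQ hV hPQ.symm rfl (γd s hs)

/-- the labels at the short end -/
theorem exit_short (L : Loop c) (J : Inj c) (nosq : NoSq (range c)) {t : ℝ}
    (h : Exit (range c) F I (c t)) :
    ∃ ε > 0, ∀ δ > 0, ∀ a, ∀ q ∈ Mm c δ a, |q.1 - t| < ε → |q.1 + q.2.1 - t| < ε →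
      0 < F (E4 c q) → m1 c q = -(Real.pi / 4) ∧ m2 c q = Real.pi / 2 := by
  obtain ⟨r, hr, ρ, hρ, h⟩ := h
  obtain ⟨ε, hε, hc⟩ := Metric.continuous_iff.1 L.cont t (min r ρ) (by positivity)
  refine ⟨ε, hε, fun δ hδ a q hq g1 g2 g3 => ?_⟩
  have hπ := Real.pi_pos
  have st := Mm_strict J hδ hq
  have hE := E4_notMem J nosq hδ hq
  have hc' : ∀ τ, |τ - t| < ε → ‖c τ - c t‖ < min r ρ := fun τ hτ => by
    rw [← dist_eq_norm]; exact hc τ (by rw [Real.dist_eq]; exact hτ)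
  have hne : c q.1 ≠ c (q.1 + q.2.1) := J _ _ (by linarith) st.2.2
  have hV : c q.1 + I * (c (q.1 + q.2.1) - c q.1) = c q.2.2 := hq.2.2.2.2.symm
  obtain ⟨γ, hγ, γ0, γ1, γS⟩ := h _ (mem_range_self q.1) _ (mem_range_self (q.1 + q.2.1)) hne
    (lt_of_lt_of_le (hc' _ g1) (min_le_right _ _)) (lt_of_lt_of_le (hc' _ g2) (min_le_right _ _))
    (by rw [hV]; exact mem_range_self _) g3
  rw [hV] at γS
  have hb : ∀ τ ∈ Icc q.1 (q.1 + q.2.1), c τ ∈ ball (c t) r := fun τ hτ => by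
    rw [mem_ball, dist_eq_norm]
    exact lt_of_lt_of_le (hc' τ (by
      rw [abs_lt] at g1 g2 ⊢
      exact ⟨by linarith [hτ.1], by linarith [hτ.2]⟩)) (min_le_left _ _)
  have k1 := carr_phi L hE hγ γ0 γ1 (fun s hs => (γS s hs).1) (mem_range_self q.1) (a := q.1)
    (b := q.2.2) st.1.le (fun τ hτ => hb τ ⟨hτ.1, by linarith [hτ.2, st.2.1]⟩)
    (Or.inl ⟨rfl, fun s hs => (γS s hs).2.2⟩)
  have k2 := carr_phi L hE hγ γ0 γ1 (fun s hs => (γS s hs).1) (mem_range_self q.1) (a := q.1)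
    (b := q.1 + q.2.1) (by linarith) hb (Or.inl ⟨rfl, fun s hs => (γS s hs).2.1⟩)
  have k3 := Phi_add L hE q.1 q.2.2 (q.1 + q.2.1)
  obtain ⟨j1, h1⟩ := m1_val L J nosq hδ hq
  obtain ⟨j2, h2⟩ := m2_val L J nosq hδ hq
  have f1 : m1 c q = Phi c (E4 c q) q.1 q.2.2 := rfl
  have f2 : m2 c q = Phi c (E4 c q) q.2.2 (q.1 + q.2.1) := rfl
  have z1 : j1 = 0 := by
    refine int_zero_of (x := m1 c q + Real.pi / 4) (by linarith) ?_ ?_
    · rw [f1]; linarith [k1.1]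
    · rw [f1]; linarith [k1.2]
  rw [z1] at h1
  push_cast at h1
  have z2 : j2 = 0 := by
    refine int_zero_of (x := m2 c q - Real.pi / 2) (by linarith) ?_ ?_
    · linarith [k2.1]
    · linarith [k2.2]
  rw [z2] at h2
  push_cast at h2
  exact ⟨by linarith, by linarith⟩

/-- the contradiction at the long end -/
theorem exit_long (L : Loop c) (J : Inj c) (nosq : NoSq (range c)) {t : ℝ}
    (h : Exit (range c) F I (c t)) :
    ∃ ε > 0, ∀ δ > 0, ∀ a, ∀ q ∈ Mm c δ a, |q.1 - t| < ε → |q.1 + q.2.1 - 1 - t| < ε →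
      0 < F (E4 c q) → ∀ n : ℤ, n ≠ 0 → IsWc c (E4 c q) n →
      ¬ (m1 c q = -(Real.pi / 4) ∧ m2 c q = Real.pi / 2) := by
  obtain ⟨r, hr, ρ, hρ, h⟩ := h
  obtain ⟨ε, hε, hc⟩ := Metric.continuous_iff.1 L.cont t (min r ρ) (by positivity)
  refine ⟨ε, hε, fun δ hδ a q hq g1 g2 g3 n hn hw => ?_⟩
  rintro ⟨h1, h2⟩
  have hπ := Real.pi_pos
  have st := Mm_strict J hδ hq
  have hE := E4_notMem J nosq hδ hq
  have hc' : ∀ τ, |τ - t| < ε → ‖c τ - c t‖ < min r ρ := fun τ hτ => by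
    rw [← dist_eq_norm]; exact hc τ (by rw [Real.dist_eq]; exact hτ)
  have eQ : c (q.1 + q.2.1 - 1) = c (q.1 + q.2.1) := by
    rw [← L.per (q.1 + q.2.1 - 1)]; congr 1; ring
  have hQ := hc' _ g2
  rw [eQ] at hQ
  have hne : c q.1 ≠ c (q.1 + q.2.1) := J _ _ (by linarith) st.2.2
  have hV : c q.1 + I * (c (q.1 + q.2.1) - c q.1) = c q.2.2 := hq.2.2.2.2.symm
  obtain ⟨γ, hγ, γ0, γ1, γS⟩ := h _ (mem_range_self q.1) _ (mem_range_self (q.1 + q.2.1)) hne
    (lt_of_lt_of_le (hc' _ g1) (min_le_right _ _)) (lt_of_lt_of_le hQ (min_le_right _ _))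
    (by rw [hV]; exact mem_range_self _) g3
  have k1 := carr_phi L hE hγ γ0 γ1 (fun s hs => (γS s hs).1) (mem_range_self q.1)
    (a := q.1 + q.2.1 - 1) (b := q.1) (by linarith [st.2.2]) (fun τ hτ => by
      rw [mem_ball, dist_eq_norm]
      exact lt_of_lt_of_le (hc' τ (by
        rw [abs_lt] at g1 g2 ⊢
        exact ⟨by linarith [hτ.1], by linarith [hτ.2]⟩)) (min_le_left _ _))
    (Or.inr ⟨rfl, fun s hs => by rw [eQ]; exact (γS s hs).2.1⟩)
  have e1 := Phi_wind L hw (q.1 + q.2.1 - 1)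
  rw [sub_add_cancel] at e1
  have e2 := Phi_add L hE (q.1 + q.2.1 - 1) q.1 q.2.2
  have e3 := Phi_add L hE (q.1 + q.2.1 - 1) q.2.2 (q.1 + q.2.1)
  unfold m1 at h1
  unfold m2 at h2
  exact hn (int_zero_of (x := Phi c (E4 c q) (q.1 + q.2.1 - 1) q.1 + Real.pi / 4)
    (by linarith) (by linarith [k1.1]) (by linarith [k1.2]))

/-- the labels of all members of a family agree, for the second and the third label -/
theorem labels2 (L : Loop c) (J : Inj c) (nosq : NoSq (range c)) {δ a : ℝ}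
    (hδ : 0 < δ) {T : Set Ann} (hT : IsPreconnected T) (hTt : TyA c δ T) {q₀ : ℝ × ℝ × ℝ}
    (hq₀ : q₀ ∈ Mm c δ a) (hq₀T : (((q₀.1 : AddCircle (1 : ℝ)), q₀.2.1) : Ann) ∈ T)
    (e2 : m1 c q₀ = -(Real.pi / 4)) (e3 : m2 c q₀ = Real.pi / 2) :
    ∀ q ∈ Mm c δ a, (((q.1 : AddCircle (1 : ℝ)), q.2.1) : Ann) ∈ T →
      m1 c q = -(Real.pi / 4) ∧ m2 c q = Real.pi / 2 := by
  have hM := Mm_closed L.cont δ a
  obtain ⟨a2, a2'⟩ := disc_closed hM (m1_cont L J nosq (a := a) hδ)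
    (fun q hq => m1_val L J nosq hδ hq)
  obtain ⟨a3, a3'⟩ := disc_closed hM (m2_cont L J nosq (a := a) hδ)
    (fun q hq => m2_val L J nosq hδ hq)
  have k1 : Mm c δ a ∩ {q | m1 c q = -(Real.pi / 4) ∧ m2 c q = Real.pi / 2} =
      (Mm c δ a ∩ {q | m1 c q = -(Real.pi / 4)}) ∩ (Mm c δ a ∩ {q | m2 c q = Real.pi / 2}) := by
    ext q
    simp only [mem_inter_iff, mem_ofPred_eq]
    tauto
  have k2 : Mm c δ a ∩ {q | m1 c q = -(Real.pi / 4) ∧ m2 c q = Real.pi / 2}ᶜ =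
      (Mm c δ a ∩ {q | m1 c q ≠ -(Real.pi / 4)}) ∪ (Mm c δ a ∩ {q | m2 c q ≠ Real.pi / 2}) := by
    ext q
    simp only [mem_inter_iff, mem_union, mem_ofPred_eq, mem_compl_iff, ne_eq]
    tauto
  exact clopen2 L J hδ hT hTt (a := a) (S := {q | m1 c q = -(Real.pi / 4) ∧
      m2 c q = Real.pi / 2}) (by rw [k1]; exact a2.inter a3)
    (by rw [k2]; exact a2'.union a3') (fun x s u g1 g2 g3 => by
      have f0 : E4 c (x + 1, s, u + 1) = E4 c (x, s, u) := by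
        unfold E4
        simp only
        rw [show x + 1 + s = x + s + 1 by ring, L.per, L.per]
      by_cases hE : E4 c (x, s, u) ∈ range c
      · have z1 : ∀ s' t', Phi c (E4 c (x, s, u)) s' t' = 0 := by
          intro s' t'
          unfold Phi
          rw [dif_neg]
          rintro ⟨k, hk, ek⟩
          obtain ⟨τ, hτ⟩ := hE
          have := ek τ
          rw [hτ, sub_self] at this
          exact exp_ne_zero _ this
        simp only [mem_ofPred_eq]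
        unfold m1 m2
        rw [f0]
        simp only [z1]
      · have f2 : m1 c (x + 1, s, u + 1) = m1 c (x, s, u) := by
          unfold m1
          rw [f0]
          exact Phi_per L hE _ _
        have f3 : m2 c (x + 1, s, u + 1) = m2 c (x, s, u) := by
          unfold m2
          rw [f0]
          simp only
          rw [show x + 1 + s = x + s + 1 by ring]
          exact Phi_per L hE _ _
        simp only [mem_ofPred_eq]
        rw [f2, f3]) ⟨hq₀, e2, e3⟩ hq₀T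

theorem labels_all2 (L : Loop c) (J : Inj c) (nosq : NoSq (range c)) {δ a : ℝ}
    (hδ : 0 < δ) {T : Set Ann} (hT : IsPreconnected T) (hTt : TyA c δ T) {q₀ : ℝ × ℝ × ℝ}
    (hq₀ : q₀ ∈ Mm c δ a) (hq₀T : (((q₀.1 : AddCircle (1 : ℝ)), q₀.2.1) : Ann) ∈ T)
    (e2 : m1 c q₀ = -(Real.pi / 4)) (e3 : m2 c q₀ = Real.pi / 2) :
    ∀ a', ∀ q ∈ Mm c δ a', (((q.1 : AddCircle (1 : ℝ)), q.2.1) : Ann) ∈ T →
      m1 c q = -(Real.pi / 4) ∧ m2 c q = Real.pi / 2 := by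
  have key := labels2 L J nosq hδ hT hTt hq₀ hq₀T e2 e3
  rintro a' ⟨x, s, u⟩ hq hqT
  have st := Mm_strict J hδ hq
  have hE := E4_notMem J nosq hδ hq
  obtain ⟨k1, k2, k3, k4, k5⟩ := hq
  simp only at st k2 k3 k4 k5 hqT
  obtain ⟨k, hk⟩ : ∃ k : ℤ, k = -⌊x - a⌋ := ⟨_, rfl⟩
  have hk' : (k : ℝ) = -(⌊x - a⌋ : ℝ) := by rw [hk]; push_cast; ring
  have f1 := Int.floor_le (x - a)
  have f2 := Int.lt_floor_add_one (x - a)
  have hq' : (x + k, s, u + k) ∈ Mm c δ a := by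
    refine ⟨⟨by show a ≤ x + k; linarith, by show x + k ≤ a + 1; linarith⟩, k2,
      by show x + k ≤ u + k; linarith, by show u + k ≤ x + k + s; linarith, ?_⟩
    show c (u + k) = c (x + k) + I * (c (x + k + s) - c (x + k))
    rw [L.per_int, L.per_int, show x + (k : ℝ) + s = x + s + k by ring, L.per_int]
    exact k5
  have hT' : (((x + k : ℝ) : AddCircle (1 : ℝ)), s) ∈ T := by
    have : ((x + k : ℝ) : AddCircle (1 : ℝ)) = (x : AddCircle (1 : ℝ)) := by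
      rw [AddCircle.coe_add]
      have h0 : ((k : ℝ) : AddCircle (1 : ℝ)) = 0 := by
        rw [AddCircle.coe_eq_zero_iff]
        exact ⟨k, by simp⟩
      rw [h0, add_zero]
    rw [this]; exact hqT
  obtain ⟨g2, g3⟩ := key _ hq' hT'
  have f0 : E4 c (x + k, s, u + k) = E4 c (x, s, u) := by
    unfold E4
    simp only
    rw [show x + (k : ℝ) + s = x + s + k by ring, L.per_int, L.per_int]
  refine ⟨?_, ?_⟩
  · unfold m1 at g2 ⊢
    rw [f0] at g2
    simp only at g2 ⊢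
    rwa [Phi_per_int L hE] at g2
  · unfold m2 at g3 ⊢
    rw [f0] at g3
    simp only at g3 ⊢
    rwa [show x + (k : ℝ) + s = x + s + k by ring, Phi_per_int L hE] at g3

/-- the three labels, the first one only under a hypothesis `hl` -/
theorem labelsP (hl : Prop) (L : Loop c) (J : Inj c) (nosq : NoSq (range c)) (D : Dirn c θ)
    {δ a : ℝ} (hδ : 0 < δ) {T : Set Ann} (hT : IsPreconnected T) (hTt : TyA c δ T)
    {q₀ : ℝ × ℝ × ℝ}
    (hq₀ : q₀ ∈ Mm c δ a) (hq₀T : (((q₀.1 : AddCircle (1 : ℝ)), q₀.2.1) : Ann) ∈ T)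
    (e1 : hl → l1 θ q₀ = Real.pi / 2) (e2 : m1 c q₀ = -(Real.pi / 4))
    (e3 : m2 c q₀ = Real.pi / 2) :
    ∀ a', ∀ q ∈ Mm c δ a', (((q.1 : AddCircle (1 : ℝ)), q.2.1) : Ann) ∈ T →
      (hl → l1 θ q = Real.pi / 2) ∧ m1 c q = -(Real.pi / 4) ∧ m2 c q = Real.pi / 2 := by
  intro a' q hq hqT
  obtain ⟨h2, h3⟩ := labels_all2 L J nosq hδ hT hTt hq₀ hq₀T e2 e3 a' q hq hqT
  exact ⟨fun h => (labels_all L J nosq D hδ hT hTt hq₀ hq₀T (e1 h) e2 e3 a' q hq hqT).1, h2, h3⟩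

end Pool.Agent.U347.BT
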