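import Pool.Agent.U347.BT.Grand3

/-! The John condition implies the exit condition, for both orientations. -/

set_option autoImplicit false
open Complex Set Topology Metric Filter
open scoped ComplexConjugate

namespace Pool.Agent.U347.BT

theorem carr_sides' {C : Set ℂ} {lam : ℝ} (hl : 1 / √5 < lam) {κ : ℂ} (hκ : κ = I ∨ κ = -I)
    {P Q : ℂ} (hP : P ∈ C) (hQ : Q ∈ C)
    (hV : P + κ * (Q - P) ∈ C) (hPQ : Q ≠ P) {ζ : ℂ}
    (h : lam * ‖ζ - (Q + κ * (Q - P))‖ ≤ infDist ζ C) :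
    ζ ∉ segment ℝ P Q ∧ ζ ∉ segment ℝ P (P + κ * (Q - P)) := by
  obtain ⟨e, he, rfl⟩ : ∃ e : ℝ, e ^ 2 = 1 ∧ κ = e * I := by
    rcases hκ with rfl | rfl
    · exact ⟨1, by norm_num, by push_cast; ring⟩
    · exact ⟨-1, by norm_num, by push_cast; ring⟩
  have hn : ‖(e : ℂ) * I‖ = 1 := by
    rw [norm_mul, norm_I, mul_one, norm_real, Real.norm_eq_abs, ← Real.sqrt_sq_eq_abs, he,
      Real.sqrt_one]
  obtain ⟨hl0, hl1⟩ := lam_pos hl
  have hW : 0 < ‖Q - P‖ := norm_pos_iff.2 (sub_ne_zero.2 hPQ)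
  constructor
  · rw [segment_eq_image']
    rintro ⟨σ, ⟨h0, h1⟩, rfl⟩
    simp only [real_smul] at h
    refine side_avoid hl0 hl1 hW h0 h1 infDist_nonneg ?_ ?_ (norm_nonneg _) ?_ h
    · refine (infDist_le_dist_of_mem hP).trans ?_
      rw [dist_eq_norm, show P + (σ : ℂ) * (Q - P) - P = σ * (Q - P) by ring, norm_mul, norm_real,
        Real.norm_of_nonneg h0]
    · refine (infDist_le_dist_of_mem hQ).trans ?_
      rw [dist_eq_norm, show P + (σ : ℂ) * (Q - P) - Q = -(((1 - σ : ℝ) : ℂ) * (Q - P)) by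
        push_cast; ring, norm_neg, norm_mul, norm_real, Real.norm_of_nonneg (by linarith)]
    · rw [show P + (σ : ℂ) * (Q - P) - (Q + e * I * (Q - P)) =
        ((-(1 - σ) : ℝ) + ((-e : ℝ) : ℂ) * I) * (Q - P) by push_cast; ring, norm_sq_lin,
        neg_sq, neg_sq, he]
      ring
  · rw [segment_eq_image']
    rintro ⟨σ, ⟨h0, h1⟩, rfl⟩
    simp only [real_smul] at h
    refine side_avoid hl0 hl1 hW h0 h1 infDist_nonneg ?_ ?_ (norm_nonneg _) ?_ h
    · refine (infDist_le_dist_of_mem hP).trans ?_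
      rw [dist_eq_norm, show P + (σ : ℂ) * (P + e * I * (Q - P) - P) - P = σ * (e * I * (Q - P)) by
        ring, norm_mul, norm_mul, hn, one_mul, norm_real, Real.norm_of_nonneg h0]
    · refine (infDist_le_dist_of_mem hV).trans ?_
      rw [dist_eq_norm, show P + (σ : ℂ) * (P + e * I * (Q - P) - P) - (P + e * I * (Q - P)) =
        -(((1 - σ : ℝ) : ℂ) * (e * I * (Q - P))) by
        push_cast; ring, norm_neg, norm_mul, norm_mul, hn, one_mul, norm_real,
        Real.norm_of_nonneg (by linarith)]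
    · rw [show P + (σ : ℂ) * (P + e * I * (Q - P) - P) - (Q + e * I * (Q - P)) =
        ((-1 : ℝ) + ((-((1 - σ) * e) : ℝ) : ℂ) * I) * (Q - P) by push_cast; ring, norm_sq_lin,
        neg_sq, neg_sq, mul_pow, he]
      ring

theorem exit_of_carr' {C : Set ℂ} {F : ℂ → ℝ} (hF0 : ∀ z ∈ C, ¬ 0 < F z) {κ : ℂ}
    (hκ : κ = I ∨ κ = -I) {lam : ℝ} {p : ℂ}
    (hl : 1 / √5 < lam) (h : Carr C F lam p) : Exit C F κ p := by
  obtain ⟨r, hr, h⟩ := h
  refine ⟨r, hr, r / 4, by positivity, fun P hP Q hQ hPQ g1 g2 hV hD => ?_⟩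
  have hs : ‖Q + κ * (Q - P) - p‖ < r := by
    have hn : ‖κ‖ = 1 := by rcases hκ with rfl | rfl <;> simp
    have h1 : ‖Q - P‖ < r / 2 := by
      have := norm_sub_le (Q - p) (P - p)
      rw [sub_sub_sub_cancel_right] at this
      linarith
    have h2 : ‖Q + κ * (Q - P) - p‖ ≤ ‖Q - p‖ + ‖Q - P‖ := by
      rw [show Q + κ * (Q - P) - p = (Q - p) + κ * (Q - P) by ring]
      refine (norm_add_le _ _).trans ?_
      rw [norm_mul, hn, one_mul]
    linarith
  obtain ⟨γ, hγ, γ0, γ1, γd⟩ := h _ hD hs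
  refine ⟨γ, hγ, γ0, γ1, fun s hs => ⟨?_, ?_⟩⟩
  · exact carr_curve (lam_pos hl).1 (fun h0 => hF0 _ h0 hD) (γd s hs)
  · exact carr_sides' hl hκ hP hQ hV hPQ.symm (γd s hs)

end Pool.Agent.U347.BT
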