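import Pool.Agent.U347.BT.Seal

/-! The local theorem with sealed arcs. The proofs are those of `Pool.Agent.N335.Hg.Crn7` (starting
files) with the new alternatives added at both ends. -/

set_option autoImplicit false
open Complex Set Topology Metric Filter
open scoped ComplexConjugate

namespace Pool.Agent.U347.BT

open Pool.Agent.H763R2 Pool.Agent.H763R2.An
open Pool.Agent.H763R2.Dm (NoSq)
open Pool.Agent.Y765.Sq (Ann exists_int exists_rep TriM tri_fam)
open Pool.Agent.N335.Hg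

variable {c : ℝ → ℂ} {θ : ℝ → ℝ → ℝ}

theorem mgc_ne (L : Loop c) : ∀ z, z ∉ range c → mgc c z ≠ 0 := by
  intro z hz h
  have h1 : 0 < infDist z (range c) := (L.closed.notMem_iff_infDist_pos L.ne).1 hz
  rw [← mgc_abs, h, abs_zero] at h1
  exact lt_irrefl _ h1

theorem seal_rev {F : ℂ → ℝ} {t : ℝ} (h : Seal c F t) : Seal (fun s => c (-s)) F (-t) := by
  obtain ⟨a, b, ha, hb, hba, h⟩ := h
  refine ⟨-b, -a, by linarith, by linarith, by linarith, fun x hx y hy u hu ho => ?_⟩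
  refine h (-x) ⟨by linarith [hx.2], by linarith [hx.1]⟩ (-y)
    ⟨by linarith [hy.2], by linarith [hy.1]⟩ (-u) ⟨by linarith [hu.2], by linarith [hu.1]⟩ ?_
  rcases ho with h | h | h | h | h | h
  · exact Or.inr (Or.inr (Or.inr (Or.inl (by rw [h, neg_neg]))))
  · exact Or.inr (Or.inr (Or.inr (Or.inr (Or.inl (by rw [h, neg_neg])))))
  · exact Or.inr (Or.inr (Or.inr (Or.inr (Or.inr (by rw [h, neg_neg])))))
  · exact Or.inl (by rw [h, neg_neg])
  · exact Or.inr (Or.inl (by rw [h, neg_neg]))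
  · exact Or.inr (Or.inr (Or.inl (by rw [h, neg_neg])))

/-- `t` is inside a sealed arc: no triangle `P`, `Q`, `V = P + κ (Q - P)` with its vertices on the
arc and with the fourth vertex inside the curve has a vertex at an end of the arc -/
def SealK (c : ℝ → ℂ) (κ : ℂ) (t : ℝ) : Prop :=
  ∃ a b, a < t ∧ t < b ∧ b < a + 1 ∧ ∀ x ∈ Icc a b, ∀ y ∈ Icc a b, ∀ u ∈ Icc a b,
    (x = a ∨ y = a ∨ u = a ∨ x = b ∨ y = b ∨ u = b) →
    ¬ (c u = c x + κ * (c y - c x) ∧ 0 < mgc c (c y + κ * (c y - c x)))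

/-- the core of the argument -/
theorem core4 (L : Loop c) (J : Inj c) (nosq : NoSq (range c)) {F : ℂ → ℝ} (hF : Continuous F)
    (hF0 : ∀ z, z ∉ range c → F z ≠ 0)
    (hR : ∀ x y u, RF F (c x) (c y) (c u) → ∃ n : ℤ, n ≠ 0 ∧ IsWc c (c y + I * (c y - c x)) n)
    (H : ∀ t, Mid c t ∨ Mon c t ∨ Hourglass c t ∨ Crn c t ∨ Seal c F t)
    (hT : ∀ ε > 0, ∃ δ, 0 < δ ∧ δ < ε ∧ ∃ T : Set Ann, IsPreconnected T ∧ TyP c (RF F) δ T ∧
      (∃ p ∈ T, p.2 = δ) ∧ ∃ p ∈ T, p.2 = 1 - δ) : False := by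
  have cc := L.cont
  obtain ⟨θ, D⟩ := exists_dirn L J
  have hT' : ∀ n : ℕ, ∃ δ, 0 < δ ∧ δ < 1 / ((n : ℝ) + 1) ∧ ∃ T : Set Ann, IsPreconnected T ∧
      TyP c (RF F) δ T ∧ (∃ p ∈ T, p.2 = δ) ∧ ∃ p ∈ T, p.2 = 1 - δ :=
    fun n => hT _ Nat.one_div_pos_of_nat
  choose δ δ0 δ1 T hTc hTA hTp hTq using hT'
  choose p hp hp' using hTp
  choose q hq hq' using hTq
  have hx : ∀ n, ∃ x ∈ Icc (0:ℝ) 1, (x : AddCircle (1 : ℝ)) = (p n).1 := fun n =>
    exists_rep (p n).1
  choose x hx hxp using hx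
  have hX : ∀ n, ∃ x ∈ Icc (0:ℝ) 1, (x : AddCircle (1 : ℝ)) = (q n).1 := fun n =>
    exists_rep (q n).1
  choose X hX hXq using hX
  have hu : ∀ n, ∃ u, x n < u ∧ u < x n + δ n ∧
      c u = c (x n) + I * (c (x n + δ n) - c (x n)) ∧ RF F (c (x n)) (c (x n + δ n)) (c u) := by
    intro n
    obtain ⟨-, -, hall⟩ := hTA n (p n) (hp n)
    have := hall (x n) (hxp n)
    rwa [hp'] at this
  choose u u1 u2 u3 u4 using hu
  have hU : ∀ n, ∃ u, X n < u ∧ u < X n + (1 - δ n) ∧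
      c u = c (X n) + I * (c (X n + (1 - δ n)) - c (X n)) ∧
      RF F (c (X n)) (c (X n + (1 - δ n))) (c u) := by
    intro n
    obtain ⟨-, -, hall⟩ := hTA n (q n) (hq n)
    have := hall (X n) (hXq n)
    rwa [hq'] at this
  choose U U1 U2 U3 U4 using hU
  obtain ⟨⟨z, Z, v⟩, hz, φ, hφ, hlim⟩ := (isCompact_Icc.prod (isCompact_Icc.prod
    (isCompact_Icc (a := (0:ℝ)) (b := 2)))).tendsto_subseq
    (x := fun n => (x n, X n, U n)) (fun n => ⟨hx n, hX n, ⟨by linarith [(hX n).1, U1 n],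
      by linarith [(hX n).2, U2 n, δ0 n]⟩⟩)
  have lx : Tendsto (fun n => x (φ n)) atTop (𝓝 z) :=
    (continuous_fst.tendsto _).comp hlim
  have lX : Tendsto (fun n => X (φ n)) atTop (𝓝 Z) :=
    ((continuous_fst.comp continuous_snd).tendsto _).comp hlim
  have lU : Tendsto (fun n => U (φ n)) atTop (𝓝 v) :=
    ((continuous_snd.comp continuous_snd).tendsto _).comp hlim
  have lδ : Tendsto (fun n => δ (φ n)) atTop (𝓝 0) := by
    have h0 : Tendsto (fun n : ℕ => 1 / ((n : ℝ) + 1)) atTop (𝓝 0) :=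
      tendsto_one_div_add_atTop_nhds_zero_nat
    have h1 : Tendsto δ atTop (𝓝 0) :=
      squeeze_zero (fun n => (δ0 n).le) (fun n => (δ1 n).le) h0
    exact h1.comp hφ.tendsto_atTop
  have lx2 : Tendsto (fun n => x (φ n) + δ (φ n)) atTop (𝓝 z) := by
    have := lx.add lδ
    rwa [add_zero] at this
  have lQ : Tendsto (fun n => X (φ n) + (1 - δ (φ n)) - 1) atTop (𝓝 Z) := by
    have := (lX.add (tendsto_const_nhds (x := (1:ℝ)) |>.sub lδ)).sub
      (tendsto_const_nhds (x := (1:ℝ)))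
    rwa [sub_zero, add_sub_cancel_right] at this
  have eQ : ∀ n, c (X n + (1 - δ n) - 1) = c (X n + (1 - δ n)) := fun n => by
    rw [← L.per (X n + (1 - δ n) - 1)]; congr 1; ring
  have lcQ : Tendsto (fun n => c (X (φ n) + (1 - δ (φ n)))) atTop (𝓝 (c Z)) := by
    have := (cc.tendsto Z).comp lQ
    refine this.congr fun n => ?_
    exact eQ (φ n)
  have lcX : Tendsto (fun n => c (X (φ n))) atTop (𝓝 (c Z)) := (cc.tendsto Z).comp lX
  have lcU : Tendsto (fun n => c (U (φ n))) atTop (𝓝 (c v)) := (cc.tendsto v).comp lU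
  have hcv : c v = c Z := by
    have h1 : Tendsto (fun n => c (U (φ n))) atTop (𝓝 (c Z + I * (c Z - c Z))) := by
      have := lcX.add ((lcQ.sub lcX).const_mul I)
      refine this.congr fun n => ?_
      exact (U3 (φ n)).symm
    have := tendsto_nhds_unique lcU h1
    rw [this, sub_self, mul_zero, add_zero]
  have v1 : Z ≤ v := le_of_tendsto_of_tendsto' lX lU fun n => (U1 (φ n)).le
  have v2 : v ≤ Z + 1 := by
    have h2 : Tendsto (fun n => X (φ n) + 1) atTop (𝓝 (Z + 1)) := lX.add_const 1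
    exact le_of_tendsto_of_tendsto' lU h2 fun n => by linarith [U2 (φ n), δ0 (φ n)]
  have hv : v = Z ∨ v = Z + 1 := by
    rcases eq_or_lt_of_le v1 with h | h
    · exact Or.inl h.symm
    · rcases eq_or_lt_of_le v2 with h' | h'
      · exact Or.inr h'
      · exact absurd hcv.symm (J Z v h h')
  have lU' : Tendsto (fun n => U (φ n) - 1) atTop (𝓝 (v - 1)) := lU.sub_const 1
  have eU : ∀ n, c (U n - 1) = c (U n) := fun n => by
    rw [← L.per (U n - 1)]; congr 1; ring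
  -- the short end
  have labs : ∀ n, ∀ q₀ : ℝ × ℝ × ℝ, ∀ a₀, q₀ ∈ Mm c (δ (φ n)) a₀ →
      (((q₀.1 : AddCircle (1 : ℝ)), q₀.2.1) : Ann) ∈ T (φ n) → l1 θ q₀ = Real.pi / 2 →
      m1 c q₀ = -(Real.pi / 4) → m2 c q₀ = Real.pi / 2 → ∀ a', ∀ q ∈ Mm c (δ (φ n)) a',
      (((q.1 : AddCircle (1 : ℝ)), q.2.1) : Ann) ∈ T (φ n) →
      l1 θ q = Real.pi / 2 ∧ m1 c q = -(Real.pi / 4) ∧ m2 c q = Real.pi / 2 :=
    fun n q₀ a₀ g1 g2 g3 g4 g5 => labels_all L J nosq D (δ0 _) (hTc _) (hTA _).tyA g1 g2 g3 g4 g5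
  have ev3 : ∀ᶠ n in atTop, δ (φ n) < 1 / 2 := lδ.eventually (gt_mem_nhds (by norm_num))
  have Lab : ∀ᶠ n in atTop, ∀ a', ∀ q ∈ Mm c (δ (φ n)) a',
      (((q.1 : AddCircle (1 : ℝ)), q.2.1) : Ann) ∈ T (φ n) →
      l1 θ q = Real.pi / 2 ∧ m1 c q = -(Real.pi / 4) ∧ m2 c q = Real.pi / 2 := by
    rcases H z with ⟨ε, hε, hz1⟩ | hz1 | hz1 | hz1 | ⟨a, b, z1, z2, hba, hS⟩
    · exfalso
      have nb : ∀ {f : ℕ → ℝ}, Tendsto f atTop (𝓝 z) → ∀ᶠ n in atTop, |f n - z| < ε := by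
        intro f hf
        have h1 := (hf.sub_const z).abs
        rw [sub_self, abs_zero] at h1
        exact h1.eventually (gt_mem_nhds hε)
      obtain ⟨n, g1, g2⟩ := ((nb lx).and (nb lx2)).exists
      exact (hz1 _ _ _ I g1 g2 (u1 _) (u2 _) (Or.inl rfl)).1 (u3 _)
    · -- locally monotone at the short end
      obtain ⟨ρ, hρ, w, M⟩ := hz1.win
      have ev1 : ∀ᶠ n in atTop, z - ρ < x (φ n) := lx.eventually (lt_mem_nhds (by linarith))
      have ev2 : ∀ᶠ n in atTop, x (φ n) + δ (φ n) < z + ρ :=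
        lx2.eventually (gt_mem_nhds (by linarith))
      filter_upwards [ev1, ev2, ev3] with n g1 g2 g3
      have d0 := δ0 (φ n)
      have hm1 : (x (φ n), δ (φ n), u (φ n)) ∈ Mm c (δ (φ n)) 0 :=
        ⟨⟨(hx _).1, by rw [zero_add]; exact (hx _).2⟩, ⟨le_rfl, by show δ (φ n) ≤ _; linarith⟩,
          (u1 _).le, (u2 _).le, u3 _⟩
      obtain ⟨b1, b2, b3⟩ := mon_short L J nosq D d0 hm1 M g1 g2
      refine labs n _ 0 hm1 ?_ b1 b2 b3
      have : (((x (φ n) : AddCircle (1 : ℝ)), δ (φ n)) : Ann) = p (φ n) :=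
        Prod.ext (hxp _) (hp' _).symm
      rw [this]; exact hp _
    · exfalso
      obtain ⟨zL, zR, d, z1, z2, hd, hloc⟩ := hour_thm L J hz1
      have e1 : ∀ᶠ n in atTop, zL < x (φ n) := lx.eventually (lt_mem_nhds z1)
      have e2 : ∀ᶠ n in atTop, x (φ n) + δ (φ n) < zR := lx2.eventually (gt_mem_nhds z2)
      have e3 : ∀ᶠ n in atTop, δ (φ n) < 1 - d := lδ.eventually (gt_mem_nhds (by linarith))
      obtain ⟨n, a1, a2, a3⟩ := (e1.and (e2.and e3)).exists
      have := hloc (δ (φ n)) (T (φ n)) (δ0 _) (hTc _) (hTA _).tyA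
        ⟨p (φ n), hp _, x (φ n), hxp _, a1, by rw [hp']; exact a2⟩ (q (φ n)) (hq _)
      rw [hq'] at this
      linarith
    · -- a corner at the short end
      obtain ⟨zL, zR, d, z1, z2, hd, hloc⟩ := crn_short L J nosq D hz1
      have e1 : ∀ᶠ n in atTop, zL < x (φ n) := lx.eventually (lt_mem_nhds z1)
      have e2 : ∀ᶠ n in atTop, x (φ n) + δ (φ n) < zR := lx2.eventually (gt_mem_nhds z2)
      have e3 : ∀ᶠ n in atTop, δ (φ n) < 1 - d := lδ.eventually (gt_mem_nhds (by linarith))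
      filter_upwards [e1, e2, e3] with n a1 a2 a3
      rcases hloc (δ (φ n)) (T (φ n)) (δ0 _) (hTc _) (hTA _).tyA
        ⟨p (φ n), hp _, x (φ n), hxp _, a1, by rw [hp']; exact a2⟩ with h | ⟨a', q₀, g1, g2, g3,
          g4, g5⟩
      · exfalso
        have := h (q (φ n)) (hq _)
        rw [hq'] at this
        linarith
      · exact labs n q₀ a' g1 g2 g3 g4 g5
    · exfalso
      have e1 : ∀ᶠ n in atTop, a < x (φ n) := lx.eventually (lt_mem_nhds z1)
      have e2 : ∀ᶠ n in atTop, x (φ n) + δ (φ n) < b := lx2.eventually (gt_mem_nhds z2)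
      have e3 : ∀ᶠ n in atTop, δ (φ n) < 1 - (b - a) := lδ.eventually (gt_mem_nhds (by linarith))
      obtain ⟨n, a1, a2, a3, a4⟩ := (e1.and (e2.and (e3.and ev3))).exists
      have hm1 : (x (φ n), δ (φ n), u (φ n)) ∈ Mm c (δ (φ n)) 0 :=
        ⟨⟨(hx _).1, by rw [zero_add]; exact (hx _).2⟩, ⟨le_rfl, by show δ (φ n) ≤ _; linarith⟩,
          (u1 _).le, (u2 _).le, u3 _⟩
      have := seal_short L J nosq hF hF0 hS (δ0 _) (hTc _) (hTA _) hm1 a1 a2 (by
        have : (((x (φ n) : AddCircle (1 : ℝ)), δ (φ n)) : Ann) = p (φ n) :=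
          Prod.ext (hxp _) (hp' _).symm
        rw [this]; exact hp _) (q (φ n)) (hq _)
      rw [hq'] at this
      linarith
  -- the long member
  have lab : ∀ᶠ n in atTop, (X (φ n), 1 - δ (φ n), U (φ n)) ∈ Mm c (δ (φ n)) 0 ∧
      l1 θ (X (φ n), 1 - δ (φ n), U (φ n)) = Real.pi / 2 ∧
      m1 c (X (φ n), 1 - δ (φ n), U (φ n)) = -(Real.pi / 4) ∧
      m2 c (X (φ n), 1 - δ (φ n), U (φ n)) = Real.pi / 2 := by
    filter_upwards [Lab, ev3] with n h g3
    have d0 := δ0 (φ n)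
    have hm2 : (X (φ n), 1 - δ (φ n), U (φ n)) ∈ Mm c (δ (φ n)) 0 :=
      ⟨⟨(hX _).1, by rw [zero_add]; exact (hX _).2⟩,
        ⟨by show δ (φ n) ≤ 1 - δ (φ n); linarith, le_rfl⟩, (U1 _).le, (U2 _).le, U3 _⟩
    refine ⟨hm2, h 0 _ hm2 ?_⟩
    have : (((X (φ n) : AddCircle (1 : ℝ)), 1 - δ (φ n)) : Ann) = q (φ n) :=
      Prod.ext (hXq _) (hq' _).symm
    rw [this]; exact hq _
  -- the long end
  rcases H Z with ⟨ε, hε, hZ1⟩ | hZ1 | hZ1 | hZ1 | ⟨a, b, z1, z2, hba, hS⟩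
  · have nb : ∀ {f : ℕ → ℝ}, Tendsto f atTop (𝓝 Z) → ∀ᶠ n in atTop, |f n - Z| < ε := by
      intro f hf
      have h1 := (hf.sub_const Z).abs
      rw [sub_self, abs_zero] at h1
      exact h1.eventually (gt_mem_nhds hε)
    rcases hv with hv | hv
    · obtain ⟨n, g1, g2, g3⟩ := (lab.and ((nb lX).and (nb lQ))).exists
      obtain ⟨hm2, -, b2, b3⟩ := g1
      obtain ⟨k, hk, hk'⟩ := hR _ _ _ (U4 (φ n))
      refine mid_long2 L J nosq (δ0 _) hm2 (fun r τ h1 h2 h3 => ?_) hk hk' ⟨b2, b3⟩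
      have h1' : X (φ n) + (1 - δ (φ n)) - 1 ≤ r := h1
      have h3' : τ < X (φ n) := h3
      have hrε : |r - Z| < ε := by
        obtain ⟨p1, p2⟩ := abs_lt.1 g2
        obtain ⟨q1, q2⟩ := abs_lt.1 g3
        exact abs_lt.2 ⟨by linarith, by linarith⟩
      have := (hZ1 r τ (X (φ n)) (-I) hrε g2 h2 h3' (Or.inr rfl)).1
      intro e
      refine this ?_
      rw [e]
      show c r + I * (c r - c (X (φ n))) = _
      ring
    · rw [hv, add_sub_cancel_right] at lU'
      obtain ⟨n, g2, g3⟩ := ((nb lX).and (nb lU')).exists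
      refine (hZ1 (U (φ n) - 1) (X (φ n) + (1 - δ (φ n)) - 1) (X (φ n)) (-I) g3 g2
        (by linarith [U2 (φ n)]) (by linarith [δ0 (φ n)]) (Or.inr rfl)).2 ?_
      rw [eQ, eU, U3 (φ n)]
      linear_combination (c (X (φ n) + (1 - δ (φ n))) - c (X (φ n))) * I_sq
  · obtain ⟨r, hr, w', M'⟩ := hZ1.win
    rcases hv with hv | hv
    · obtain ⟨d, hd, hfar⟩ := far_pos L J (t := Z) hr
      rw [hv] at lU lcU
      have f1 : ∀ᶠ n in atTop, Z - r < X (φ n) + (1 - δ (φ n)) - 1 :=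
        lQ.eventually (lt_mem_nhds (by linarith))
      have f2 : ∀ᶠ n in atTop, U (φ n) < Z + r := lU.eventually (gt_mem_nhds (by linarith))
      have nn : ∀ {f : ℕ → ℂ}, Tendsto f atTop (𝓝 (c Z)) → ∀ᶠ n in atTop, 4 * ‖f n - c Z‖ < d := by
        intro f hf
        have h1 : Tendsto (fun n => 4 * ‖f n - c Z‖) atTop (𝓝 (4 * ‖c Z - c Z‖)) :=
          ((hf.sub_const (c Z)).norm).const_mul 4
        rw [sub_self, norm_zero, mul_zero] at h1
        exact h1.eventually (gt_mem_nhds hd)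
      obtain ⟨n, g1, g4, g5, g6, g7, g8⟩ := (lab.and (f1.and (f2.and
        ((nn lcX).and ((nn lcQ).and (nn lcU)))))).exists
      obtain ⟨hm2, b1, -, b3⟩ := g1
      exact mon_long2 L J nosq D (δ0 _) hm2 M' g4 g5 (t := Z) (d := d)
        (fun σ h1 h2 => hfar σ h1 (by linarith)) g6 g7 g8 ⟨b1, b3⟩
    · rw [hv, add_sub_cancel_right] at lU'
      have f1 : ∀ᶠ n in atTop, Z - r < U (φ n) - 1 := lU'.eventually (lt_mem_nhds (by linarith))
      have f2 : ∀ᶠ n in atTop, X (φ n) < Z + r := lX.eventually (gt_mem_nhds (by linarith))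
      obtain ⟨n, g1, g4, g5⟩ := (lab.and (f1.and f2)).exists
      obtain ⟨hm2, b1, b2, b3⟩ := g1
      obtain ⟨k, hk, hk'⟩ := hR _ _ _ (U4 (φ n))
      exact mon_long3 L J nosq (δ0 _) hm2 M' g4 g5 hk hk' b2
  · obtain ⟨zL, zR, d, y1, y2, hd, hloc⟩ := hour_long L J hZ1
    have e3 : ∀ᶠ n in atTop, δ (φ n) < d := lδ.eventually (gt_mem_nhds hd)
    rcases hv with hv | hv
    · rw [hv] at lU
      have f1 : ∀ᶠ n in atTop, zL < X (φ n) + (1 - δ (φ n)) - 1 :=
        lQ.eventually (lt_mem_nhds y1)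
      have f2 : ∀ᶠ n in atTop, U (φ n) < zR := lU.eventually (gt_mem_nhds y2)
      obtain ⟨n, g1, g2, g3⟩ := (f1.and (f2.and e3)).exists
      have := hloc (δ (φ n)) (T (φ n)) (δ0 _) (hTc _) (hTA _).tyA ⟨q (φ n), hq _, X (φ n),
        U (φ n), hXq _, U1 _, by rw [hq']; exact U2 _, by rw [hq']; exact U3 _,
        Or.inl ⟨by rw [hq']; exact g1, g2⟩⟩ (p (φ n)) (hp _)
      rw [hp'] at this
      linarith
    · rw [hv, add_sub_cancel_right] at lU'
      have f1 : ∀ᶠ n in atTop, zL < U (φ n) - 1 := lU'.eventually (lt_mem_nhds y1)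
      have f2 : ∀ᶠ n in atTop, X (φ n) < zR := lX.eventually (gt_mem_nhds y2)
      obtain ⟨n, g1, g2, g3⟩ := (f1.and (f2.and e3)).exists
      have := hloc (δ (φ n)) (T (φ n)) (δ0 _) (hTc _) (hTA _).tyA ⟨q (φ n), hq _, X (φ n),
        U (φ n), hXq _, U1 _, by rw [hq']; exact U2 _, by rw [hq']; exact U3 _,
        Or.inr ⟨g1, g2⟩⟩ (p (φ n)) (hp _)
      rw [hp'] at this
      linarith
  · -- a corner at the long end
    obtain ⟨zL, zR, d, y1, y2, hd, hloc⟩ := crn_long L J nosq hZ1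
    have e3 : ∀ᶠ n in atTop, δ (φ n) < d := lδ.eventually (gt_mem_nhds hd)
    have fin : ∀ n, (∀ a', ∀ q ∈ Mm c (δ (φ n)) a',
        (((q.1 : AddCircle (1 : ℝ)), q.2.1) : Ann) ∈ T (φ n) →
        l1 θ q = Real.pi / 2 ∧ m1 c q = -(Real.pi / 4) ∧ m2 c q = Real.pi / 2) →
        δ (φ n) < d → ((∀ q ∈ T (φ n), d ≤ q.2) ∨ ∃ a', ∃ q ∈ Mm c (δ (φ n)) a',
        (((q.1 : AddCircle (1 : ℝ)), q.2.1) : Ann) ∈ T (φ n) ∧
        ∀ n : ℤ, n ≠ 0 → IsWc c (E4 c q) n →
          ¬ (m1 c q = -(Real.pi / 4) ∧ m2 c q = Real.pi / 2)) → False := by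
      intro n h1 h2 h3
      rcases h3 with h3 | ⟨a', r, g1, g2, g3⟩
      · have := h3 (p (φ n)) (hp _)
        rw [hp'] at this
        linarith
      · obtain ⟨-, l2, l3⟩ := h1 a' r g1 g2
        obtain ⟨-, -, hall⟩ := hTA (φ n) _ g2
        obtain ⟨v, -, -, -, v4⟩ := hall r.1 rfl
        obtain ⟨k, hk, hk'⟩ := hR _ _ _ v4
        exact g3 k hk hk' ⟨l2, l3⟩
    rcases hv with hv | hv
    · rw [hv] at lU
      have f1 : ∀ᶠ n in atTop, zL < X (φ n) + (1 - δ (φ n)) - 1 :=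
        lQ.eventually (lt_mem_nhds y1)
      have f2 : ∀ᶠ n in atTop, U (φ n) < zR := lU.eventually (gt_mem_nhds y2)
      obtain ⟨n, g1, g2, g3, g4⟩ := (f1.and (f2.and (e3.and Lab))).exists
      exact fin n g4 g3 (hloc (δ (φ n)) (T (φ n)) (δ0 _) (hTc _) (hTA _).tyA ⟨q (φ n), hq _,
        X (φ n), U (φ n), hXq _, U1 _, by rw [hq']; exact U2 _, by rw [hq']; exact U3 _,
        Or.inl ⟨by rw [hq']; exact g1, g2⟩⟩)
    · rw [hv, add_sub_cancel_right] at lU'
      have f1 : ∀ᶠ n in atTop, zL < U (φ n) - 1 := lU'.eventually (lt_mem_nhds y1)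
      have f2 : ∀ᶠ n in atTop, X (φ n) < zR := lX.eventually (gt_mem_nhds y2)
      obtain ⟨n, g1, g2, g3, g4⟩ := (f1.and (f2.and (e3.and Lab))).exists
      exact fin n g4 g3 (hloc (δ (φ n)) (T (φ n)) (δ0 _) (hTc _) (hTA _).tyA ⟨q (φ n), hq _,
        X (φ n), U (φ n), hXq _, U1 _, by rw [hq']; exact U2 _, by rw [hq']; exact U3 _,
        Or.inr ⟨g1, g2⟩⟩)
  · -- a sealed arc at the long end
    have e3 : ∀ᶠ n in atTop, δ (φ n) < 1 - (b - a) := lδ.eventually (gt_mem_nhds (by linarith))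
    have fin : ∀ n, (X (φ n), 1 - δ (φ n), U (φ n)) ∈ Mm c (δ (φ n)) 0 → δ (φ n) < 1 - (b - a) →
        ((a < X (φ n) + (1 - δ (φ n)) - 1 ∧ U (φ n) < b) ∨ (a < U (φ n) - 1 ∧ X (φ n) < b)) →
        False := by
      intro n g1 g2 g3
      have := seal_long L J nosq hF hF0 hS (δ0 _) (hTc _) (hTA _) g1 g3 (by
        have : (((X (φ n) : AddCircle (1 : ℝ)), 1 - δ (φ n)) : Ann) = q (φ n) :=
          Prod.ext (hXq _) (hq' _).symm
        rw [this]; exact hq _) (p (φ n)) (hp _)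
      rw [hp'] at this
      linarith
    rcases hv with hv | hv
    · rw [hv] at lU
      have f1 : ∀ᶠ n in atTop, a < X (φ n) + (1 - δ (φ n)) - 1 := lQ.eventually (lt_mem_nhds z1)
      have f2 : ∀ᶠ n in atTop, U (φ n) < b := lU.eventually (gt_mem_nhds z2)
      obtain ⟨n, g1, g2, g3, g4⟩ := (lab.and (f1.and (f2.and e3))).exists
      exact fin n g1.1 g4 (Or.inl ⟨g2, g3⟩)
    · rw [hv, add_sub_cancel_right] at lU'
      have f1 : ∀ᶠ n in atTop, a < U (φ n) - 1 := lU'.eventually (lt_mem_nhds z1)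
      have f2 : ∀ᶠ n in atTop, X (φ n) < b := lX.eventually (gt_mem_nhds z2)
      obtain ⟨n, g1, g2, g3, g4⟩ := (lab.and (f1.and (f2.and e3))).exists
      exact fin n g1.1 g4 (Or.inr ⟨g2, g3⟩)

theorem square_seal (L : Loop c) (J : Inj c)
    (H : ∀ t, Mid c t ∨ Mon c t ∨ Hourglass c t ∨ Tan c t ∨ Seal c (mgc c) t) :
    ∃ z w : ℂ, w ≠ 0 ∧ z ∈ range c ∧ z + w ∈ range c ∧ z + w + I * w ∈ range c ∧
      z + I * w ∈ range c := by
  by_contra nosq
  have wc : ∀ {z : ℂ}, 0 < mgc c z → ∃ n : ℤ, n ≠ 0 ∧ IsWc c z n := by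
    intro z hz
    unfold mgc at hz
    split_ifs at hz with h
    · obtain ⟨n, hn, ho⟩ := h
      exact ⟨n, by rintro rfl; exact absurd ho (by decide), hn⟩
    · have := infDist_nonneg (x := z) (s := range c)
      linarith
  by_cases hA : ∀ ε > 0, ∃ δ, 0 < δ ∧ δ < ε ∧ ∃ T : Set Ann, IsPreconnected T ∧
      TyP c (RF (mgc c)) δ T ∧ (∃ p ∈ T, p.2 = δ) ∧ ∃ p ∈ T, p.2 = 1 - δ
  · exact core4 L J nosq (mgc_sg L).cont (mgc_ne L) (fun x y u h => wc h.2) (fun t => by
      rcases H t with h | h | h | h | h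
      · exact Or.inl h
      · exact Or.inr (Or.inl h)
      · exact Or.inr (Or.inr (Or.inl h))
      · exact Or.inr (Or.inr ((hour_or_crn L J h).imp id Or.inl))
      · exact Or.inr (Or.inr (Or.inr (Or.inr h)))) hA
  · push Not at hA
    obtain ⟨ε, hε, hA⟩ := hA
    obtain ⟨g, hg⟩ : ∃ g : ℝ → ℂ, g = fun s => c (-s) := ⟨_, rfl⟩
    have Lg' : Loop g := by
      have := L.cont
      refine ⟨by rw [hg]; fun_prop, fun s => ?_⟩
      rw [hg]
      simp only
      rw [← L.per (-(s + 1))]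
      congr 1; ring
    have Jg : Inj g := by
      intro x y h1 h2
      rw [hg]
      exact (J (-y) (-x) (by linarith) (by linarith)).symm
    have hrg : range g = range c := by
      rw [hg]
      apply Subset.antisymm
      · rintro _ ⟨s, rfl⟩; exact ⟨-s, rfl⟩
      · rintro _ ⟨s, rfl⟩; exact ⟨-s, by simp⟩
    refine core4 Lg' Jg (by rw [hrg]; exact nosq) (F := mgc c) (mgc_sg L).cont
      (by rw [hrg]; exact mgc_ne L) (fun x y u h => ?_) (fun t => ?_) fun ε' hε' => ?_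
    · obtain ⟨n, hn, k, hk, ek, e⟩ := wc h.2
      refine ⟨-n, neg_ne_zero.2 hn, fun t => k (-t), by fun_prop, fun t => ?_, ?_⟩
      · rw [hg]
        simp only
        rw [ek, hg]
      · have h3 := H777R2.exp_const (X := ℝ) (k := fun t => k (t + 1) - k t) (by fun_prop) (c := 1)
          (fun t => by
            rw [exp_sub, ek, ek, L.per, ← ek, div_self (exp_ne_zero _)]) (-1) 0
        simp only [zero_add] at h3
        rw [show (-1 : ℝ) + 1 = 0 by ring, e] at h3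
        simp only [neg_zero]
        rw [show k (-1) - k 0 = -(k 0 - k (-1)) by ring, h3]
        push_cast; ring
    · rcases H (-t) with h | ⟨ρ, hρ, w, hw⟩ | h | h | h
      · have := mid_rev h
        rw [neg_neg] at this
        rw [hg]; exact Or.inl this
      · refine Or.inr (Or.inl ⟨ρ, hρ, -w, fun x y h1 h2 h3 => ?_⟩)
        have := hw (-y) (-x) (by rw [← abs_neg]; convert h2 using 2; ring)
          (by rw [← abs_neg]; convert h1 using 2; ring) (by linarith)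
        rw [hg]
        simp only
        rw [show -w * (c (-y) - c (-x)) = w * (c (-x) - c (-y)) by ring]
        exact this
      · have := rev_hour h
        rw [neg_neg] at this
        rw [hg]; exact Or.inr (Or.inr (Or.inl this))
      · have := h.rev
        rw [neg_neg, ← hg] at this
        exact Or.inr (Or.inr ((hour_or_crn Lg' Jg this).imp id Or.inl))
      · have := seal_rev h
        rw [neg_neg, ← hg] at this
        exact Or.inr (Or.inr (Or.inr (Or.inr this)))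
    obtain ⟨δ, hδ⟩ : ∃ δ, δ = min (min (ε / 2) (ε' / 2)) (1 / 4) := ⟨_, rfl⟩
    have δ0 : 0 < δ := by rw [hδ]; positivity
    have δ1 : δ < ε := by
      have : δ ≤ ε / 2 := by rw [hδ]; exact (min_le_left _ _).trans (min_le_left _ _)
      linarith
    have δ2 : δ < ε' := by
      have : δ ≤ ε' / 2 := by rw [hδ]; exact (min_le_left _ _).trans (min_le_right _ _)
      linarith
    have δ3 : δ < 1 / 2 := by
      have : δ ≤ 1 / 4 := by rw [hδ]; exact min_le_right _ _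
      linarith
    obtain ⟨T, hT, ⟨p1, hp1, e1⟩, ⟨p2, hp2, e2⟩, hb, hab⟩ :=
      tri_fam L J nosq (κ := I) (Or.inl rfl) (σ := 1) (Or.inl rfl) δ0 δ3
    rcases hab with hab | hab
    · exfalso
      exact hA δ δ0 δ1 T hT.isPreconnected (fun p hp => ⟨(hb p hp).1, (hb p hp).2, fun x hx => by
        obtain ⟨u, a1, a2, a3, a4⟩ := hab p hp x hx
        exact ⟨u, a1, a2, a3, a3, by rwa [one_mul] at a4⟩⟩) ⟨p1, hp1, e1⟩ p2 hp2 e2
    · have ch : Continuous fun p : Ann => ((-p.1, 1 - p.2) : Ann) :=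
        continuous_fst.neg.prodMk (continuous_const.sub continuous_snd)
      refine ⟨δ, δ0, δ2, (fun p : Ann => ((-p.1, 1 - p.2) : Ann)) '' T,
        (hT.image _ ch.continuousOn).isPreconnected, ?_, ⟨_, ⟨p2, hp2, rfl⟩, ?_⟩,
        ⟨_, ⟨p1, hp1, rfl⟩, ?_⟩⟩
      · rintro _ ⟨p, hp, rfl⟩
        refine ⟨by show δ ≤ 1 - p.2; linarith [(hb p hp).2],
          by show 1 - p.2 ≤ 1 - δ; linarith [(hb p hp).1], fun x hx => ?_⟩
        have hx' : ((-x : ℝ) : AddCircle (1 : ℝ)) = p.1 := by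
          rw [AddCircle.coe_neg, hx]
          show - -p.1 = p.1
          rw [neg_neg]
        obtain ⟨u, a1, a2, a3, a4⟩ := hab p hp (-x) hx'
        rw [one_mul] at a4
        have g1 : c (-(1 - u)) = c u := by
          rw [← L.per (-(1 - u))]; congr 1; ring
        have g3 : c (-(x + (1 - p.2))) = c (-x + p.2) := by
          rw [← L.per (-(x + (1 - p.2)))]; congr 1; ring
        refine ⟨1 - u, by linarith, by show 1 - u < x + (1 - p.2); linarith, ?_, ?_⟩
        · rw [hg]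
          show c (-(1 - u)) = c (-x) + I * (c (-(x + (1 - p.2))) - c (-x))
          rw [g1, g3]
          exact a3
        · rw [hg]
          show RF (mgc c) (c (-x)) (c (-(x + (1 - p.2)))) (c (-(1 - u)))
          rw [g1, g3]
          exact ⟨a3, a4⟩
      · show 1 - p2.2 = δ
        rw [e2]; ring
      · show 1 - p1.2 = 1 - δ
        rw [e1]

theorem square_seal' (L : Loop c) (J : Inj c) {κ : ℂ} (hκ : κ = I ∨ κ = -I)
    (H : ∀ t, Mid c t ∨ Mon c t ∨ Hourglass c t ∨ Tan c t ∨ SealK c κ t) :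
    ∃ z w : ℂ, w ≠ 0 ∧ z ∈ range c ∧ z + w ∈ range c ∧ z + w + I * w ∈ range c ∧
      z + I * w ∈ range c := by
  rcases hκ with rfl | rfl
  · exact square_seal L J H
  obtain ⟨g, hg⟩ : ∃ g : ℝ → ℂ, g = fun s => conj (c (-s)) := ⟨_, rfl⟩
  have Lg : Loop g := by
    have := L.cont
    refine ⟨by rw [hg]; exact continuous_conj.comp (this.comp continuous_neg), fun s => ?_⟩
    rw [hg]
    simp only
    rw [← L.per (-(s + 1))]
    congr 2; ring
  have Jg : Inj g := by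
    intro x y h1 h2 h
    rw [hg] at h
    have h' := (starRingEnd ℂ).injective h
    exact (J (-y) (-x) (by linarith) (by linarith)).symm h'
  have hmem : ∀ z, z ∈ range g → conj z ∈ range c := by
    rintro _ ⟨s, rfl⟩
    rw [hg]
    exact ⟨-s, by simp⟩
  have key : ∀ t, Mid g t ∨ Mon g t ∨ Hourglass g t ∨ Tan g t ∨ Seal g (mgc g) t := by
    intro t
    rcases H (-t) with h | ⟨ρ, hρ, w, hw⟩ | h | h | ⟨a, b, ha, hb, hba, h⟩
    · have := mid_rev (mid_conj h)
      rw [neg_neg] at this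
      rw [hg]
      exact Or.inl this
    · refine Or.inr (Or.inl ⟨ρ, hρ, -conj w, fun x y h1 h2 h3 => ?_⟩)
      have := hw (-y) (-x) (by rw [← abs_neg]; convert h2 using 2; ring)
        (by rw [← abs_neg]; convert h1 using 2; ring) (by linarith)
      rw [hg]
      simp only
      rw [show -conj w * (conj (c (-y)) - conj (c (-x))) = conj (w * (c (-x) - c (-y))) by
        simp only [map_mul, map_sub]; ring, conj_re]
      exact this
    · have := conj_hour h
      rw [neg_neg] at this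
      rw [hg]
      exact Or.inr (Or.inr (Or.inl this))
    · have := h.rev.conj
      rw [neg_neg, ← hg] at this
      exact Or.inr (Or.inr (Or.inr (Or.inl this)))
    · refine Or.inr (Or.inr (Or.inr (Or.inr ⟨-b, -a, by linarith, by linarith, by linarith,
        fun x hx y hy u hu ho hR => ?_⟩)))
      refine h (-x) ⟨by linarith [hx.2], by linarith [hx.1]⟩ (-y)
        ⟨by linarith [hy.2], by linarith [hy.1]⟩ (-u) ⟨by linarith [hu.2], by linarith [hu.1]⟩ ?_ ?_
      · rcases ho with h | h | h | h | h | h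
        · exact Or.inr (Or.inr (Or.inr (Or.inl (by rw [h, neg_neg]))))
        · exact Or.inr (Or.inr (Or.inr (Or.inr (Or.inl (by rw [h, neg_neg])))))
        · exact Or.inr (Or.inr (Or.inr (Or.inr (Or.inr (by rw [h, neg_neg])))))
        · exact Or.inl (by rw [h, neg_neg])
        · exact Or.inr (Or.inl (by rw [h, neg_neg]))
        · exact Or.inr (Or.inr (Or.inl (by rw [h, neg_neg])))
      obtain ⟨e1, e2⟩ := hR
      rw [hg] at e1 e2
      simp only at e1 e2
      constructor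
      · have := congrArg conj e1
        simp only [map_add, map_mul, map_sub, conj_conj, conj_I] at this
        exact this
      · rw [mgc_conj L] at e2
        simp only [map_add, map_mul, map_sub, conj_conj, conj_I] at e2
        exact e2
  obtain ⟨z, w, hw, m1, m2, m3, m4⟩ := square_seal Lg Jg key
  refine ⟨conj (z + I * w), conj w, by rw [ne_eq, map_eq_zero]; exact hw, hmem _ m4, ?_, ?_, ?_⟩
  · have := hmem _ m3
    convert this using 1
    simp only [map_add, map_mul, conj_I]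
    ring
  · have := hmem _ m2
    convert this using 1
    simp only [map_add, map_mul, conj_I]
    ring
  · have := hmem _ m1
    convert this using 1
    simp only [map_add, map_mul, conj_I]
    ring

end Pool.Agent.U347.BT
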