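import Pool.Agent.U347.BT.Core
import Pool.Agent.U347.BT.Corner

/-! Points near which the curve turns little, and corners between two arcs that turn little. -/

set_option autoImplicit false
open Complex Set Topology Metric Filter
open scoped ComplexConjugate

namespace Pool.Agent.U347.BT

open Pool.Agent.H763R2 Pool.Agent.H763R2.An
open Pool.Agent.N335.Hg (Hourglass)

variable {c : ℝ → ℂ}

/-- `c s` is at distance less than `√2 |c y - c x|` from `c x` and from `c y` -/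
def Near3 (c : ℝ → ℂ) (x s y : ℝ) : Prop :=
  ‖c s - c x‖ < √2 * ‖c y - c x‖ ∧ ‖c s - c y‖ < √2 * ‖c y - c x‖

/-- small turning near the parameter `t` -/
def ThreePoint (c : ℝ → ℂ) (t : ℝ) : Prop :=
  ∃ ε > 0, ∀ x s y : ℝ, |x - t| < ε → |y - t| < ε → x < s → s < y → Near3 c x s y

theorem not_between {κ : ℂ} (hκ : κ = I ∨ κ = -I) {x u y : ℝ}
    (h : Near3 c x u y ∨ Near3 c y u x) : ¬ c u = c x + κ * (c y - c x) := by
  intro e
  have h1 : c u - c y = (κ - 1) * (c y - c x) := by rw [e]; ring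
  have h2 : ‖c u - c y‖ = √2 * ‖c y - c x‖ := by rw [h1, norm_mul, norm_kap_sub hκ]
  rcases h with h | h
  · exact absurd h.2 (by rw [h2]; exact lt_irrefl _)
  · have := h.1
    rw [h2, norm_sub_rev (c x) (c y)] at this
    exact lt_irrefl _ this

theorem nob_of_threePoint {κ : ℂ} (hκ : κ = I ∨ κ = -I) {t : ℝ} (h : ThreePoint c t) :
    NoB c κ t := by
  obtain ⟨ε, hε, h⟩ := h
  refine ⟨ε, hε, fun x y u hx hy _ ho hR => not_between hκ ?_ hR.1⟩
  rcases ho with ⟨h1, h2⟩ | ⟨h1, h2⟩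
  · exact Or.inl (h x u y hx hy h1 h2)
  · exact Or.inr (h y u x hy hx h1 h2)

/-- at `t` there are one-sided tangents with an angle of more than 45 degrees, and both sides turn
little -/
def Corner (c : ℝ → ℂ) (t : ℝ) : Prop :=
  ∃ (a b : ℂ) (ε : ℝ), ‖a‖ = 1 ∧ ‖b‖ = 1 ∧ (a * conj b).re < √2 / 2 ∧ 0 < ε ∧
    Tendsto (fun s => (c s - c t) / (‖c s - c t‖ : ℂ)) (𝓝[<] t) (𝓝 a) ∧
    Tendsto (fun s => (c s - c t) / (‖c s - c t‖ : ℂ)) (𝓝[>] t) (𝓝 b) ∧
    (∀ x s y : ℝ, t - ε < x → x < s → s < y → y ≤ t → Near3 c x s y) ∧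
    (∀ x s y : ℝ, t ≤ x → x < s → s < y → y < t + ε → Near3 c x s y)

theorem dir_est {z a : ℂ} {η : ℝ} (h : dist (z / (‖z‖ : ℂ)) a < η) :
    ‖z - ‖z‖ * a‖ ≤ η * ‖z‖ := by
  by_cases hz : z = 0
  · rw [hz]; simp
  have h0 : (‖z‖ : ℂ) ≠ 0 := ofReal_ne_zero.2 (norm_ne_zero_iff.2 hz)
  have h1 : z - ‖z‖ * a = (‖z‖ : ℂ) * (z / (‖z‖ : ℂ) - a) := by
    field_simp
  rw [h1, norm_mul, Complex.norm_real, norm_norm, mul_comm, ← dist_eq_norm]
  exact mul_le_mul_of_nonneg_right h.le (norm_nonneg _)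

/-- both cases together -/
theorem corner_no {a b p q v κ : ℂ} {η : ℝ} (ha : ‖a‖ = 1) (hb : ‖b‖ = 1)
    (hκ : κ = I ∨ κ = -I) (hη0 : 0 ≤ η) (hη : η ≤ 1 / 40)
    (hre : (a * conj b).re < √2 / 2 - 20 * η)
    (hp : ‖p - ‖p‖ * a‖ ≤ η * ‖p‖) (hq : ‖q - ‖q‖ * b‖ ≤ η * ‖q‖)
    (hv : (‖v - ‖v‖ * a‖ ≤ η * ‖v‖ ∧ ‖v‖ ≤ 2 * ‖p‖) ∨ ‖v - ‖v‖ * b‖ ≤ η * ‖v‖) (hp0 : p ≠ 0) :
    ¬ v - p = κ * (q - p) := by
  intro h
  rcases hv with ⟨h1, h2⟩ | h1
  · exact absurd (corner_i ha hb hκ hη0 hη hp hq h1 h2 hp0 h) (not_le.2 hre)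
  · exact absurd (corner_ii ha hb hκ hη0 hη hp hq h1 hp0 h) (not_le.2 hre)

theorem two_le {x y : ℝ} (hy : 0 ≤ y) (h : x < √2 * y) : x ≤ 2 * y := by
  have := s2b
  nlinarith

theorem nob_of_corner (J : Inj c) {κ : ℂ} (hκ : κ = I ∨ κ = -I) {t : ℝ} (h : Corner c t) :
    NoB c κ t := by
  obtain ⟨a, b, ε, ha, hb, hab, hε, ta, tb, hL, hR⟩ := h
  obtain ⟨η, hη⟩ : ∃ η, η = min (1 / 40) ((√2 / 2 - (a * conj b).re) / 40) := ⟨_, rfl⟩
  have hη0 : 0 < η := by rw [hη]; exact lt_min (by norm_num) (by linarith)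
  have hη1 : η ≤ 1 / 40 := by rw [hη]; exact min_le_left _ _
  have hη2 : η ≤ (√2 / 2 - (a * conj b).re) / 40 := by rw [hη]; exact min_le_right _ _
  have hre : (a * conj b).re < √2 / 2 - 20 * η := by linarith
  have hre' : (b * conj a).re < √2 / 2 - 20 * η := by
    have : (b * conj a).re = (a * conj b).re := by simp; ring
    rw [this]; exact hre
  obtain ⟨l, hl, hl'⟩ := (mem_nhdsLT_iff_exists_Ioo_subset).1 (ta (ball_mem_nhds a hη0))
  obtain ⟨r, hr, hr'⟩ := (mem_nhdsGT_iff_exists_Ioo_subset).1 (tb (ball_mem_nhds b hη0))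
  have hl : l < t := hl
  have hr : t < r := hr
  obtain ⟨e, he⟩ : ∃ e, e = min (min ε (1 / 2)) (min (t - l) (r - t)) := ⟨_, rfl⟩
  have e0 : 0 < e := by
    rw [he]
    exact lt_min (lt_min hε (by norm_num)) (lt_min (by linarith) (by linarith))
  have e1 : e ≤ ε := by rw [he]; exact (min_le_left _ _).trans (min_le_left _ _)
  have e2 : e ≤ 1 / 2 := by rw [he]; exact (min_le_left _ _).trans (min_le_right _ _)
  have e3 : e ≤ t - l := by rw [he]; exact (min_le_right _ _).trans (min_le_left _ _)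
  have e4 : e ≤ r - t := by rw [he]; exact (min_le_right _ _).trans (min_le_right _ _)
  have da : ∀ s, t - e < s → s ≤ t →
      ‖(c s - c t) - ‖c s - c t‖ * a‖ ≤ η * ‖c s - c t‖ := by
    intro s h1 h2
    rcases eq_or_lt_of_le h2 with h3 | h3
    · rw [h3]; simp
    · exact dir_est (hl' ⟨by linarith, h3⟩)
  have db : ∀ s, t ≤ s → s < t + e →
      ‖(c s - c t) - ‖c s - c t‖ * b‖ ≤ η * ‖c s - c t‖ := by
    intro s h1 h2
    rcases eq_or_lt_of_le h1 with h3 | h3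
    · rw [← h3]; simp
    · exact dir_est (hr' ⟨h3, by linarith⟩)
  refine ⟨e, e0, fun x y u hx hy hu ho hh => ?_⟩
  obtain ⟨hx1, hx2⟩ := abs_lt.1 hx
  obtain ⟨hy1, hy2⟩ := abs_lt.1 hy
  obtain ⟨hu1, hu2⟩ := abs_lt.1 hu
  have hh := hh.1
  have hvec : (c u - c t) - (c x - c t) = κ * ((c y - c t) - (c x - c t)) := by
    rw [hh]; ring
  rcases ho with ⟨o1, o2⟩ | ⟨o1, o2⟩
  · -- x < u < y
    rcases le_or_gt y t with hyt | hyt
    · exact not_between hκ (Or.inl (hL x u y (by linarith) o1 o2 hyt)) hh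
    rcases le_or_gt t x with hxt | hxt
    · exact not_between hκ (Or.inl (hR x u y hxt o1 o2 (by linarith))) hh
    have hp0 : c x - c t ≠ 0 := sub_ne_zero.2 (J x t hxt (by linarith))
    refine corner_no ha hb hκ hη0.le hη1 hre (da x (by linarith) hxt.le)
      (db y hyt.le (by linarith)) ?_ hp0 hvec
    rcases le_or_gt u t with hut | hut
    · refine Or.inl ⟨da u (by linarith) hut, ?_⟩
      rcases eq_or_lt_of_le hut with h3 | h3
      · rw [h3, sub_self, norm_zero]; positivity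
      · have := (hL x u t (by linarith) o1 h3 le_rfl).2
        rw [norm_sub_rev (c t) (c x)] at this
        exact two_le (norm_nonneg _) this
    · exact Or.inr (db u hut.le (by linarith))
  · -- y < u < x
    rcases le_or_gt x t with hxt | hxt
    · exact not_between hκ (Or.inr (hL y u x (by linarith) o1 o2 hxt)) hh
    rcases le_or_gt t y with hyt | hyt
    · exact not_between hκ (Or.inr (hR y u x hyt o1 o2 (by linarith))) hh
    have hp0 : c x - c t ≠ 0 := sub_ne_zero.2 (J t x hxt (by linarith)).symm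
    refine corner_no hb ha hκ hη0.le hη1 hre' (db x hxt.le (by linarith))
      (da y (by linarith) hyt.le) ?_ hp0 hvec
    rcases le_or_gt t u with hut | hut
    · refine Or.inl ⟨db u hut (by linarith), ?_⟩
      rcases eq_or_lt_of_le hut with h3 | h3
      · rw [← h3, sub_self, norm_zero]; positivity
      · exact two_le (norm_nonneg _) (hR t u x le_rfl h3 o2 (by linarith)).1
    · exact Or.inr (da u (by linarith) hut.le)

end Pool.Agent.U347.BT
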