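import Pool.Agent.U347.BT.Loc

/-! Jordan curves of bounded turning with a constant below `√2`, and curves whose chords are
comparable, up to a factor `√2`, with an increasing function of the distance of the parameters. -/

set_option autoImplicit false
open Complex Set Topology Metric Filter

namespace Pool.Agent.U347.BT

open Pool.Agent.H763R2 Pool.Agent.H763R2.An

variable {c : ℝ → ℂ}

/-- Any two different points `P`, `Q` of `C` with `|PQ| < r` are in a connected subset of `C` whose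
points are at distance less than `√2 |PQ|` from `P` and from `Q`. -/
def Turning (C : Set ℂ) : Prop :=
  ∃ r > 0, ∀ P ∈ C, ∀ Q ∈ C, P ≠ Q → dist P Q < r → ∃ E ⊆ C, IsPreconnected E ∧ P ∈ E ∧ Q ∈ E ∧
    ∀ z ∈ E, dist z P < √2 * dist P Q ∧ dist z Q < √2 * dist P Q

/-- A connected set through `c x` and `c y` contains one of two points that separate them. -/
theorem sep_mem (L : Loop c) (J : Inj c) {x s y s' : ℝ} (h1 : x < s) (h2 : s < y) (h3 : y < s')
    (h4 : s' < x + 1) {E : Set ℂ} (hE : E ⊆ range c) (hE' : IsPreconnected E) (hx : c x ∈ E)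
    (hy : c y ∈ E) : c s ∈ E ∨ c s' ∈ E := by
  have hcc := L.cont
  have hA : IsClosed (c '' Icc (s' - 1) s) := (isCompact_Icc.image hcc).isClosed
  have hB : IsClosed (c '' Icc s s') := (isCompact_Icc.image hcc).isClosed
  obtain ⟨z, hz, ⟨a, ha, haz⟩, ⟨b, hb, hbz⟩⟩ :=
    (isPreconnected_closed_iff.1 hE') _ _ hA hB (fun z hz => by
      obtain ⟨w, rfl⟩ := hE hz
      have hper : Function.Periodic c 1 := L.per
      obtain ⟨v, hv, hwv⟩ := hper.exists_mem_Ico one_pos w (s' - 1)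
      rw [hwv]
      rcases le_total v s with h | h
      · exact Or.inl ⟨v, ⟨hv.1, h⟩, rfl⟩
      · exact Or.inr ⟨v, ⟨h, by linarith [hv.2]⟩, rfl⟩)
      ⟨c x, hx, x, ⟨by linarith, h1.le⟩, rfl⟩ ⟨c y, hy, y, ⟨h2.le, h3.le⟩, rfl⟩
  rcases eq_or_lt_of_le (ha.2.trans hb.1) with h | h
  · have : a = s := le_antisymm ha.2 (h ▸ hb.1)
    rw [← this, haz]; exact Or.inl hz
  · by_cases h5 : b < a + 1
    · exact absurd (haz.trans hbz.symm) (J a b h h5)
    · have : b = s' := by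
        have := ha.1
        have := hb.2
        push Not at h5
        linarith
      rw [← this, hbz]; exact Or.inr hz

theorem half_dist (L : Loop c) (J : Inj c) : ∃ D > 0, ∀ s, D ≤ ‖c (s + 1 / 2) - c s‖ := by
  have hcc := L.cont
  have hf : Continuous fun s => ‖c (s + 1 / 2) - c s‖ := by fun_prop
  obtain ⟨z, -, hz⟩ := (isCompact_Icc (a := (0:ℝ)) (b := 1)).exists_isMinOn ⟨0, by simp⟩
    hf.continuousOn
  refine ⟨‖c (z + 1 / 2) - c z‖, norm_pos_iff.2 (sub_ne_zero.2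
    (J z (z + 1 / 2) (by linarith) (by linarith)).symm), fun s => ?_⟩
  have hper : Function.Periodic (fun s => ‖c (s + 1 / 2) - c s‖) 1 := by
    intro s
    show ‖c (s + 1 + 1 / 2) - c (s + 1)‖ = ‖c (s + 1 / 2) - c s‖
    rw [L.per s, show s + 1 + 1 / 2 = (s + 1 / 2) + 1 by ring, L.per]
  obtain ⟨v, hv, hsv⟩ := hper.exists_mem_Ico₀ one_pos s
  have h1 : ‖c (s + 1 / 2) - c s‖ = ‖c (v + 1 / 2) - c v‖ := hsv
  rw [h1]
  exact hz ⟨hv.1, hv.2.le⟩

theorem threePoint_of_turning (L : Loop c) (J : Inj c) (h : Turning (range c)) (t : ℝ) :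
    ThreePoint c t := by
  obtain ⟨r, hr, h⟩ := h
  obtain ⟨D, hD, hDD⟩ := half_dist L J
  have hcc := L.cont
  obtain ⟨m, hm⟩ : ∃ m, m = min r (D / 2) := ⟨_, rfl⟩
  have m0 : 0 < m := by rw [hm]; exact lt_min hr (by linarith)
  have m1 : m ≤ r := by rw [hm]; exact min_le_left _ _
  have m2 : m ≤ D / 2 := by rw [hm]; exact min_le_right _ _
  obtain ⟨e, he, hee⟩ := Metric.continuousAt_iff.1 (hcc.continuousAt (x := t)) (m / 2)
    (by linarith)
  refine ⟨min e (1 / 4), lt_min he (by norm_num), fun x s y hx hy h1 h2 => ?_⟩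
  have hx1 : dist x t < e := lt_of_lt_of_le hx (min_le_left _ _)
  have hy1 : dist y t < e := lt_of_lt_of_le hy (min_le_left _ _)
  have hx2 := abs_lt.1 (lt_of_lt_of_le hx (min_le_right _ _))
  have hy2 := abs_lt.1 (lt_of_lt_of_le hy (min_le_right _ _))
  have hdist : dist (c x) (c y) < m := by
    have h3 := hee hx1
    have h4 := hee hy1
    have h5 := dist_triangle_right (c x) (c y) (c t)
    linarith
  obtain ⟨E, hE, hE', hxE, hyE, hz⟩ := h (c x) ⟨x, rfl⟩ (c y) ⟨y, rfl⟩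
    (J x y (by linarith) (by linarith [hx2.1, hy2.2])) (by linarith)
  rcases sep_mem L J h1 h2 (s' := x + 1 / 2) (by linarith [hx2.1, hy2.2]) (by linarith) hE hE'
    hxE hyE with h6 | h6
  · obtain ⟨h7, h8⟩ := hz _ h6
    rw [dist_comm (c x) (c y), dist_eq_norm, dist_eq_norm] at h7
    rw [dist_comm (c x) (c y), dist_eq_norm, dist_eq_norm] at h8
    exact ⟨h7, h8⟩
  · exfalso
    have h7 := (hz _ h6).1
    rw [dist_eq_norm] at h7
    have h8 := hDD x
    have h9 := s2b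
    have h10 : (0:ℝ) ≤ dist (c x) (c y) := dist_nonneg
    nlinarith

/-- Any two different points `P`, `Q` of `C` in the disc of radius `r` around `p` are in a connected
subset of `C` whose points are at distance less than `√2 |PQ|` from `P` and from `Q`. -/
def TurningAt (C : Set ℂ) (p : ℂ) : Prop :=
  ∃ r > 0, ∀ P ∈ C, ∀ Q ∈ C, P ≠ Q → dist P p < r → dist Q p < r →
    ∃ E ⊆ C, IsPreconnected E ∧ P ∈ E ∧ Q ∈ E ∧
      ∀ z ∈ E, dist z P < √2 * dist P Q ∧ dist z Q < √2 * dist P Q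

theorem threePoint_of_turningAt (L : Loop c) (J : Inj c) {t : ℝ} (h : TurningAt (range c) (c t)) :
    ThreePoint c t := by
  obtain ⟨r, hr, h⟩ := h
  obtain ⟨D, hD, hDD⟩ := half_dist L J
  have hcc := L.cont
  obtain ⟨m, hm⟩ : ∃ m, m = min r (D / 4) := ⟨_, rfl⟩
  have m0 : 0 < m := by rw [hm]; exact lt_min hr (by linarith)
  have m1 : m ≤ r := by rw [hm]; exact min_le_left _ _
  have m2 : m ≤ D / 4 := by rw [hm]; exact min_le_right _ _
  obtain ⟨e, he, hee⟩ := Metric.continuousAt_iff.1 (hcc.continuousAt (x := t)) m m0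
  refine ⟨min e (1 / 4), lt_min he (by norm_num), fun x s y hx hy h1 h2 => ?_⟩
  have hx1 : dist x t < e := lt_of_lt_of_le hx (min_le_left _ _)
  have hy1 : dist y t < e := lt_of_lt_of_le hy (min_le_left _ _)
  have hx2 := abs_lt.1 (lt_of_lt_of_le hx (min_le_right _ _))
  have hy2 := abs_lt.1 (lt_of_lt_of_le hy (min_le_right _ _))
  have h3 := hee hx1
  have h4 := hee hy1
  have hdist : dist (c x) (c y) < D / 2 := by
    have h5 := dist_triangle_right (c x) (c y) (c t)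
    linarith
  obtain ⟨E, hE, hE', hxE, hyE, hz⟩ := h (c x) ⟨x, rfl⟩ (c y) ⟨y, rfl⟩
    (J x y (by linarith) (by linarith [hx2.1, hy2.2])) (by linarith) (by linarith)
  rcases sep_mem L J h1 h2 (s' := x + 1 / 2) (by linarith [hx2.1, hy2.2]) (by linarith) hE hE'
    hxE hyE with h6 | h6
  · obtain ⟨h7, h8⟩ := hz _ h6
    rw [dist_comm (c x) (c y), dist_eq_norm, dist_eq_norm] at h7
    rw [dist_comm (c x) (c y), dist_eq_norm, dist_eq_norm] at h8
    exact ⟨h7, h8⟩
  · exfalso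
    have h7 := (hz _ h6).1
    rw [dist_eq_norm] at h7
    have h8 := hDD x
    have h9 := s2b
    have h10 : (0:ℝ) ≤ dist (c x) (c y) := dist_nonneg
    nlinarith

/-- near `t` the chords are comparable up to a factor `√2` with an increasing function of the
distance of the parameters -/
def GaugeAt (c : ℝ → ℂ) (t : ℝ) : Prop :=
  ∃ (φ : ℝ → ℝ) (ε : ℝ), 0 < ε ∧ StrictMonoOn φ (Ioo 0 (2 * ε)) ∧
    ∀ x y : ℝ, |x - t| < ε → |y - t| < ε → x < y →
      φ (y - x) ≤ ‖c y - c x‖ ∧ ‖c y - c x‖ ≤ √2 * φ (y - x)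

theorem threePoint_of_gauge {t : ℝ} (h : GaugeAt c t) : ThreePoint c t := by
  obtain ⟨φ, ε, hε, hφ, h⟩ := h
  refine ⟨ε, hε, fun x s y hx hy h1 h2 => ?_⟩
  obtain ⟨hx1, hx2⟩ := abs_lt.1 hx
  obtain ⟨hy1, hy2⟩ := abs_lt.1 hy
  have hs : |s - t| < ε := abs_lt.2 ⟨by linarith, by linarith⟩
  have hxy := (h x y hx hy (h1.trans h2)).1
  have hxs := (h x s hx hs h1).2
  have hsy := (h s y hs hy h2).2
  have s0 : 0 < √2 := by positivity
  have a1 : φ (s - x) < φ (y - x) :=
    hφ ⟨by linarith, by linarith⟩ ⟨by linarith, by linarith⟩ (by linarith)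
  have a2 : φ (y - s) < φ (y - x) :=
    hφ ⟨by linarith, by linarith⟩ ⟨by linarith, by linarith⟩ (by linarith)
  constructor
  · calc ‖c s - c x‖ ≤ √2 * φ (s - x) := hxs
      _ < √2 * φ (y - x) := mul_lt_mul_of_pos_left a1 s0
      _ ≤ √2 * ‖c y - c x‖ := mul_le_mul_of_nonneg_left hxy s0.le
  · calc ‖c s - c y‖ = ‖c y - c s‖ := norm_sub_rev _ _
      _ ≤ √2 * φ (y - s) := hsy
      _ < √2 * φ (y - x) := mul_lt_mul_of_pos_left a2 s0
      _ ≤ √2 * ‖c y - c x‖ := mul_le_mul_of_nonneg_left hxy s0.le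

/-- snowflake arcs -/
theorem gauge_of_power {t m α ε : ℝ} (hε : 0 < ε) (hm : 0 < m) (hα : 0 < α)
    (h : ∀ x y : ℝ, |x - t| < ε → |y - t| < ε → x < y →
      m * (y - x) ^ α ≤ ‖c y - c x‖ ∧ ‖c y - c x‖ ≤ √2 * (m * (y - x) ^ α)) : GaugeAt c t := by
  refine ⟨fun h => m * h ^ α, ε, hε, fun a ha b _ hab => ?_, h⟩
  exact mul_lt_mul_of_pos_left (Real.rpow_lt_rpow ha.1.le hab hα) hm

end Pool.Agent.U347.BT
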