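import Pool.Agent.N335.Hg.Crn7
import Pool.Agent.U347.BT.Metric

/-! Points near which every isosceles right triangle on the curve has its right angle at the vertex
between the two others. The arc between the right angle and an acute vertex does not wind around the
fourth vertex of the square. -/

set_option autoImplicit false
open Complex Set Topology Metric Filter
open scoped ComplexConjugate

namespace Pool.Agent.U347.BT

open Pool.Agent.H763R2 Pool.Agent.H763R2.An
open Pool.Agent.H763R2.Dm (NoSq)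
open Pool.Agent.Y765.Sq (Ann exists_int exists_rep TriM tri_fam)
open Pool.Agent.N335.Hg

variable {c : ℝ → ℂ}

/-- Near the parameter `t` the right angle of every isosceles right triangle with vertices on the
curve is at the vertex between the two other vertices. -/
def Mid (c : ℝ → ℂ) (t : ℝ) : Prop :=
  ∃ ε > 0, ∀ (x s y : ℝ) (κ : ℂ), |x - t| < ε → |y - t| < ε → x < s → s < y →
    (κ = I ∨ κ = -I) → c s ≠ c x + κ * (c y - c x) ∧ c s ≠ c y + κ * (c x - c y)

theorem mid_of_threePoint {t : ℝ} (h : ThreePoint c t) : Mid c t := by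
  obtain ⟨ε, hε, h⟩ := h
  refine ⟨ε, hε, fun x s y κ hx hy h1 h2 hκ => ⟨fun e => ?_, fun e => ?_⟩⟩
  · exact not_between hκ (Or.inl (h x s y hx hy h1 h2)) e
  · exact not_between hκ (Or.inr (h x s y hx hy h1 h2)) e

theorem mid_rev {t : ℝ} (h : Mid c t) : Mid (fun s => c (-s)) (-t) := by
  obtain ⟨ε, hε, h⟩ := h
  refine ⟨ε, hε, fun x s y κ hx hy h1 h2 hκ => ?_⟩
  have := h (-y) (-s) (-x) κ (by rw [← abs_neg]; convert hy using 2; ring)
    (by rw [← abs_neg]; convert hx using 2; ring) (by linarith) (by linarith) hκ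
  exact ⟨this.2, this.1⟩

theorem mid_conj {t : ℝ} (h : Mid c t) : Mid (fun s => conj (c s)) t := by
  obtain ⟨ε, hε, h⟩ := h
  refine ⟨ε, hε, fun x s y κ hx hy h1 h2 hκ => ?_⟩
  have hκ' : conj κ = I ∨ conj κ = -I := by
    rcases hκ with rfl | rfl
    · right; simp
    · left; simp
  have := h x s y (conj κ) hx hy h1 h2 hκ'
  constructor
  · intro e
    refine this.1 ?_
    have h3 := congrArg conj e
    simp only [map_add, map_mul, map_sub, conj_conj] at h3
    exact h3
  · intro e
    refine this.2 ?_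
    have h3 := congrArg conj e
    simp only [map_add, map_mul, map_sub, conj_conj] at h3
    exact h3

/-- The arc over `[x, y]` does not wind around the point `c x + κ (c x - c y)`. -/
theorem mid_arc (L : Loop c) (J : Inj c) {κ : ℂ} (hκ : κ = I ∨ κ = -I) {x y : ℝ} (hxy : x < y)
    (hy1 : y < x + 1)
    (hM : ∀ r τ, x ≤ r → r < τ → τ < y → c τ ≠ c r + κ * (c r - c y))
    {k : ℝ → ℂ} (hk : Lg c (c x + κ * (c x - c y)) k) : |(k y - k x).im| < Real.pi := by
  have cc := L.cont
  have kn := norm_kap hκ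
  have kk := kap_sq hκ
  have hκ0 : κ ≠ 0 := by
    intro h; rw [h] at kn; simp at kn
  -- the last point of the arc as far from `c y` as `c x`
  obtain ⟨f, hf⟩ : ∃ f : ℝ → ℝ, f = fun r => ‖c r - c y‖ := ⟨_, rfl⟩
  have cf : Continuous f := by rw [hf]; fun_prop
  have fy : f y = 0 := by rw [hf]; simp
  have fx : 0 < f x := by
    rw [hf]; exact norm_pos_iff.2 (sub_ne_zero.2 (J x y hxy hy1))
  obtain ⟨r1, hr1, hlast⟩ : ∃ r1 ∈ Icc x y, f x ≤ f r1 ∧ ∀ τ ∈ Icc x y, f x ≤ f τ → τ ≤ r1 := by
    have hK : IsCompact (Icc x y ∩ {r | f x ≤ f r}) :=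
      isCompact_Icc.inter_right (isClosed_le continuous_const cf)
    obtain ⟨r1, hr1, hmax⟩ := hK.exists_isMaxOn ⟨x, ⟨le_rfl, hxy.le⟩, by simp⟩ continuousOn_id
    exact ⟨r1, hr1.1, hr1.2, fun τ h1 h2 => hmax ⟨h1, h2⟩⟩
  obtain ⟨hfr1, hlast⟩ := hlast
  have r1y : r1 < y := by
    rcases eq_or_lt_of_le hr1.2 with h | h
    · rw [h, fy] at hfr1; linarith
    · exact h
  have hin : ∀ τ ∈ Icc r1 y, f τ ≤ f r1 := by
    intro τ hτ
    rcases eq_or_lt_of_le hτ.1 with h | h
    · rw [h]
    · by_contra hc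
      push Not at hc
      exact absurd (hlast τ ⟨hr1.1.trans hτ.1, hτ.2⟩ (hfr1.trans hc.le)) (not_le.2 h)
  -- the map
  obtain ⟨cl, hcl⟩ : ∃ cl : ℝ → ℝ, cl = fun r => max x (min r r1) := ⟨_, rfl⟩
  obtain ⟨cs, hcs⟩ : ∃ cs : ℝ → ℝ, cs = fun σ => max 0 (min σ 1) := ⟨_, rfl⟩
  have ccl : Continuous cl := by rw [hcl]; fun_prop
  have ccs : Continuous cs := by rw [hcs]; fun_prop
  have cl1 : ∀ r, x ≤ cl r := fun r => by rw [hcl]; exact le_max_left _ _
  have cl2 : ∀ r, cl r ≤ r1 := fun r => by rw [hcl]; exact max_le hr1.1 (min_le_right _ _)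
  have cs1 : ∀ σ, 0 ≤ cs σ := fun σ => by rw [hcs]; exact le_max_left _ _
  have cs2 : ∀ σ, cs σ ≤ 1 := fun σ => by rw [hcs]; exact max_le zero_le_one (min_le_right _ _)
  have clx : cl x = x := by rw [hcl]; simp [hr1.1]
  have clr : cl r1 = r1 := by rw [hcl]; simp [hr1.1]
  have cs0 : cs 0 = 0 := by rw [hcs]; simp
  have cs1' : cs 1 = 1 := by rw [hcs]; simp
  obtain ⟨W, hW⟩ : ∃ W : ℝ → ℂ, W = fun r => c r + κ * (c r - c y) := ⟨_, rfl⟩
  have cW : Continuous W := by rw [hW]; fun_prop
  obtain ⟨A, hA⟩ : ∃ A : ℝ × ℝ → ℝ, A = fun p => cl p.1 + cs p.2 * (y - cl p.1) := ⟨_, rfl⟩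
  have cA : Continuous A := by rw [hA]; fun_prop
  have A1 : ∀ p, cl p.1 ≤ A p := fun p => by
    rw [hA]
    have := mul_nonneg (cs1 p.2) (show 0 ≤ y - cl p.1 by linarith [cl2 p.1])
    simp only; linarith
  have A2 : ∀ p, A p ≤ y := fun p => by
    rw [hA]
    have := mul_le_mul_of_nonneg_right (cs2 p.2) (show 0 ≤ y - cl p.1 by linarith [cl2 p.1])
    simp only; linarith
  have hne : ∀ r, x ≤ r → r ≤ r1 → c r - c y ≠ 0 := fun r h1 h2 =>
    sub_ne_zero.2 (J r y (by linarith) (by linarith))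
  have hG : ∀ p, c (A p) - W (cl p.1) ≠ 0 := by
    intro p h0
    have h1 := cl1 p.1
    have h2 := cl2 p.1
    have hn := hne _ h1 h2
    have h0' : c (A p) = c (cl p.1) + κ * (c (cl p.1) - c y) := by
      rw [hW] at h0; exact sub_eq_zero.1 h0
    rcases eq_or_lt_of_le (A1 p) with h3 | h3
    · rw [← h3] at h0'
      have : κ * (c (cl p.1) - c y) = 0 := by linear_combination -h0'
      exact mul_ne_zero hκ0 hn this
    · rcases eq_or_lt_of_le (A2 p) with h4 | h4
      · rw [h4] at h0'
        have h5 : (1 + κ) * (c (cl p.1) - c y) = 0 := by linear_combination -h0'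
        rcases mul_eq_zero.1 h5 with h6 | h6
        · have : κ = -1 := by linear_combination h6
          rw [this] at kk
          norm_num at kk
        · exact hn h6
      · exact hM _ _ h1 h3 h4 h0'
  obtain ⟨K, cK, hK⟩ := H777R2.exists_log (X := ℝ × ℝ) (g := fun p => c (A p) - W (cl p.1))
    (by fun_prop) hG
  -- the variation does not depend on `r`
  have hh : K (x, 1) - K (x, 0) = K (r1, 1) - K (r1, 0) := by
    refine H777R2.exp_const (X := ℝ) (k := fun r => K (r, 1) - K (r, 0)) (by fun_prop)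
      (c := (1 + κ) / κ) (fun r => ?_) x r1
    have h1 := cl1 r
    have h2 := cl2 r
    have hn := hne _ h1 h2
    have e1 : A (r, 1) = y := by rw [hA]; simp only; rw [cs1']; ring
    have e0 : A (r, 0) = cl r := by rw [hA]; simp only; rw [cs0]; ring
    rw [exp_sub, hK, hK]
    simp only
    rw [e1, e0, hW]
    simp only
    have e3 : c (cl r) - (c (cl r) + κ * (c (cl r) - c y)) = -(κ * (c (cl r) - c y)) := by ring
    have e4 : c y - (c (cl r) + κ * (c (cl r) - c y)) = -((1 + κ) * (c (cl r) - c y)) := by ring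
    rw [e3, e4, neg_div_neg_eq, mul_div_mul_right _ _ hn]
  -- at `r1` the arc is seen in a half plane
  have hhalf : |(K (r1, 1) - K (r1, 0)).im| < Real.pi := by
    obtain ⟨w, hw⟩ : ∃ w, w = c y - W r1 := ⟨_, rfl⟩
    have hwn : w = -((1 + κ) * (c r1 - c y)) := by rw [hw, hW]; ring
    have hnorm : ‖w‖ = √2 * f r1 := by
      rw [hwn, norm_neg, norm_mul]
      have : ‖1 + κ‖ = √2 := by
        have h3 : ‖-κ - 1‖ = √2 := norm_kap_sub (κ := -κ) (by
          rcases hκ with h | h
          · right; rw [h]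
          · left; rw [h, neg_neg])
        rw [← h3, ← norm_neg]
        congr 1; ring
      rw [this, hf]
    have hf1 : 0 < f r1 := lt_of_lt_of_le fx hfr1
    have hw0 : conj w ≠ 0 := by
      rw [ne_eq, map_eq_zero]
      intro h
      rw [h, norm_zero] at hnorm
      have : 0 < √2 * f r1 := by positivity
      linarith
    obtain ⟨v, hv⟩ : ∃ v, exp v = conj w := ⟨log (conj w), exp_log hw0⟩
    have := close_of_cos (φ := fun σ => (K (r1, σ) + v).im) (Y := Icc 0 1) isPreconnected_Icc
      (by fun_prop) (fun σ hσ => by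
        have h2 : 0 < (conj w * (c (A (r1, σ)) - W (cl r1))).re := by
          rw [clr]
          have e : conj w * (c (A (r1, σ)) - W r1) = conj w * w + conj w * (c (A (r1, σ)) - c y) := by
            rw [hw]; ring
          have e2 : conj w * w = ((‖w‖ ^ 2 : ℝ) : ℂ) := by
            rw [mul_comm, Complex.mul_conj, Complex.normSq_eq_norm_sq]
          rw [e, add_re, e2, ofReal_re]
          have h3 : |(conj w * (c (A (r1, σ)) - c y)).re| ≤ ‖w‖ * f r1 := by
            refine (abs_re_le_norm _).trans ?_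
            rw [norm_mul, norm_conj]
            refine mul_le_mul_of_nonneg_left ?_ (norm_nonneg _)
            have h4 : r1 ≤ A (r1, σ) := by
              have := A1 (r1, σ)
              simp only [clr] at this
              exact this
            have := hin (A (r1, σ)) ⟨h4, A2 _⟩
            rw [hf] at this ⊢
            exact this
          have h4 := (abs_le.1 h3).1
          have h5 := s2a
          rw [hnorm] at h4 ⊢
          have h6 : (√2 * f r1) ^ 2 = 2 * f r1 ^ 2 := by
            rw [mul_pow, Real.sq_sqrt (by norm_num)]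
          rw [h6]
          have h7 := s2b
          have h8 : 0 < f r1 ^ 2 := by positivity
          nlinarith
        have h9 := hK (r1, σ)
        simp only at h9
        rw [← h9, ← hv, ← exp_add, exp_re, add_comm v] at h2
        exact (mul_pos_iff_of_pos_left (Real.exp_pos _)).1 h2) (y₀ := 0) (y₁ := 1)
      ⟨le_rfl, zero_le_one⟩ ⟨zero_le_one, le_rfl⟩
    convert this using 2
    simp only [add_im, sub_im]
    ring
  -- compare with the given logarithm
  obtain ⟨hk, ek⟩ := hk
  have hcmp : k (A (x, 1)) - K (x, 1) = k (A (x, 0)) - K (x, 0) := by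
    refine H777R2.exp_const (X := ℝ) (k := fun σ => k (A (x, σ)) - K (x, σ)) (by fun_prop)
      (c := 1) (fun σ => ?_) 1 0
    rw [exp_sub, ek, hK]
    simp only
    rw [clx, hW]
    simp only
    refine div_self ?_
    have := hG (x, σ)
    simp only at this
    rw [clx, hW] at this
    exact this
  have e1 : A (x, 1) = y := by rw [hA]; simp only; rw [cs1']; ring
  have e0 : A (x, 0) = x := by rw [hA]; simp only; rw [cs0, clx]; ring
  rw [e1, e0] at hcmp
  have : k y - k x = K (r1, 1) - K (r1, 0) := by rw [← hh]; linear_combination hcmp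
  rw [this]
  exact hhalf

/-- the long end with the vertices in the order `Q`, `P`, `V` -/
theorem mid_long2 (L : Loop c) (J : Inj c) (nosq : NoSq (range c)) {δ a : ℝ}
    (hδ : 0 < δ) {q : ℝ × ℝ × ℝ} (hq : q ∈ Mm c δ a)
    (hM : ∀ r τ, q.1 + q.2.1 - 1 ≤ r → r < τ → τ < q.1 → c τ ≠ c r + I * (c r - c q.1))
    {n : ℤ} (hn : n ≠ 0) (hw : IsWc c (E4 c q) n) :
    ¬ (m1 c q = -(Real.pi / 4) ∧ m2 c q = Real.pi / 2) := by
  rintro ⟨g1, g2⟩
  have hπ := Real.pi_pos
  have s := Mm_strict J hδ hq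
  have hE := E4_notMem J nosq hδ hq
  have eQ : c (q.1 + q.2.1 - 1) = c (q.1 + q.2.1) := by
    rw [← L.per (q.1 + q.2.1 - 1)]; congr 1; ring
  obtain ⟨k, hk⟩ := exists_Lg L hE
  have hE4 : E4 c q = c (q.1 + q.2.1 - 1) + I * (c (q.1 + q.2.1 - 1) - c q.1) := by
    rw [eQ]; rfl
  have hc := mid_arc L J (κ := I) (Or.inl rfl) (x := q.1 + q.2.1 - 1) (y := q.1)
    (by linarith [s.2.2]) (by linarith [s.1, s.2.1]) hM (k := k) (by rw [← hE4]; exact hk)
  rw [← Phi_eq hk] at hc
  have e1 := Phi_wind L hw (q.1 + q.2.1 - 1)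
  rw [sub_add_cancel] at e1
  have e2 := Phi_add L hE (q.1 + q.2.1 - 1) q.1 q.2.2
  have e3 := Phi_add L hE (q.1 + q.2.1 - 1) q.2.2 (q.1 + q.2.1)
  unfold m1 at g1
  unfold m2 at g2
  rw [abs_lt] at hc
  have : n = 0 := int_zero_of (x := Phi c (E4 c q) (q.1 + q.2.1 - 1) q.1 + Real.pi / 4)
    (by linarith) (by linarith [hc.1]) (by linarith [hc.2])
  exact hn this

end Pool.Agent.U347.BT
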