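import Pool.Agent.N335.Hg.Phi

/-! The variation of the direction along an arc, from a point that is joined with a distant point by
a path which avoids the arc and a broken line with the same ends. -/

set_option autoImplicit false
open Complex Set Topology Metric
open scoped ComplexConjugate

namespace Pool.Agent.U347.BT

open Pool.Agent.H763R2 Pool.Agent.H763R2.An
open Pool.Agent.N335.Hg

theorem slit_of_seg {p q z : ℂ} (h : z ∉ segment ℝ p q) : (q - z) / (p - z) ∈ slitPlane := by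
  have hp : p - z ≠ 0 := by
    intro h0
    exact h (by rw [← sub_eq_zero.1 h0]; exact left_mem_segment ℝ _ _)
  by_contra hc
  rw [mem_slitPlane_iff, not_or, not_lt, not_not] at hc
  obtain ⟨h1, h2⟩ := hc
  obtain ⟨t, ht⟩ : ∃ t : ℝ, t = ((q - z) / (p - z)).re := ⟨_, rfl⟩
  have e : (q - z) / (p - z) = (t : ℂ) := by
    apply Complex.ext
    · rw [ofReal_re, ht]
    · rw [ofReal_im, h2]
  rw [div_eq_iff hp] at e
  rw [← ht] at h1
  refine h ⟨-t / (1 - t), 1 / (1 - t), div_nonneg (by linarith) (by linarith),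
    div_nonneg zero_le_one (by linarith), ?_, ?_⟩
  · have : (1 : ℝ) - t ≠ 0 := by linarith
    field_simp
    ring
  · have h3 : (1 : ℂ) - t ≠ 0 := by
      have : (1 : ℝ) - t ≠ 0 := by linarith
      exact_mod_cast this
    rw [real_smul, real_smul]
    push_cast
    field_simp
    linear_combination e

theorem log_div_pos {X Y : ℂ} (hX : 0 < X.re) (hY : 0 < Y.re) : log (X / Y) = log X - log Y := by
  have X0 : X ≠ 0 := by rintro rfl; simp at hX
  have Y0 : Y ≠ 0 := by rintro rfl; simp at hY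
  have h1 := abs_lt.1 (abs_arg_lt_pi_div_two_iff.2 (Or.inl hX))
  have h2 := abs_lt.1 (abs_arg_lt_pi_div_two_iff.2 (Or.inl hY))
  have e : X / Y = exp (log X - log Y) := by rw [exp_sub, exp_log X0, exp_log Y0]
  rw [e, log_exp]
  · rw [sub_im, log_im, log_im]; linarith
  · rw [sub_im, log_im, log_im]; linarith

/-- unwinding an arc -/
theorem unwind {A : ℝ → ℂ} (hA : Continuous A) {a b : ℝ} (hab : a ≤ b) {γ : ℝ → ℂ}
    (hγ : Continuous γ) {m p : ℂ} {r : ℝ}
    (h1 : ∀ s ∈ Icc (0:ℝ) 1, ∀ τ ∈ Icc a b, A τ ≠ γ s)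
    (h2 : ∀ s ∈ Icc (0:ℝ) 1, γ s ∉ segment ℝ (A a) m)
    (h3 : ∀ s ∈ Icc (0:ℝ) 1, γ s ∉ segment ℝ m (A b))
    (h4 : ∀ τ ∈ Icc a b, A τ ∈ ball p r) (h5 : m ∈ ball p r) (h6 : γ 1 ∉ ball p r)
    {k : ℝ → ℂ} (hk : ContinuousOn k (Icc a b)) (ek : ∀ τ ∈ Icc a b, exp (k τ) = A τ - γ 0) :
    k b - k a = log ((m - γ 0) / (A a - γ 0)) + log ((A b - γ 0) / (m - γ 0)) := by
  obtain ⟨cl, hcl⟩ : ∃ cl : ℝ → ℝ, cl = fun r => max a (min r b) := ⟨_, rfl⟩
  obtain ⟨cs, hcs⟩ : ∃ cs : ℝ → ℝ, cs = fun σ => max 0 (min σ 1) := ⟨_, rfl⟩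
  have ccl : Continuous cl := by rw [hcl]; fun_prop
  have ccs : Continuous cs := by rw [hcs]; fun_prop
  have clm : ∀ τ, cl τ ∈ Icc a b := fun τ => by
    rw [hcl]; exact ⟨le_max_left _ _, max_le hab (min_le_right _ _)⟩
  have csm : ∀ σ, cs σ ∈ Icc (0:ℝ) 1 := fun σ => by
    rw [hcs]; exact ⟨le_max_left _ _, max_le zero_le_one (min_le_right _ _)⟩
  have cle : ∀ τ ∈ Icc a b, cl τ = τ := fun τ hτ => by
    rw [hcl]; simp only; rw [min_eq_left hτ.2, max_eq_right hτ.1]
  have cs0 : cs 0 = 0 := by rw [hcs]; simp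
  have cs1 : cs 1 = 1 := by rw [hcs]; simp
  have cla : cl a = a := cle a ⟨le_rfl, hab⟩
  have clb : cl b = b := cle b ⟨hab, le_rfl⟩
  obtain ⟨K, cK, hK⟩ := H777R2.exists_log (X := ℝ × ℝ) (g := fun q => A (cl q.2) - γ (cs q.1))
    (by fun_prop) (fun q => sub_ne_zero.2 (h1 _ (csm _) _ (clm _)))
  have na : ∀ s, A a - γ (cs s) ≠ 0 := fun s => sub_ne_zero.2 (h1 _ (csm _) _ ⟨le_rfl, hab⟩)
  have nb : ∀ s, A b - γ (cs s) ≠ 0 := fun s => sub_ne_zero.2 (h1 _ (csm _) _ ⟨hab, le_rfl⟩)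
  have nm : ∀ s, m - γ (cs s) ≠ 0 := fun s h0 => h2 _ (csm s) (by
    rw [← sub_eq_zero.1 h0]; exact right_mem_segment ℝ _ _)
  have key := H777R2.exp_const (X := ℝ) (k := fun s => K (s, b) - K (s, a) -
      log ((m - γ (cs s)) / (A a - γ (cs s))) - log ((A b - γ (cs s)) / (m - γ (cs s))))
    (by
      refine Continuous.sub (Continuous.sub (by fun_prop) ?_) ?_
      · refine Continuous.clog ?_ fun s => slit_of_seg (h2 _ (csm s))
        exact Continuous.div (by fun_prop) (by fun_prop) na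
      · refine Continuous.clog ?_ fun s => slit_of_seg (h3 _ (csm s))
        exact Continuous.div (by fun_prop) (by fun_prop) nm) (c := 1) (fun s => by
      rw [exp_sub, exp_sub, exp_sub, hK, hK, exp_log (div_ne_zero (nm s) (na s)),
        exp_log (div_ne_zero (nb s) (nm s))]
      simp only
      rw [cla, clb]
      have := na s
      have := nb s
      have := nm s
      field_simp) 0 1
  simp only [cs0, cs1] at key
  -- at the distant end
  have hz1 : r ≤ ‖p - γ 1‖ := by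
    rw [mem_ball, not_lt, dist_comm, dist_eq_norm] at h6; exact h6
  have hpos : ∀ ξ ∈ ball p r, 0 < (conj (p - γ 1) * (ξ - γ 1)).re := by
    intro ξ hξ
    rw [mem_ball, dist_eq_norm] at hξ
    have e : conj (p - γ 1) * (ξ - γ 1) = conj (p - γ 1) * (p - γ 1) +
        conj (p - γ 1) * (ξ - p) := by ring
    have e2 : conj (p - γ 1) * (p - γ 1) = ((‖p - γ 1‖ ^ 2 : ℝ) : ℂ) := by
      rw [mul_comm, Complex.mul_conj, Complex.normSq_eq_norm_sq]
    rw [e, add_re, e2, ofReal_re]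
    have h7 := (abs_le.1 (abs_re_le_norm (conj (p - γ 1) * (ξ - p)))).1
    rw [norm_mul, norm_conj] at h7
    have h8 : 0 < ‖p - γ 1‖ := lt_of_le_of_lt (norm_nonneg _) (lt_of_lt_of_le hξ hz1)
    have h9 : ‖p - γ 1‖ * ‖ξ - p‖ < ‖p - γ 1‖ * ‖p - γ 1‖ :=
      mul_lt_mul_of_pos_left (lt_of_lt_of_le hξ hz1) h8
    nlinarith
  have hw0 : conj (p - γ 1) ≠ 0 := by
    intro h0
    have := hpos m h5
    rw [h0, zero_mul, zero_re] at this
    exact lt_irrefl _ this
  have key2 := H777R2.exp_const (X := ℝ) (k := fun τ => K (1, τ) -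
      log (conj (p - γ 1) * (A (cl τ) - γ 1))) (by
      refine Continuous.sub (by fun_prop) ?_
      exact Continuous.clog (by fun_prop) fun τ => Or.inl (hpos _ (h4 _ (clm τ))))
    (c := 1 / conj (p - γ 1)) (fun τ => by
      have h0 : A (cl τ) - γ 1 ≠ 0 := sub_ne_zero.2 (h1 1 ⟨zero_le_one, le_rfl⟩ _ (clm τ))
      rw [exp_sub, hK, exp_log (mul_ne_zero hw0 h0)]
      simp only
      rw [cs1]
      field_simp) b a
  simp only [cla, clb] at key2
  have am : A a ∈ ball p r := h4 _ ⟨le_rfl, hab⟩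
  have bm : A b ∈ ball p r := h4 _ ⟨hab, le_rfl⟩
  have e1 : (m - γ 1) / (A a - γ 1) = (conj (p - γ 1) * (m - γ 1)) / (conj (p - γ 1) *
      (A a - γ 1)) := (mul_div_mul_left _ _ hw0).symm
  have e2 : (A b - γ 1) / (m - γ 1) = (conj (p - γ 1) * (A b - γ 1)) / (conj (p - γ 1) *
      (m - γ 1)) := (mul_div_mul_left _ _ hw0).symm
  rw [e1, e2, log_div_pos (hpos _ h5) (hpos _ am), log_div_pos (hpos _ bm) (hpos _ h5)] at key
  -- compare with the given logarithm
  have key3 := H777R2.exp_const_on (A := Icc a b) isPreconnected_Icc (k := fun τ => k τ - K (0, τ))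
    (hk.sub (Continuous.continuousOn (by fun_prop))) (c := 1) (fun τ hτ => by
      rw [exp_sub, ek τ hτ, hK]
      simp only
      rw [cle τ hτ, cs0]
      exact div_self (sub_ne_zero.2 (h1 0 ⟨le_rfl, zero_le_one⟩ _ hτ)))
    (x := b) (y := a) ⟨hab, le_rfl⟩ ⟨le_rfl, hab⟩
  linear_combination key3 + key + key2

end Pool.Agent.U347.BT
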